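import Pool.Agent.Lib.MP_b71113_an.FH.Key

/-! A functional carried by `K + i [0, 1] y` whose transform is of type zero on the reals. -/

namespace Pool.Agent.Lib.MP_b71113_an

open Set Filter Topology MeasureTheory Complex Metric
open scoped Real

variable {n : ℕ}

/-- plane waves -/
noncomputable def wave (x₀ : Fin n → ℝ) (ξ : Fin n → ℂ) : Ent n :=
  ⟨fun ζ => cexp (I * ∑ j, (ζ j - x₀ j) * ξ j), show Differentiable ℂ _ by fun_prop⟩

/-- Gaussians -/
noncomputable def gau (x₀ : Fin n → ℝ) (M : ℝ) : Ent n :=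
  ⟨fun ζ => cexp (-M * ∑ j, (ζ j - x₀ j) ^ 2), show Differentiable ℂ _ by fun_prop⟩

theorem exists_rep {K : Set (Fin n → ℝ)} [CompactSpace K] (l : Ent n →ₗ[ℂ] ℂ) {y : Fin n → ℝ}
    {C : ℝ} (hl : ∀ (φ : Ent n) B, 0 ≤ B →
      (∀ x ∈ K, ∀ t ∈ Icc (0 : ℝ) 1, ‖φ.1 (pt x (t • y))‖ ≤ B) → ‖l φ‖ ≤ C * B) :
    ∃ Λ : C(K × Icc (0 : ℝ) 1, ℂ) →L[ℂ] ℂ,
      ∀ φ, l φ = app Λ fun p => φ.1 (pt p.1 (p.2.1 • y)) := by
  have hc (φ : Ent n) : Continuous fun p : K × Icc (0 : ℝ) 1 => φ.1 (pt p.1 (p.2.1 • y)) :=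
    (Differentiable.continuous φ.2).comp (continuous_pt.comp (f := fun p : K × Icc (0 : ℝ) 1 =>
      (p.1.1, p.2.1 • y)) (by fun_prop))
  obtain ⟨Λ, hΛ⟩ := exists_functional (X := C(K × Icc (0 : ℝ) 1, ℂ))
    ⟨⟨fun φ : Ent n => ⟨_, hc φ⟩, fun _ _ => rfl⟩, fun _ _ => rfl⟩ l C fun φ =>
      hl φ _ (norm_nonneg _) fun x hx t ht =>
        ContinuousMap.norm_coe_le_norm ⟨_, hc φ⟩ (⟨x, hx⟩, ⟨t, ht⟩)
  exact ⟨Λ, fun φ => by rw [← hΛ, app, ContinuousMap.mkD_of_continuous (hc φ)]; rfl⟩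

theorem sum_split {R : Type} [CommRing R] {v e : Fin n → R} (h1 : ∑ j, v j * e j = 0)
    (h2 : ∑ j, e j ^ 2 = 1) (p : Fin n → R) (s q : R) :
    ∑ j, (v j + s * e j) * (p j + q * e j) = ∑ j, v j * p j + s * ∑ j, p j * e j + s * q := by
  have (j : Fin n) : (v j + s * e j) * (p j + q * e j) =
    v j * p j + s * (p j * e j) + q * (v j * e j) + s * q * e j ^ 2 := by ring
  simp only [this, Finset.sum_add_distrib, ← Finset.mul_sum, h1, h2]
  ring

theorem norm_sq_le_sum (η : Fin n → ℝ) : ‖η‖ ^ 2 ≤ ∑ j, η j ^ 2 := by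
  have h : 0 ≤ ∑ j, η j ^ 2 := by positivity
  refine (Real.le_sqrt (norm_nonneg _) h).1 ((pi_norm_le_iff_of_nonneg (Real.sqrt_nonneg _)).2
    fun j => Real.abs_le_sqrt ?_)
  exact Finset.single_le_sum (f := fun j => η j ^ 2) (fun _ _ => sq_nonneg _) (Finset.mem_univ j)

theorem dir_small {K : Set (Fin n → ℝ)} (hK : IsCompact K) {x₀ : Fin n → ℝ} (hx₀ : x₀ ∉ K)
    (l : Ent n →ₗ[ℂ] ℂ) {e : Fin n → ℝ} (he : ∑ j, e j ^ 2 = 1) {L C₀ : ℝ} (hL : 0 ≤ L)
    (hl : ∀ (φ : Ent n) B, 0 ≤ B →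
      (∀ x ∈ K, ∀ t ∈ Icc (0 : ℝ) 1, ‖φ.1 (pt x (t • L • e))‖ ≤ B) → ‖l φ‖ ≤ C₀ * B)
    (hw : ∀ ε > 0, ∃ C, ∀ a, ‖l (wave x₀ (ofR a))‖ ≤ C * Real.exp (ε * ‖a‖)) :
    ∃ C c : ℝ, 0 < c ∧ ∀ M : ℝ, 1 ≤ M → ‖l (gau x₀ M)‖ ≤ C * Real.exp (-c * M) := by
  have := isCompact_iff_compactSpace.1 hK
  obtain ⟨Λ, hΛ⟩ := exists_rep l hl
  obtain ⟨D, hD0, hD⟩ := hK.exists_forall_le' (f := fun x => ∑ j, (x j - x₀ j) ^ 2) (a := 0)
    (by fun_prop) fun x hx => lt_of_lt_of_le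
      (pow_pos (norm_pos_iff.2 (sub_ne_zero.2 fun h : x = x₀ => hx₀ (h ▸ hx))) 2)
      (norm_sq_le_sum (x - x₀))
  set s : K × Icc (0 : ℝ) 1 → ℝ := fun p => ∑ j, (p.1.1 j - x₀ j) * e j with hs
  set v : K × Icc (0 : ℝ) 1 → Fin n → ℝ := fun p j => p.1.1 j - x₀ j - s p * e j with hv
  set σ : K × Icc (0 : ℝ) 1 → ℂ := fun p => s p + (p.2.1 * L : ℝ) * I with hσ
  have hxc (j) : Continuous fun p : K × Icc (0 : ℝ) 1 => p.1.1 j :=
    (continuous_apply j).comp (by fun_prop)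
  have hsc : Continuous s := by fun_prop
  have hvc : Continuous v := by fun_prop
  have hσc : Continuous σ := by fun_prop
  have him (p) : (σ p).im = p.2.1 * L := by simp [hσ]
  have h1 (p) : (σ p).im ≤ L := by rw [him]; exact mul_le_of_le_one_left hL p.2.2.2
  have o1 (p) : ∑ j, v p j * e j = 0 := by
    simp only [hv, sub_mul _ (s p * _), Finset.sum_sub_distrib, mul_assoc, ← Finset.mul_sum, ← sq,
      he, mul_one]
    exact sub_self _
  have o2 (p) : ∑ j, (v p j : ℂ) * e j = 0 := by exact_mod_cast o1 p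
  have he' : ∑ j, (e j : ℂ) ^ 2 = 1 := by exact_mod_cast he
  have o3 (p : K × Icc (0 : ℝ) 1) (j) : pt p.1 (p.2.1 • L • e) j - x₀ j = v p j + σ p * e j := by
    simp only [pt, hv, hσ, Pi.smul_apply, smul_eq_mul]
    push_cast
    ring
  have main := key Λ (σ := σ) (Q := fun p => ∑ j, v p j ^ 2) hσc (by fun_prop)
    (d := √(D / 6)) (by positivity) hL (fun p => by positivity)
    (fun p => by rw [him]; exact mul_nonneg p.2.2.1 hL) h1 (fun p => by
      have h2 := sum_split (o1 p) he (v p) (s p) (s p)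
      have h3 := hD p.1 p.1.2
      simp only [o1, ← sq] at h2
      simp only [hv, sub_add_cancel] at h2
      rw [Real.sq_sqrt (by positivity), show (σ p).re = s p by simp [hσ]]
      linarith)
  suffices h : _ by
    obtain ⟨C, c, hc, h⟩ := main h
    refine ⟨C, c, hc, fun M hM => (congrArg norm ?_).trans_le (h M hM)⟩
    rw [hΛ]
    congr 1
    ext p
    have h2 := sum_split (o2 p) he' (fun j => v p j) (σ p) (σ p)
    simp only [o2, ← sq] at h2
    simp only [gau, o3, h2, ← Complex.exp_add]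
    push_cast
    ring_nf
  intro ε hε
  obtain ⟨ε', hε', h2, h3⟩ : ∃ ε' : ℝ, 0 < ε' ∧ ε' ≤ ε ∧ 2 * (ε' * (n + 1)) ^ 2 ≤ ε := by
    refine ⟨min ε 1 / (2 * (n + 1) ^ 2), by positivity, ?_, ?_⟩
    · refine (div_le_self (by positivity) ?_).trans (min_le_left _ _)
      nlinarith [n.cast_nonneg (α := ℝ)]
    · have h4 : (min ε 1) ^ 2 ≤ ε := by
        nlinarith [min_le_left ε 1, min_le_right ε 1, lt_min hε one_pos]
      rw [show 2 * (min ε 1 / (2 * (n + 1) ^ 2) * (n + 1)) ^ 2 =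
        (min ε 1) ^ 2 / (2 * (n + 1) ^ 2) by field_simp]
      refine (div_le_self (by positivity) ?_).trans h4
      nlinarith [n.cast_nonneg (α := ℝ)]
  obtain ⟨C, hC⟩ := hw ε' hε'
  have hC0 : 0 ≤ C := by simpa using (norm_nonneg _).trans (hC 0)
  have hi (b : ℝ) (hb : 0 < b) : Integrable fun η : Fin n → ℝ => Real.exp (-b * ∑ j, η j ^ 2) := by
    refine (GaussianFourier.integrable_cexp_neg_mul_sum_add (b := b) (by simpa using hb)
      (fun _ : Fin n => 0)).norm.congr (.of_forall fun η => ?_)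
    simp only [zero_mul, Finset.sum_const_zero, add_zero]
    exact_mod_cast norm_exp_ofReal (-b * ∑ j, η j ^ (2 : ℕ))
  set κ : ℂ := (π / 1 : ℂ) ^ (Fintype.card (Fin n) / 2 : ℂ) with hκ
  have hκ0 : 0 < ‖κ‖ := norm_pos_iff.2 (by simp [hκ, Real.pi_ne_zero])
  refine ⟨C * (∫ η : Fin n → ℝ, Real.exp (-(1 / 2) * ∑ j, η j ^ 2)) / ‖κ‖, fun M hM t ht => ?_⟩
  set μ := √M with hμ
  have hμ2 : μ ^ 2 = M := Real.sq_sqrt (by linarith)
  have hμ0 : 0 ≤ μ := Real.sqrt_nonneg _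
  set u : (Fin n → ℝ) → K × Icc (0 : ℝ) 1 → ℂ := fun η p => cexp (-1 * ∑ j, (η j : ℂ) ^ 2 +
    ∑ j, (2 * I * μ * v p j) * η j) * cexp (-I * t * σ p) with hu
  have e1 := app_integral Λ (u := u) (by unfold Function.uncurry; fun_prop)
    ((hi 1 one_pos).mul_const (Real.exp (t * L))) (.of_forall fun η p => by
      rw [hu, norm_mul, norm_wave, norm_exp]
      gcongr
      · simp [pow_two]
      · exact h1 p)
    (v := fun p => κ * (cexp (-M * (∑ j, v p j ^ 2 : ℝ)) * cexp (-I * t * σ p))) fun p => by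
      rw [hu, integral_mul_const, GaussianFourier.integral_cexp_neg_mul_sum_add (by simp),
        mul_assoc, ← hμ2, ← hκ]
      simp only [mul_pow, I_sq, ← Finset.mul_sum]
      push_cast
      ring_nf
  rw [app_mul Λ (by fun_prop)] at e1
  rw [div_mul_eq_mul_div, le_div_iff₀ hκ0, mul_comm, ← norm_mul, ← e1, mul_right_comm,
    ← integral_const_mul]
  refine norm_integral_le_of_norm_le ((hi _ one_half_pos).const_mul _) (.of_forall fun η => ?_)
  set w := ∑ j, η j * e j with hw'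
  set ξ : Fin n → ℝ := fun j => 2 * μ * η j + -(2 * μ * w + t) * e j with hξ
  have e2 : app Λ (u η) = cexp ((-1 * ∑ j, η j ^ 2 : ℝ)) * l (wave x₀ (ofR ξ)) := by
    rw [hΛ, ← app_mul Λ (by simp only [wave, o3]; fun_prop)]
    congr 1
    ext p
    have h4 := sum_split (o2 p) he' (fun j => 2 * μ * η j) (σ p) (-(2 * μ * w + t))
    simp only [hu, wave, o3, ofR, hξ, ← Complex.exp_add]
    push_cast
    rw [h4, hw']
    push_cast
    simp only [mul_assoc, ← Finset.mul_sum, mul_left_comm (v p _ : ℂ)]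
    ring_nf
  have he1 (j) : |e j| ≤ 1 := by
    have := Finset.single_le_sum (f := fun j => e j ^ 2) (fun _ _ => sq_nonneg _)
      (Finset.mem_univ j)
    exact sq_le_one_iff_abs_le_one _ |>.1 (this.trans_eq he)
  have h5 : |w| ≤ n * ‖η‖ := by
    refine (Finset.abs_sum_le_sum_abs _ _).trans ((Finset.sum_le_card_nsmul _ _ ‖η‖
      fun j _ => ?_).trans_eq (by simp))
    rw [abs_mul]
    exact (mul_le_of_le_one_right (abs_nonneg _) (he1 j)).trans (norm_le_pi_norm η j)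
  have h6 : ‖ξ‖ ≤ 2 * μ * ((n + 1) * ‖η‖) + t :=
    (pi_norm_le_iff_of_nonneg (by positivity)).2 fun j => by
      have h7 : |η j| ≤ ‖η‖ := norm_le_pi_norm η j
      refine (abs_add_le _ _).trans ?_
      rw [abs_mul, abs_mul (-_), abs_neg, abs_of_nonneg (show 0 ≤ 2 * μ by positivity)]
      have h8 : |2 * μ * w + t| ≤ 2 * μ * |w| + t := (abs_add_le _ _).trans_eq (by
        rw [abs_mul, abs_of_nonneg ht, abs_of_nonneg (show 0 ≤ 2 * μ by positivity)])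
      have h9 := mul_le_of_le_one_right (abs_nonneg (2 * μ * w + t)) (he1 j)
      nlinarith
  rw [e2, norm_mul, norm_exp_ofReal]
  refine (mul_le_mul_of_nonneg_left (hC ξ) (Real.exp_pos _).le).trans ?_
  rw [mul_left_comm, mul_assoc, ← Real.exp_add, ← Real.exp_add]
  refine mul_le_mul_of_nonneg_left (Real.exp_le_exp.2 ?_) hC0
  have h7 := mul_le_mul_of_nonneg_left h6 hε'.le
  have h8 := mul_le_mul_of_nonneg_right h3 (sq_nonneg μ)
  nlinarith [norm_sq_le_sum η, sq_nonneg (‖η‖ - 2 * (ε' * (n + 1)) * μ),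
    mul_le_mul_of_nonneg_right h2 ht]

end Pool.Agent.Lib.MP_b71113_an
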