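import Pool.Agent.Lib.MP_b71113_an.Lower
import Pool.Agent.Lib.MP_b71113_an.Split

/-! Entire functions on `ℂⁿ` as a vector space. -/

namespace Pool.Agent.Lib.MP_b71113_an

/-- The entire functions. -/
def Ent (n : ℕ) : Submodule ℂ ((Fin n → ℂ) → ℂ) where
  carrier := {φ | Differentiable ℂ φ}
  add_mem' := fun h h' => Differentiable.add h h'
  zero_mem' := differentiable_const 0
  smul_mem' := fun a _ h => Differentiable.const_smul h a

end Pool.Agent.Lib.MP_b71113_an
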