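import Pool.Agent.Lib.MP_b71113_an.Defs

/-! Compact holes that are far from the outer boundary. -/

namespace Pool.Agent.Lib.MP_b71113_an

/-- The hole `K` is far from the outer boundary of `Ω₀`: either every point at Euclidean distance
at most `2 ‖c‖` from a point of `K` lies in `Ω₀`, or some entire function is within `1/10` of `0`
on `K + i Q` and within `1/10` of `1` on `(Ω₀ \ K₀) + i Q` for some compact `K₀ ⊆ Ω₀`. -/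
def FarHole {n : ℕ} (Ω₀ K : Set (Fin n → ℝ)) (c : Fin n → ℝ) : Prop :=
  (∀ k ∈ K, ∀ x : Fin n → ℝ, √(∑ j, (x j - k j) ^ 2) ≤ 2 * √(∑ j, c j ^ 2) → x ∈ Ω₀) ∨
  ∃ (P : (Fin n → ℂ) → ℂ) (K₀ : Set (Fin n → ℝ)), Differentiable ℂ P ∧ IsCompact K₀ ∧ K₀ ⊆ Ω₀ ∧
    (∀ w ∈ tube K c, ‖P w‖ ≤ 1 / 10) ∧ ∀ w ∈ tube (Ω₀ \ K₀) c, ‖P w - 1‖ ≤ 1 / 10

end Pool.Agent.Lib.MP_b71113_an
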