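import Pool.Agent.Lib.MP_b71113_an.Osgood
import Pool.Agent.Lib.MP_b71113_an.KL.Oka1

/-! Identity theorem, parameter integrals, and a Hartogs type lemma with compact slices. -/

namespace Pool.Agent.Lib.MP_b71113_an

open Set Filter Topology MeasureTheory Metric Complex Pool.Agent.NapOT Pool.Agent.NapKL

variable {E : Type} [NormedAddCommGroup E] [NormedSpace ℂ E]

theorem ident {O : Set E} (hO : IsOpen O) (hc : IsPreconnected O) {f : E → ℂ}
    (hf : DifferentiableOn ℂ f O) {z₀ : E} (hz₀ : z₀ ∈ O) (h0 : f =ᶠ[𝓝 z₀] 0) :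
    ∀ z ∈ O, f z = 0 := by
  have h1 : O ⊆ {z | f =ᶠ[𝓝 z] 0} := by
    refine hc.subset_of_closure_inter_subset isOpen_setOfPred_eventually_nhds ⟨z₀, hz₀, h0⟩ ?_
    rintro z ⟨hz, hzO⟩
    obtain ⟨r, hr, hb⟩ := Metric.isOpen_iff.1 hO z hzO
    obtain ⟨w, hw, hw0⟩ := _root_.mem_closure_iff.1 hz _ isOpen_ball (mem_ball_self hr)
    refine Filter.eventually_of_mem (ball_mem_nhds z hr) fun v hv => ?_
    let γ : ℂ → E := fun t => w + t • (v - w)
    have hγ : Differentiable ℂ γ := by fun_prop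
    have hU : IsOpen (γ ⁻¹' ball z r) := isOpen_ball.preimage hγ.continuous
    have hconv : Convex ℝ (γ ⁻¹' ball z r) := by
      intro a ha b hb' s t hs ht hst
      have := convex_ball z r ha hb' hs ht hst
      have e : γ (s • a + t • b) = s • γ a + t • γ b := by
        simp only [γ, smul_add, add_smul, smul_assoc]
        rw [add_add_add_comm, ← add_smul, hst, one_smul]
      rwa [mem_preimage, e]
    have han : AnalyticOnNhd ℂ (f ∘ γ) (γ ⁻¹' ball z r) :=
      (hf.comp hγ.differentiableOn fun t ht => hb ht).analyticOnNhd hU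
    have hz0 : (0 : ℂ) ∈ γ ⁻¹' ball z r := by simpa [γ] using hw
    have he : f ∘ γ =ᶠ[𝓝 0] 0 := by
      have h2 : Tendsto γ (𝓝 0) (𝓝 w) := by
        have := hγ.continuous.tendsto 0
        simpa [γ] using this
      exact h2.eventually hw0
    have := han.eqOn_zero_of_preconnected_of_eventuallyEq_zero hconv.isPreconnected hz0 he
      (show (1 : ℂ) ∈ γ ⁻¹' ball z r by simpa [γ] using hv)
    simpa [γ] using this
  exact fun z hz => (h1 hz).self_of_nhds

theorem diffOn_integral [FiniteDimensional ℂ E] {T : Type} [TopologicalSpace T] [T2Space T]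
    [SecondCountableTopology T] [MeasureSpace T] [BorelSpace T]
    [IsFiniteMeasureOnCompacts (volume : Measure T)] {Ψ : E → T → ℂ} {O : Set E} (hO : IsOpen O)
    {L : Set T} (hL : IsCompact L) (hc : ContinuousOn (fun p : E × T => Ψ p.1 p.2) (O ×ˢ univ))
    (hd : ∀ t, DifferentiableOn ℂ (fun w => Ψ w t) O) (h0 : ∀ w t, t ∉ L → Ψ w t = 0) :
    DifferentiableOn ℂ (fun w => ∫ t, Ψ w t) O := by
  have : ProperSpace E := FiniteDimensional.proper ℂ E
  have e : (fun w => ∫ t, Ψ w t) = fun w => ∫ t in L, Ψ w t := funext fun w =>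
    (setIntegral_eq_integral_of_forall_compl_eq_zero (h0 w)).symm
  rw [e]
  intro x hx
  obtain ⟨r, hr, hrO⟩ := nhds_basis_closedBall.mem_iff.1 (hO.mem_nhds hx)
  have hcont : ∀ y ∈ O, Continuous (Ψ y) := fun y hy => by
    have h2 : Continuous fun θ : T => (y, θ) := by fun_prop
    rw [← continuousOn_univ]
    exact hc.comp h2.continuousOn (fun θ _ => ⟨hy, mem_univ _⟩)
  obtain ⟨M, hM⟩ := ((isCompact_closedBall x r).prod hL).exists_bound_of_continuousOn
    (hc.mono (prod_mono hrO (subset_univ _)))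
  have hr2 : 0 < r / 2 := half_pos hr
  have hsub : ∀ y ∈ ball x (r / 2), ball y (r / 2) ⊆ closedBall x r := fun y hy z hz => by
    rw [mem_ball] at hy hz
    rw [mem_closedBall]
    have := dist_triangle z y x
    linarith
  refine (hasFDerivAt_integral_of_dominated_of_fderiv_le (𝕜 := ℂ)
    (μ := volume.restrict L) (F := Ψ) (F' := fun y θ => fderiv ℂ (fun w => Ψ w θ) y)
    (bound := fun _ => 2 * M / (r / 2)) (ball_mem_nhds x hr2) ?_ ?_ ?_ ?_ ?_
    ?_).differentiableAt.differentiableWithinAt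
  · filter_upwards [hO.mem_nhds hx] with y hy using (hcont y hy).aestronglyMeasurable
  · exact (hcont x hx).continuousOn.integrableOn_compact hL
  · exact (continuous_fderiv_param hO hc hd hx).aestronglyMeasurable
  · filter_upwards [ae_restrict_mem hL.measurableSet] with θ hθ y hy
    refine norm_fderiv_le_of_ball hr2 ((hd θ).mono ((hsub y hy).trans hrO)) fun z hz => ?_
    exact hM (z, θ) ⟨hsub y hy hz, hθ⟩
  · exact integrableOn_const hL.measure_lt_top.ne
  · refine Eventually.of_forall fun θ y hy => ?_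
    have hyO : y ∈ O := hrO (hsub y hy (mem_ball_self hr2))
    exact ((hd θ).differentiableAt (hO.mem_nhds hyO)).hasFDerivAt

/-- a cut-off function that is `1` near the slice and near the point -/
def Good (A T : Set (E × ℂ)) (κ : E → ℂ) (z : E) (ρ : ℂ → ℂ) : Prop :=
  Cut {s | (z, s) ∈ A} ρ ∧ ∃ V, IsOpen V ∧ κ z ∈ V ∧ (∀ s, (z, s) ∈ T → s ∈ V) ∧ ∀ s ∈ V, ρ s = 1

theorem db_supp {ρ : ℂ → ℂ} {V : Set ℂ} (hV : IsOpen V) (h1 : ∀ s ∈ V, ρ s = 1) :
    tsupport (db ρ) ⊆ Vᶜ := by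
  refine closure_minimal (fun s hs hsV => hs ?_) hV.isClosed_compl
  rw [oka1_congr (v := fun _ => 1) (Filter.eventually_of_mem (hV.mem_nhds hsV) h1)]
  exact oka1_hol (differentiableAt_const (1 : ℂ))

theorem ct_eval {U : Set ℂ} (hU : IsOpen U) {ρ a : ℂ → ℂ} (h : Cut U ρ)
    (ha : DifferentiableOn ℂ a U) (ξ : ℂ) : CT (fun s => db ρ s * a s) ξ = ρ ξ * a ξ := by
  rw [← cp_smooth (oka1_cd h hU h.sub (oka1_cdhol hU ha)) h.cs.mul_right ξ]
  congr 1
  funext s
  by_cases hs : s ∈ tsupport ρ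
  · have h1 := ha.differentiableAt (hU.mem_nhds (h.sub hs))
    rw [oka1_mul (h.cd.differentiable (by simp) s) (h1.restrictScalars ℝ), oka1_hol h1]
    ring
  · rw [oka1_out hs, oka1_out_mul hs, zero_mul]

section core

variable {A T : Set (E × ℂ)} {κ : E → ℂ} {a : E × ℂ → ℂ} {z : E} {ρ ρ' : ℂ → ℂ}

omit [NormedAddCommGroup E] [NormedSpace ℂ E] in
theorem Good.supp (h : Good A T κ z ρ) {s : ℂ} (hs : s ∈ tsupport (db ρ)) :
    (z, s) ∈ A \ T ∧ κ z - s ≠ 0 := by
  obtain ⟨hc, V, hV, hκ, hT, h1⟩ := h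
  have := db_supp hV h1 hs
  exact ⟨⟨hc.sub (tsupport_db_subset ρ hs), fun h => this (hT s h)⟩,
    fun e => this (sub_eq_zero.1 e ▸ hκ)⟩

omit [NormedAddCommGroup E] [NormedSpace ℂ E] in
theorem Good.cpt (h : Good A T κ z ρ) : IsCompact (tsupport (db ρ)) :=
  h.1.cs.of_isClosed_subset (isClosed_tsupport _) (tsupport_db_subset ρ)

theorem Good.int (ha : DifferentiableOn ℂ a (A \ T)) (h : Good A T κ z ρ) :
    Integrable fun s => db ρ s * a (z, s) / (κ z - s) := by
  refine oka1_int h.cpt (ContinuousOn.div (h.1.cont_db.continuousOn.mul ?_) (by fun_prop)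
    fun s hs => (h.supp hs).2) fun s hs => by simp [image_eq_zero_of_notMem_tsupport hs]
  exact ha.continuousOn.comp (by fun_prop) fun s hs => (h.supp hs).1

theorem slice_diff (ha : DifferentiableOn ℂ a (A \ T)) (z : E) :
    DifferentiableOn ℂ (fun s => a (z, s)) {s | (z, s) ∈ A \ T} :=
  ha.comp (by fun_prop) fun _ hs => hs

theorem Good.indep (hA : IsOpen A) (hT : IsClosed T) (ha : DifferentiableOn ℂ a (A \ T))
    (h : Good A T κ z ρ) (h' : Good A T κ z ρ') :
    CT (fun s => db ρ s * a (z, s)) (κ z) = CT (fun s => db ρ' s * a (z, s)) (κ z) := by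
  have i1 := h.int ha
  have i2 := h'.int ha
  obtain ⟨hc, V, hV, hκ, hT1, h1⟩ := h
  obtain ⟨hc', V', hV', hκ', hT1', h1'⟩ := h'
  have hU : IsOpen {s : ℂ | (z, s) ∈ A \ T} := (hA.sdiff hT).preimage (by fun_prop)
  have hs : tsupport (fun s => ρ s - ρ' s) ⊆ (tsupport ρ ∪ tsupport ρ') ∩ (V ∩ V')ᶜ := by
    refine closure_minimal (fun s hs => ⟨?_, fun hV => hs ?_⟩)
      (((isClosed_tsupport _).union (isClosed_tsupport _)).inter (hV.inter hV').isClosed_compl)
    · by_contra hn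
      rw [mem_union, not_or] at hn
      exact hs (by simp [image_eq_zero_of_notMem_tsupport hn.1,
        image_eq_zero_of_notMem_tsupport hn.2])
    · simp [h1 s hV.1, h1' s hV.2]
  have hcut : Cut {s : ℂ | (z, s) ∈ A \ T} fun s => ρ s - ρ' s :=
    ⟨hc.cd.sub hc'.cd, (hc.cs.union hc'.cs).of_isClosed_subset (isClosed_tsupport _)
      fun s h => (hs h).1, fun s h => ⟨(hs h).1.elim (fun h => hc.sub h) fun h => hc'.sub h,
        fun hT => (hs h).2 ⟨hT1 s hT, hT1' s hT⟩⟩⟩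
  have e := ct_eval hU hcut (slice_diff ha z) (κ z)
  rw [h1 _ hκ, h1' _ hκ', sub_self, zero_mul] at e
  rw [← sub_eq_zero, ← e, CT, CT, CT, ← mul_sub, ← integral_sub i1 i2]
  congr 2
  funext s
  rw [oka1_sub (hc.cd.differentiable (by simp) s) (hc'.cd.differentiable (by simp) s)]
  ring

omit [NormedSpace ℂ E] in
theorem Good.near (hA : IsOpen A) (hT : IsClosed T) (hκ : Continuous κ) {r : ℝ}
    (hb : ∀ᶠ w in 𝓝 z, ∀ s, (w, s) ∈ T → ‖s‖ ≤ r) (h : Good A T κ z ρ) :
    ∀ᶠ w in 𝓝 z, Good A T κ w ρ := by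
  obtain ⟨hc, V, hV, hκV, hT1, h1⟩ := h
  have e1 : ∀ᶠ w in 𝓝 z, ∀ s ∈ tsupport ρ, (w, s) ∈ A :=
    hc.cs.eventually_forall_of_forall_eventually fun s hs => hA.mem_nhds (hc.sub hs)
  have e2 : ∀ᶠ w in 𝓝 z, ∀ s ∈ closedBall (0 : ℂ) r \ V, (w, s) ∈ Tᶜ :=
    ((isCompact_closedBall 0 r).diff hV).eventually_forall_of_forall_eventually fun s hs =>
      hT.isOpen_compl.mem_nhds fun h => hs.2 (hT1 s h)
  filter_upwards [e1, e2, hb, hκ.continuousAt.preimage_mem_nhds (hV.mem_nhds hκV)]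
    with w h2 h3 h4 h5
  refine ⟨⟨hc.cd, hc.cs, h2⟩, V, hV, h5, fun s hs => ?_, h1⟩
  by_contra hn
  exact h3 s ⟨mem_closedBall_zero_iff.2 (h4 s hs), hn⟩ hs

omit [NormedSpace ℂ E] in
theorem exists_good (hA : IsOpen A) (hT : IsClosed T) {r : ℝ} (hb : ∀ s, (z, s) ∈ T → ‖s‖ ≤ r)
    (hTA : ∀ s, (z, s) ∈ T → (z, s) ∈ A) (hz : (z, κ z) ∈ A) : ∃ ρ, Good A T κ z ρ := by
  have hU : IsOpen {s : ℂ | (z, s) ∈ A} := hA.preimage (by fun_prop)
  have hS : IsCompact {s : ℂ | (z, s) ∈ T} := (isCompact_closedBall 0 r).of_isClosed_subset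
    (hT.preimage (by fun_prop)) fun s hs => mem_closedBall_zero_iff.2 (hb s hs)
  obtain ⟨K₁, hK₁, h1, h2⟩ := exists_compact_between (hS.insert (κ z)) hU
    (insert_subset hz hTA)
  obtain ⟨ψ, h3, h4, h5, h6, -⟩ := exists_bump hK₁ hU h2
  have hts : tsupport (fun s => (ψ s : ℂ)) = tsupport ψ := by
    unfold tsupport
    congr 1
    ext s
    simp
  refine ⟨fun s => (ψ s : ℂ), ⟨ofRealCLM.contDiff.comp (h3.of_le (by exact_mod_cast le_top)), ?_,
    hts ▸ h5⟩, interior K₁, isOpen_interior, h1 (mem_insert _ _),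
    fun s hs => h1 (mem_insert_of_mem _ hs), fun s hs => by simp [h6 s (interior_subset hs)]⟩
  rw [HasCompactSupport, hts]
  exact h4

theorem fill_core [FiniteDimensional ℂ E] (hA : IsOpen A) (hT : IsClosed T)
    (hκ : Differentiable ℂ κ) (ha : DifferentiableOn ℂ a (A \ T)) {W : Set E}
    (hb : ∀ z ∈ W, ∃ r, ∀ᶠ w in 𝓝 z, ∀ s, (w, s) ∈ T → ‖s‖ ≤ r)
    (hTA : ∀ z ∈ W, ∀ s, (z, s) ∈ T → (z, s) ∈ A) (hz : ∀ z ∈ W, (z, κ z) ∈ A) :
    ∃ u : E → ℂ, DifferentiableOn ℂ u W ∧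
      ∀ z ∈ W, (∀ s, (z, s) ∉ T) → u z = a (z, κ z) := by
  have hex : ∀ z, ∃ ρ, z ∈ W → Good A T κ z ρ := fun z => by
    by_cases h : z ∈ W
    · obtain ⟨r, hr⟩ := hb z h
      obtain ⟨ρ, hρ⟩ := exists_good hA hT hr.self_of_nhds (hTA z h) (hz z h)
      exact ⟨ρ, fun _ => hρ⟩
    · exact ⟨0, fun h' => absurd h' h⟩
  choose ρ hρ using hex
  refine ⟨fun z => CT (fun s => db (ρ z) s * a (z, s)) (κ z), fun z hzW => ?_, fun z hzW h0 => ?_⟩
  · obtain ⟨r, hr⟩ := hb z hzW
    have hg := hρ z hzW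
    obtain ⟨O, hO1, hO, hzO⟩ := _root_.mem_nhds_iff.1 (hg.near hA hT hκ.continuous hr)
    have hd : DifferentiableOn ℂ (fun w => ∫ s, db (ρ z) s * a (w, s) / (κ w - s)) O := by
      refine diffOn_integral hO hg.cpt (fun p hp => ?_) (fun s => ?_)
        fun w s hs => by simp [image_eq_zero_of_notMem_tsupport hs]
      · refine ContinuousAt.continuousWithinAt ?_
        by_cases hs : p.2 ∈ tsupport (db (ρ z))
        · have h1 := (hO1 hp.1).supp hs
          have h2 : ContinuousAt a p := ha.continuousOn.continuousAt ((hA.sdiff hT).mem_nhds h1.1)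
          exact (((hg.1.cont_db.comp continuous_snd).continuousAt).mul h2).div
            ((hκ.continuous.comp continuous_fst).sub continuous_snd).continuousAt h1.2
        · refine ContinuousAt.congr (continuousAt_const (y := (0 : ℂ))) ?_
          filter_upwards [continuous_snd.continuousAt.preimage_mem_nhds
            ((isClosed_tsupport _).isOpen_compl.mem_nhds hs)] with q hq
          simp [image_eq_zero_of_notMem_tsupport hq]
      · by_cases hs : s ∈ tsupport (db (ρ z))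
        · simp only [div_eq_mul_inv]
          refine DifferentiableOn.mul (DifferentiableOn.const_mul ?_ _)
            ((hκ.sub_const s).differentiableOn.inv fun w hw => ((hO1 hw).supp hs).2)
          exact ha.comp (by fun_prop) fun w hw => ((hO1 hw).supp hs).1
        · simp [image_eq_zero_of_notMem_tsupport hs]
    have hd' := ((hd.differentiableAt (hO.mem_nhds hzO)).const_mul
      ((Real.pi : ℂ))⁻¹).differentiableWithinAt (s := W)
    refine hd'.congr_of_eventuallyEq ?_ rfl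
    filter_upwards [self_mem_nhdsWithin, mem_nhdsWithin_of_mem_nhds (hO.mem_nhds hzO)]
      with w hw hwO
    exact (hρ w hw).indep hA hT ha (hO1 hwO)
  · obtain ⟨hc, V, -, hκV, -, h1⟩ := hρ z hzW
    have hU : IsOpen {s : ℂ | (z, s) ∈ A \ T} := (hA.sdiff hT).preimage (by fun_prop)
    have := ct_eval hU ⟨hc.cd, hc.cs, fun s hs => ⟨hc.sub hs, h0 s⟩⟩ (slice_diff ha z) (κ z)
    rw [h1 _ hκV, one_mul] at this
    exact this

end core

end Pool.Agent.Lib.MP_b71113_an
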