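import Pool.Agent.Lib.MP_b71113_an.FH.Fill1
import Pool.Agent.Lib.MP_b71113_an.Estimate

/-! Functions on `D^k_σ(Ω₀ \ K, c)` extend over the compact hole `K`. -/

namespace Pool.Agent.Lib.MP_b71113_an

open Set Filter Topology Metric Complex Function

variable {n : ℕ}

theorem preconn_fill (hn : 0 < n) {Ω K : Set (Fin n → ℝ)} (hΩ : IsOpen Ω) (hK : IsCompact K)
    (hKΩ : K ⊆ Ω) (hc : IsPreconnected (Ω \ K)) : IsPreconnected Ω := by
  have : Nonempty (Fin n) := ⟨⟨0, hn⟩⟩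
  have key : ∀ u v : Set (Fin n → ℝ), IsOpen u → IsOpen v → Ω ⊆ u ∪ v → Ω ∩ (u ∩ v) = ∅ →
      Ω \ K ⊆ u → Ω ⊆ u := fun u v hu hv h1 h2 h3 => by
    have e : Ω ∩ v = K \ u := by
      ext x
      constructor
      · rintro ⟨hx, hxv⟩
        have hxu : x ∉ u := fun h => (h2 ▸ ⟨hx, h, hxv⟩ : x ∈ (∅ : Set _))
        exact ⟨by_contra fun hn => hxu (h3 ⟨hx, hn⟩), hxu⟩
      · rintro ⟨hx, hxu⟩
        exact ⟨hKΩ hx, (h1 (hKΩ hx)).resolve_left hxu⟩
    have hcl : IsClopen (K \ u) := ⟨(hK.diff hu).isClosed, e ▸ hΩ.inter hv⟩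
    rcases isClopen_iff.1 hcl with h | h
    · intro x hx
      by_contra hn
      have : x ∈ K \ u := e ▸ ⟨hx, (h1 hx).resolve_left hn⟩
      rw [h] at this
      exact this
    · exact absurd (h ▸ hK.diff hu) noncompact_univ'
  rw [isPreconnected_iff_subset_of_disjoint] at hc ⊢
  intro u v hu hv h1 h2
  refine (hc u v hu hv (sdiff_subset.trans h1) ?_).imp (key u v hu hv h1 h2)
    (key v u hv hu (by rwa [union_comm]) (by rwa [inter_comm v]))
  exact eq_empty_of_subset_empty (h2 ▸ inter_subset_inter_left _ sdiff_subset)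
  where noncompact_univ' : ¬ IsCompact (univ : Set (Fin n → ℝ)) := by
          have : Nonempty (Fin n) := ⟨⟨0, hn⟩⟩
          exact noncompact_univ _

/-- the parabolas -/
noncomputable def par (k j : Fin n) (δ : ℝ) (p : (Fin n → ℂ) × ℂ) : Fin n → ℂ :=
  update (update p.1 k p.2) j (p.1 j + (δ : ℂ) ^ 2 * (p.1 k ^ 2 - p.2 ^ 2))

/-- bound for the height -/
def hgt (k j : Fin n) (R : ℝ) (x : Fin n → ℝ) (t : ℝ) : ℝ :=
  1 + R + |x j| + x k ^ 2 + t ^ 2 + R ^ 2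

/-- the margin -/
def mar (k j : Fin n) (R : ℝ) (x : Fin n → ℝ) (t : ℝ) : ℝ :=
  2 * |x k| * |t| + 2 * R * hgt k j R x t

/-- the smaller domains -/
def Wd (k j : Fin n) (R δ : ℝ) (Ω : Set (Fin n → ℝ)) (c : Fin n → ℝ) (σ : Fin n → ℤˣ) :
    Set (Fin n → ℂ) :=
  {z | reV z ∈ Ω ∧ ∀ l, l ≠ k → c l + δ * mar k j R (reV z) (z k).im < sv σ l * (z l).im}

variable {k j : Fin n} {R δ : ℝ} {Ω K : Set (Fin n → ℝ)} {c : Fin n → ℝ} {σ : Fin n → ℤˣ}

theorem diff_par (k j : Fin n) (δ : ℝ) : Differentiable ℂ (par k j δ) := by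
  refine differentiable_pi.2 fun l => ?_
  simp only [par, update_apply]
  split_ifs <;> fun_prop

theorem par_self (k j : Fin n) (δ : ℝ) (z : Fin n → ℂ) : par k j δ (z, z k) = z := by
  simp [par]

theorem par_k (hj : j ≠ k) (p : (Fin n → ℂ) × ℂ) : par k j δ p k = p.2 := by
  simp [par, hj.symm]

theorem par_re (p : (Fin n → ℂ) × ℂ) : (par k j δ p j).re = (p.1 j).re +
    δ ^ 2 * ((p.1 k).re ^ 2 - (p.1 k).im ^ 2 - p.2.re ^ 2 + p.2.im ^ 2) := by
  simp only [par, update_self, add_re, add_im, sub_re, sub_im, sq, mul_re, mul_im, ofReal_re,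
    ofReal_im]
  ring

theorem par_im (p : (Fin n → ℂ) × ℂ) : (par k j δ p j).im = (p.1 j).im +
    δ ^ 2 * (2 * (p.1 k).re * (p.1 k).im - 2 * p.2.re * p.2.im) := by
  simp only [par, update_self, add_re, add_im, sub_re, sub_im, sq, mul_re, mul_im, ofReal_re,
    ofReal_im]
  ring

theorem cont_hgt (k j : Fin n) (R : ℝ) :
    Continuous fun z : Fin n → ℂ => hgt k j R (reV z) (z k).im := by
  unfold hgt reV
  fun_prop

theorem cont_mar (k j : Fin n) (R : ℝ) :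
    Continuous fun p : (Fin n → ℝ) × ℝ => mar k j R p.1 p.2 := by
  unfold mar hgt
  fun_prop

theorem mar_nonneg (hR : 0 ≤ R) (x : Fin n → ℝ) (t : ℝ) : 0 ≤ mar k j R x t := by
  unfold mar hgt
  positivity

theorem isOpen_Wd (hΩ : IsOpen Ω) : IsOpen (Wd k j R δ Ω c σ) := by
  have e : Wd k j R δ Ω c σ = reV ⁻¹' Ω ∩ ⋂ l ∈ {l | l ≠ k},
      {z | c l + δ * mar k j R (reV z) (z k).im < sv σ l * (z l).im} := by
    ext z
    simp [Wd]
  rw [e]
  refine (hΩ.preimage continuous_reV).inter ((toFinite _).isOpen_biInter fun l _ => ?_)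
  have := (cont_mar k j R).comp (continuous_reV.prodMk
    (show Continuous fun z : Fin n → ℂ => (z k).im by fun_prop))
  exact isOpen_lt (continuous_const.add (continuous_const.mul this)) (by fun_prop)

theorem Wd_sub (hR : 0 ≤ R) {δ' : ℝ} (h : δ ≤ δ') : Wd k j R δ' Ω c σ ⊆ Wd k j R δ Ω c σ :=
  fun z hz => ⟨hz.1, fun l hl => lt_of_le_of_lt (by
    have := mul_le_mul_of_nonneg_right h (mar_nonneg (k := k) (j := j) hR (reV z) (z k).im)
    linarith) (hz.2 l hl)⟩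

theorem Wd_zero : Wd k j R 0 Ω c σ = Dksig Ω c k σ := by
  ext z
  simp [Wd, Dksig, sv]

/-- the parametrisation of `Wd` -/
noncomputable def lif (k j : Fin n) (R δ : ℝ) (σ : Fin n → ℤˣ)
    (p : (Fin n → ℝ) × (Fin n → ℝ)) : Fin n → ℂ :=
  pt p.1 (p.2 + (δ * mar k j R p.1 (p.2 k)) • update (sv σ) k 0)

theorem lif_mem {p : (Fin n → ℝ) × (Fin n → ℝ)} : lif k j R δ σ p ∈ Wd k j R δ Ω c σ ↔
    p.1 ∈ Ω ∧ ∀ l, l ≠ k → c l < sv σ l * p.2 l := by
  simp only [lif, Wd, mem_ofPred_eq, reV_pt, pt_im, Pi.add_apply, Pi.smul_apply, update_self,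
    smul_eq_mul, mul_zero, add_zero]
  refine and_congr_right fun _ => forall₂_congr fun l hl => ?_
  rw [update_of_ne hl, mul_add, mul_left_comm, sv_sq, mul_one, add_lt_add_iff_right]

theorem preconn_Wd (hΩ : IsPreconnected Ω) : IsPreconnected (Wd k j R δ Ω c σ) := by
  have hV : Convex ℝ {y : Fin n → ℝ | ∀ l, l ≠ k → c l < sv σ l * y l} := by
    intro a ha b hb s t hs ht hst l hl
    have := convex_Ioi (𝕜 := ℝ) (c l) (ha l hl) (hb l hl) hs ht hst
    simp only [mem_Ioi, smul_eq_mul] at this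
    simp only [Pi.add_apply, Pi.smul_apply, smul_eq_mul]
    linarith
  have hc : Continuous (lif k j R δ σ) := by
    have := (cont_mar k j R).comp (continuous_fst.prodMk
      (show Continuous fun p : (Fin n → ℝ) × (Fin n → ℝ) => p.2 k by fun_prop))
    exact continuous_pt.comp (continuous_fst.prodMk (continuous_snd.add
      ((continuous_const.mul this).smul continuous_const)))
  have e : Wd k j R δ Ω c σ =
      lif k j R δ σ '' (Ω ×ˢ {y : Fin n → ℝ | ∀ l, l ≠ k → c l < sv σ l * y l}) := by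
    ext z
    constructor
    · intro hz
      have e1 : lif k j R δ σ (reV z, (fun l => (z l).im) -
          (δ * mar k j R (reV z) (z k).im) • update (sv σ) k 0) = z := by
        simp [lif, pt_reV]
      exact ⟨_, lif_mem.1 (e1.symm ▸ hz), e1⟩
    · rintro ⟨p, hp, rfl⟩
      exact lif_mem.2 hp
  rw [e]
  exact (hΩ.prod hV.isPreconnected).image _ hc.continuousOn

theorem slice_est (hj : j ≠ k) (hR : ∀ x ∈ K, ∀ l, |x l| ≤ R) (h0 : 0 ≤ δ) (h1 : δ ≤ 1)
    {z : Fin n → ℂ} {s : ℂ} (h : reV (par k j δ (z, s)) ∈ K) :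
    |s.re| ≤ R ∧ δ * |s.im| ≤ hgt k j R (reV z) (z k).im := by
  have e1 := hR _ h k
  have e2 := hR _ h j
  simp only [reV, par_k hj, par_re] at e1 e2
  refine ⟨e1, ?_⟩
  have e3 : δ ^ 2 ≤ 1 := pow_le_one₀ h0 h1
  have e4 : s.re ^ 2 ≤ R ^ 2 := sq_le_sq' (abs_le.1 e1).1 (abs_le.1 e1).2
  have e5 : (δ * |s.im|) ^ 2 = δ ^ 2 * s.im ^ 2 := by rw [mul_pow, sq_abs]
  have e6 := mul_le_mul_of_nonneg_right e3 (sq_nonneg s.re)
  have e7 := mul_le_mul_of_nonneg_right e3 (sq_nonneg (z k).im)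
  have e8 := mul_nonneg (sq_nonneg δ) (sq_nonneg (z k).re)
  have e9 := neg_abs_le (z j).re
  have e10 := (abs_le.1 e2).2
  simp only [hgt, reV]
  nlinarith [sq_nonneg (δ * |s.im| - 1), sq_nonneg (z k).re]

theorem slice_mem (hj : j ≠ k) (hR0 : 0 ≤ R) (hR : ∀ x ∈ K, ∀ l, |x l| ≤ R) (hKΩ : K ⊆ Ω)
    (h0 : 0 ≤ δ) (h1 : δ ≤ 1) {z : Fin n → ℂ} (hz : z ∈ Wd k j R δ Ω c σ) {s : ℂ}
    (h : reV (par k j δ (z, s)) ∈ K) : par k j δ (z, s) ∈ Dksig Ω c k σ := by
  refine ⟨hKΩ h, fun l hl => ?_⟩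
  have e0 := hz.2 l hl
  have em := mul_nonneg h0 (mar_nonneg (k := k) (j := j) hR0 (reV z) (z k).im)
  change c l < sv σ l * _
  by_cases hlj : l = j
  · subst hlj
    obtain ⟨e1, e2⟩ := slice_est hj hR h0 h1 h
    rw [par_im]
    have e3 : |sv σ l * (δ ^ 2 * (2 * (z k).re * (z k).im - 2 * s.re * s.im))| ≤
        δ * mar k l R (reV z) (z k).im := by
      rw [abs_mul, abs_sv, one_mul, abs_mul, abs_of_nonneg (sq_nonneg δ), sq, mul_assoc]
      refine mul_le_mul_of_nonneg_left ?_ h0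
      have e4 := abs_sub (2 * (z k).re * (z k).im) (2 * s.re * s.im)
      simp only [abs_mul, abs_two] at e4
      have e5 := mul_le_mul e1 e2 (by positivity) hR0
      have e6 := mul_le_mul_of_nonneg_right h1
        (show 0 ≤ 2 * |(z k).re| * |(z k).im| by positivity)
      have e7 := mul_le_mul_of_nonneg_left e4 h0
      simp only [mar, reV] at e5 ⊢
      nlinarith
    have := (abs_le.1 e3).1
    simp only at this ⊢
    linarith
  · simp only [par, update_of_ne hlj, update_of_ne hl]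
    linarith

theorem fill_one (hj : j ≠ k) (hΩ : IsOpen Ω) (hK : IsCompact K) (hne : K.Nonempty) (hKΩ : K ⊆ Ω)
    (hc : IsPreconnected (Ω \ K)) (hR0 : 0 ≤ R) (hR : ∀ x ∈ K, ∀ l, |x l| ≤ R) (h0 : 0 < δ)
    (h1 : δ ≤ 1) {u : (Fin n → ℂ) → ℂ} (hu : DifferentiableOn ℂ u (Dksig (Ω \ K) c k σ)) :
    ∃ v, DifferentiableOn ℂ v (Wd k j R δ Ω c σ) ∧ EqOn v u (Wd k j R δ (Ω \ K) c σ) := by
  have hp := diff_par k j δ
  have hsub : ∀ Ω', Wd k j R δ Ω' c σ ⊆ Dksig Ω' c k σ := fun Ω' =>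
    Wd_zero (j := j) (R := R) (Ω := Ω') ▸ Wd_sub hR0 h0.le
  obtain ⟨v, hv, hvu⟩ := fill_core (A := par k j δ ⁻¹' Dksig Ω c k σ)
    (T := {p | reV (par k j δ p) ∈ K}) (κ := fun z => z k) (a := fun p => u (par k j δ p))
    ((isOpen_Dksig hΩ c k σ).preimage hp.continuous)
    (hK.isClosed.preimage (continuous_reV.comp hp.continuous)) (by fun_prop)
    (hu.comp hp.differentiableOn fun p h => ⟨⟨h.1.1, h.2⟩, h.1.2⟩) (W := Wd k j R δ Ω c σ)
    (fun z _ => ⟨R + (hgt k j R (reV z) (z k).im + 1) / δ, by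
      filter_upwards [(cont_hgt k j R).continuousAt.eventually (gt_mem_nhds (lt_add_one _))]
        with w hw s hs
      obtain ⟨e1, e2⟩ := slice_est hj hR h0.le h1 hs
      refine (norm_le_abs_re_add_abs_im s).trans (add_le_add e1 ?_)
      rw [le_div_iff₀ h0]
      linarith⟩)
    (fun z hz s hs => slice_mem hj hR0 hR hKΩ h0.le h1 hz hs)
    (fun z hz => by rw [mem_preimage, par_self]; exact hsub _ hz)
  refine ⟨v, hv, fun z hz => sub_eq_zero.1 ?_⟩
  have hm : Wd k j R δ (Ω \ K) c σ ⊆ Wd k j R δ Ω c σ := fun z hz => ⟨hz.1.1, hz.2⟩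
  obtain ⟨p, hp1, hp2⟩ := hK.exists_isMaxOn hne (f := fun x => x j + δ ^ 2 * x k ^ 2)
    (by fun_prop)
  obtain ⟨η, hη, hb⟩ := Metric.isOpen_iff.1 hΩ p (hKΩ hp1)
  let x₀ := update p j (p j + η / 2)
  let z₀ := lif k j R δ σ (x₀, update (sv σ * (c + 1)) k 0)
  let q : (Fin n → ℂ) → ℝ := fun z => (z j).re + δ ^ 2 * ((z k).re ^ 2 - (z k).im ^ 2)
  have hq : p j + δ ^ 2 * p k ^ 2 < q z₀ := by
    simp [q, z₀, lif, x₀, hj.symm, hη]
  have hz₀ : z₀ ∈ Wd k j R δ (Ω \ K) c σ := by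
    refine lif_mem.2 ⟨⟨hb ?_, fun h => ?_⟩, fun l hl => ?_⟩
    · rw [mem_ball, dist_pi_lt_iff hη]
      intro l
      by_cases hl : l = j
      · subst hl
        simp [x₀, abs_of_pos hη, hη]
      · simp [x₀, hl, hη]
    · have := hp2 h
      simp [x₀, hj.symm] at this
      linarith
    · simp only [update_of_ne hl, Pi.mul_apply, Pi.add_apply, Pi.one_apply]
      rw [← mul_assoc, sv_sq]
      linarith
  have hO := isOpen_Wd (k := k) (j := j) (R := R) (δ := δ) (c := c) (σ := σ)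
    (hΩ.sdiff hK.isClosed)
  refine ident hO (preconn_Wd hc) ((hv.mono hm).sub (hu.mono (hsub _))) hz₀ ?_ z hz
  have hqc : Continuous q := by fun_prop
  filter_upwards [hO.mem_nhds hz₀, hqc.continuousAt.eventually (lt_mem_nhds hq)] with w hw hw'
  have := hvu w (hm hw) fun s hs => by
    have e := hp2 hs
    simp only [mem_ofPred_eq, reV, par_k hj, par_re, q] at e hw'
    nlinarith [mul_nonneg (sq_nonneg δ) (sq_nonneg s.im)]
  simp only [par_self] at this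
  simp [this]

theorem fill (hn : 1 < n) (hΩ : IsOpen Ω) (hK : IsCompact K) (hKΩ : K ⊆ Ω)
    (hc : IsPreconnected (Ω \ K)) {u : (Fin n → ℂ) → ℂ}
    (hu : DifferentiableOn ℂ u (Dksig (Ω \ K) c k σ)) :
    ∃ v, DifferentiableOn ℂ v (Dksig Ω c k σ) ∧ EqOn v u (Dksig (Ω \ K) c k σ) := by
  rcases K.eq_empty_or_nonempty with rfl | hne
  · exact ⟨u, by simpa using hu, fun _ _ => rfl⟩
  have : Nontrivial (Fin n) := Fin.nontrivial_iff_two_le.2 hn
  obtain ⟨j, hj⟩ := exists_ne k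
  obtain ⟨R, hR0, hR'⟩ := hK.isBounded.exists_pos_norm_le
  have hR : ∀ x ∈ K, ∀ l, |x l| ≤ R := fun x hx l => (norm_le_pi_norm x l).trans (hR' x hx)
  have hpc := preconn_fill (by omega) hΩ hK hKΩ hc
  choose! v hv hvu using fun (δ : ℝ) (h : δ ∈ Ioc (0 : ℝ) 1) =>
    fill_one hj hΩ hK hne hKΩ hc hR0.le hR h.1 h.2 hu
  have hne' : (Ω \ K).Nonempty := by
    by_contra h
    rw [not_nonempty_iff_eq_empty, sdiff_eq_empty] at h
    have hcl : IsClopen K := ⟨hK.isClosed, (h.antisymm hKΩ) ▸ hΩ⟩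
    exact noncompact_univ _ (hcl.eq_univ hne ▸ hK)
  have hcons : ∀ δ ∈ Ioc (0 : ℝ) 1, ∀ δ' ∈ Ioc (0 : ℝ) 1, δ ≤ δ' →
      ∀ z ∈ Wd k j R δ' Ω c σ, v δ z = v δ' z := fun δ hδ δ' hδ' h z hz => by
    obtain ⟨x, hx⟩ := hne'
    have hz₀ : lif k j R δ' σ (x, sv σ * (c + 1)) ∈ Wd k j R δ' (Ω \ K) c σ :=
      lif_mem.2 ⟨hx, fun l _ => by
        simp only [Pi.mul_apply, Pi.add_apply, Pi.one_apply]
        rw [← mul_assoc, sv_sq]
        linarith⟩
    refine sub_eq_zero.1 (ident (isOpen_Wd hΩ) (preconn_Wd hpc)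
      (((hv δ hδ).mono (Wd_sub hR0.le h)).sub (hv δ' hδ')) ⟨hz₀.1.1, hz₀.2⟩ ?_ z hz)
    filter_upwards [(isOpen_Wd (hΩ.sdiff hK.isClosed)).mem_nhds hz₀] with w hw
    simp [hvu δ hδ (Wd_sub hR0.le h hw), hvu δ' hδ' hw]
  have hex : ∀ z ∈ Dksig Ω c k σ, ∃ δ ∈ Ioc (0 : ℝ) 1, z ∈ Wd k j R δ Ω c σ := fun z hz => by
    have e : ∀ᶠ δ : ℝ in 𝓝 0, ∀ l, l ≠ k →
        c l + δ * mar k j R (reV z) (z k).im < sv σ l * (z l).im := by
      refine eventually_all.2 fun l => ?_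
      by_cases hl : l = k
      · simp [hl]
      · have e1 : ContinuousAt (fun δ : ℝ => c l + δ * mar k j R (reV z) (z k).im) 0 := by
          fun_prop
        filter_upwards [e1.eventually (gt_mem_nhds (by simpa [sv] using hz.2 l hl))] with δ h _
        exact h
    obtain ⟨δ, h1, h2⟩ := ((e.filter_mono nhdsWithin_le_nhds).and
      (Ioc_mem_nhdsGT (one_pos (α := ℝ)))).exists
    exact ⟨δ, h2, hz.1, h1⟩
  choose! d hd hdW using hex
  refine ⟨fun z => v (d z) z, fun z hz => ?_, fun z hz => ?_⟩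
  · have hO := (isOpen_Wd hΩ).mem_nhds (hdW z hz)
    refine ((hv _ (hd z hz)).differentiableAt hO).differentiableWithinAt.congr_of_eventuallyEq
      ?_ rfl
    filter_upwards [self_mem_nhdsWithin, mem_nhdsWithin_of_mem_nhds hO] with w hw hw'
    rcases le_total (d w) (d z) with h | h
    · exact hcons _ (hd w hw) _ (hd z hz) h w hw'
    · exact (hcons _ (hd z hz) _ (hd w hw) h w (hdW w hw)).symm
  · have hz' : z ∈ Dksig Ω c k σ := ⟨hz.1.1, hz.2⟩
    exact hvu _ (hd z hz') ⟨hz.1, (hdW z hz').2⟩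

end Pool.Agent.Lib.MP_b71113_an
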