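import Pool.Agent.Lib.MP_b71113_an.FH.Fill1
import Pool.Agent.Lib.MP_b71113_an.Lower

/-! A Euclidean gap of width `2 |c|` gives a separating entire function. -/

namespace Pool.Agent.Lib.MP_b71113_an

open Set Filter Topology MeasureTheory Complex Function Metric

variable {n : ℕ}

/-- the Gauss kernel -/
noncomputable def gs (N : ℝ) (z : Fin n → ℂ) (t : Fin n → ℝ) : ℂ :=
  exp (-N * ∑ j, (z j - t j) ^ 2)

theorem gs_eq (N : ℝ) (z : Fin n → ℂ) : gs N z = fun t : Fin n → ℝ =>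
    exp (-N * ∑ j, (t j : ℂ) ^ 2 + ∑ j, 2 * N * z j * t j) * exp (-N * ∑ j, z j ^ 2) := by
  funext t
  rw [gs, ← exp_add]
  simp only [Finset.mul_sum, ← Finset.sum_add_distrib]
  congr 1
  exact Finset.sum_congr rfl fun j _ => by ring

theorem gs_int {N : ℝ} (hN : 0 < N) (z : Fin n → ℂ) : Integrable (gs N z) := by
  rw [gs_eq]
  exact (GaussianFourier.integrable_cexp_neg_mul_sum_add (by simpa using hN) _).mul_const _

theorem gs_val {N : ℝ} (hN : 0 < N) (z : Fin n → ℂ) :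
    ∫ t, gs N z t = ((Real.pi / N : ℝ) : ℂ) ^ (n / 2 : ℂ) := by
  have h : (N : ℂ) ≠ 0 := ofReal_ne_zero.2 hN.ne'
  rw [gs_eq, integral_mul_const,
    GaussianFourier.integral_cexp_neg_mul_sum_add (by simpa using hN), mul_assoc, ← exp_add]
  have e : (∑ j, (2 * N * z j) ^ 2) / (4 * N) + -N * ∑ j, z j ^ 2 = 0 := by
    simp only [mul_pow, ← Finset.mul_sum]
    field_simp
    ring
  rw [e]
  simp

theorem gs_norm (N : ℝ) (z : Fin n → ℂ) (t : Fin n → ℝ) : ‖gs N z t‖ =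
    Real.exp (-N * (∑ j, ((z j).re - t j) ^ 2 - ∑ j, (z j).im ^ 2)) := by
  rw [gs, norm_exp, ← ofReal_neg, re_ofReal_mul, re_sum, ← Finset.sum_sub_distrib]
  simp [sq]

theorem gs_tail {N ρ s : ℝ} (hN : 1 ≤ N) {z : Fin n → ℂ} (hz : ∑ j, (z j).im ^ 2 ≤ s)
    {b : (Fin n → ℝ) → ℝ} (hb : ∀ t, |b t| ≤ 1)
    (h : ∀ t, b t ≠ 0 → ρ ≤ ∑ j, ((z j).re - t j) ^ 2) : ‖∫ t, b t * gs N z t‖ ≤
      Real.exp (-(ρ - s) * N) * (Real.exp ρ * ∫ t : Fin n → ℝ, ‖gs 1 0 t‖) := by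
  rw [← integral_sub_right_eq_self (fun t : Fin n → ℝ => ‖gs 1 0 t‖) (reV z), ← mul_assoc,
    ← integral_const_mul]
  have hi : Integrable fun t : Fin n → ℝ => ‖gs 1 0 (t - reV z)‖ :=
    (gs_int one_pos 0).norm.comp_sub_right (reV z)
  refine norm_integral_le_of_norm_le (hi.const_mul _) (Eventually.of_forall fun t => ?_)
  by_cases ht : b t = 0
  · simp only [ht, ofReal_zero, zero_mul, norm_zero]
    positivity
  rw [norm_mul, norm_real]
  refine (mul_le_of_le_one_left (norm_nonneg _) (hb t)).trans ?_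
  have e : ∑ j, (((0 : Fin n → ℂ) j).re - (t - reV z) j) ^ 2 = ∑ j, ((z j).re - t j) ^ 2 := by
    simp [reV]
  rw [gs_norm, gs_norm, e, ← Real.exp_add, ← Real.exp_add, Real.exp_le_exp]
  simp only [Pi.zero_apply, zero_im, ne_eq, OfNat.ofNat_ne_zero, not_false_eq_true, zero_pow,
    Finset.sum_const_zero]
  nlinarith [mul_le_mul_of_nonneg_left (h t ht) (sub_nonneg.2 hN),
    mul_le_mul_of_nonneg_left hz (zero_le_one.trans hN)]

theorem gap_P {K Ω : Set (Fin n → ℝ)} (hK : IsCompact K) (hΩ : IsOpen Ω) {c : Fin n → ℝ}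
    (h : ∀ k ∈ K, ∀ x : Fin n → ℝ, √(∑ j, (x j - k j) ^ 2) ≤ 2 * √(∑ j, c j ^ 2) → x ∈ Ω) :
    ∃ (P : (Fin n → ℂ) → ℂ) (K₀ : Set (Fin n → ℝ)), Differentiable ℂ P ∧ IsCompact K₀ ∧ K₀ ⊆ Ω ∧
      (∀ w ∈ tube K c, ‖P w‖ ≤ 1 / 10) ∧ ∀ w ∈ tube (Ω \ K₀) c, ‖P w - 1‖ ≤ 1 / 10 := by
  rcases K.eq_empty_or_nonempty with rfl | hne
  · exact ⟨fun _ => 1, ∅, by fun_prop, isCompact_empty, empty_subset _, fun w hw => hw.1.elim,
      fun w _ => by simp⟩
  let e : (Fin n → ℝ) ≃ₜ EuclideanSpace ℝ (Fin n) := (PiLp.homeomorph 2 _).symm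
  have he : ∀ x y, dist (e x) (e y) = √(∑ j, (x j - y j) ^ 2) := fun x y => by
    simp only [EuclideanSpace.dist_eq, Real.dist_eq, sq_abs]
    rfl
  have hK' := hK.image e.continuous
  let D : (Fin n → ℝ) → ℝ := fun x => infDist (e x) (e '' K)
  have hD : Continuous D := (continuous_infDist_pt _).comp e.continuous
  have hex : ∀ x, ∃ k ∈ K, D x = dist (e x) (e k) := fun x => by
    obtain ⟨_, ⟨k, hk, rfl⟩, h2⟩ := hK'.exists_infDist_eq_dist (hne.image e) (e x)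
    exact ⟨k, hk, h2⟩
  have hcp : ∀ R, IsCompact {x | D x ≤ R} := fun R => by
    refine (e.isCompact_preimage.2 (hK'.cthickening (r := R))).of_isClosed_subset
      (isClosed_le hD continuous_const) fun x hx => ?_
    obtain ⟨k, hk, h2⟩ := hex x
    exact mem_cthickening_of_dist_le _ _ _ _ (mem_image_of_mem e hk) (h2 ▸ hx)
  set s := ∑ j, c j ^ 2 with hs
  have hs0 : 0 ≤ s := by positivity
  obtain ⟨a', h1, h2⟩ := ((hcp (2 * √s + 1)).diff hΩ).exists_forall_le' hD.continuousOn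
    (a := 2 * √s) fun x hx => by
      obtain ⟨k, hk, h2⟩ := hex x
      exact not_le.1 fun h3 => hx.2 (h k hk x (by rwa [← he, ← h2]))
  obtain ⟨η, hη, hη1, hη2⟩ : ∃ η > 0, 2 * √s + 3 * η < a' ∧ 3 * η ≤ 1 :=
    ⟨min ((a' - 2 * √s) / 4) (1 / 3), lt_min (by linarith) (by norm_num),
      by linarith [min_le_left ((a' - 2 * √s) / 4) (1 / 3)],
      by linarith [min_le_right ((a' - 2 * √s) / 4) (1 / 3)]⟩
  let a : (Fin n → ℝ) → ℝ := fun t => max 0 (min 1 ((√s + 2 * η - D t) / η))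
  have ha : Continuous a := by fun_prop
  have ha0 : ∀ t, 0 ≤ a t := fun t => le_max_left _ _
  have ha1 : ∀ t, a t ≤ 1 := fun t => max_le zero_le_one (min_le_left _ _)
  have ha2 : ∀ t, a t ≠ 0 → D t ≤ √s + 2 * η := fun t ht => not_lt.1 fun h3 => ht
    (max_eq_left (min_le_of_right_le (div_nonpos_of_nonpos_of_nonneg (by linarith) hη.le)))
  have ha3 : ∀ t, 1 - a t ≠ 0 → √s + η ≤ D t := fun t ht => not_lt.1 fun h3 => ht (by
    simp only [a]
    rw [min_eq_left ((one_le_div hη).2 (by linarith)), max_eq_right zero_le_one, sub_self])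
  have hρ : 0 < (√s + η) ^ 2 - s := by nlinarith [Real.sq_sqrt hs0, Real.sqrt_nonneg s]
  have hlim := (tendsto_rpow_mul_exp_neg_mul_atTop_nhds_zero (n / 2) _ hρ).mul_const
    ((Real.pi ^ (n / 2 : ℝ))⁻¹ * (Real.exp ((√s + η) ^ 2) * ∫ t : Fin n → ℝ, ‖gs 1 0 t‖))
  rw [zero_mul] at hlim
  obtain ⟨N, hN, hN1⟩ := ((hlim.eventually (gt_mem_nhds (show (0 : ℝ) < 1 / 10 by norm_num))).and
    (eventually_ge_atTop 1)).exists
  have hN0 : 0 < N := one_pos.trans_le hN1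
  set A : ℂ := ((Real.pi / N : ℝ) : ℂ) ^ (n / 2 : ℂ) with hA
  have hAn : ‖A‖ = Real.pi ^ (n / 2 : ℝ) / N ^ (n / 2 : ℝ) := by
    rw [hA, norm_cpow_eq_rpow_re_of_pos (by positivity), ← Real.div_rpow Real.pi_pos.le hN0.le]
    simp
  have hA0 : A ≠ 0 := norm_pos_iff.1 (by rw [hAn]; positivity)
  have key : ∀ (z : Fin n → ℂ) (b : (Fin n → ℝ) → ℝ), (∀ j, |(z j).im| ≤ c j) → (∀ t, |b t| ≤ 1) →
      (∀ t, b t ≠ 0 → √s + η ≤ dist (e (reV z)) (e t)) →
      ‖A⁻¹ * ∫ t, b t * gs N z t‖ ≤ 1 / 10 := fun z b hz hb h3 => by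
    have := gs_tail hN1 (z := z) (s := s) (ρ := (√s + η) ^ 2)
      (Finset.sum_le_sum fun j _ => sq_le_sq' (abs_le.1 (hz j)).1 (abs_le.1 (hz j)).2) hb
      fun t ht => (Real.le_sqrt (by positivity) (by positivity)).1 (he _ _ ▸ h3 t ht)
    rw [norm_mul, norm_inv, hAn, inv_div]
    refine (mul_le_mul_of_nonneg_left this (by positivity)).trans (le_of_eq_of_le ?_ hN.le)
    ring
  refine ⟨fun z => 1 - A⁻¹ * ∫ t, a t * gs N z t, {x | D x ≤ 2 * √s + 3 * η}, ?_, hcp _,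
    fun x hx => ?_, fun w hw => ?_, fun w hw => ?_⟩
  · refine (Differentiable.const_mul ?_ _).const_sub _
    refine differentiableOn_univ.1 (diffOn_integral isOpen_univ (hcp (√s + 2 * η)) ?_
      (fun t => ?_) fun w t ht => ?_)
    · unfold gs
      fun_prop
    · unfold gs
      fun_prop
    · rw [not_not.1 fun h3 => ht (ha2 t h3), ofReal_zero, zero_mul]
  · by_contra hn
    have h3 : D x ≤ _ := hx
    linarith [h2 x ⟨show D x ≤ _ by linarith, hn⟩]
  · have := key w (fun t => 1 - a t) hw.2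
      (fun t => abs_le.2 ⟨by linarith [ha1 t], by linarith [ha0 t]⟩) fun t ht =>
        (ha3 t ht).trans (dist_comm (e t) _ ▸ infDist_le_dist_of_mem (mem_image_of_mem e hw.1))
    simp only [ofReal_sub, ofReal_one, sub_mul, one_mul] at this
    have hi : Integrable fun t => a t * gs N w t := (gs_int hN0 w).bdd_mul (c := 1)
      (continuous_ofReal.comp ha).aestronglyMeasurable (Eventually.of_forall fun t => by
        simpa [abs_of_nonneg (ha0 t)] using ha1 t)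
    rwa [integral_sub (gs_int hN0 w) hi, gs_val hN0, mul_sub, inv_mul_cancel₀ hA0] at this
  · rw [sub_sub_cancel_left, norm_neg]
    refine key w a hw.2 (fun t => by simpa [abs_of_nonneg (ha0 t)] using ha1 t) fun t ht => ?_
    have h3 : D (reV w) ≤ D t + dist (e (reV w)) (e t) := infDist_le_infDist_add_dist
    linarith [ha2 t ht, show _ < D (reV w) from not_le.1 hw.1.2]

end Pool.Agent.Lib.MP_b71113_an
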