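import Pool.Agent.Lib.MP_b71113_an.FH.Dir

/-! A function that is a sum of functionals carried by `K + i [0, 1] y` vanishes off `K`. -/

namespace Pool.Agent.Lib.MP_b71113_an

open Set Filter Topology MeasureTheory Complex Metric
open scoped Real

variable {n : ℕ}

theorem abs_dot_le (u v : Fin n → ℝ) : |∑ j, u j * v j| ≤ n * ‖u‖ * ‖v‖ := by
  refine (Finset.abs_sum_le_sum_abs _ _).trans ((Finset.sum_le_card_nsmul _ _ (‖u‖ * ‖v‖)
    fun j _ => ?_).trans_eq (by simp [mul_assoc]))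
  rw [abs_mul]
  exact mul_le_mul (norm_le_pi_norm u j) (norm_le_pi_norm v j) (abs_nonneg _) (norm_nonneg _)

theorem norm_wave_le {x₀ x y a b : Fin n → ℝ} {r : ℝ} (hx : ‖x - x₀‖ ≤ r) :
    ‖(wave x₀ (pt a b)).1 (pt x y)‖ ≤ Real.exp (n * r * ‖b‖ - ∑ j, y j * a j) := by
  have h1 := (abs_le.1 (abs_dot_le (x - x₀) b)).1
  have h2 : n * ‖x - x₀‖ * ‖b‖ ≤ n * r * ‖b‖ := by gcongr
  simp only [wave, norm_exp, Real.exp_le_exp, I_mul_re, im_sum, mul_im, sub_re, sub_im, pt_re,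
    pt_im, ofReal_re, ofReal_im, sub_zero, Finset.sum_add_distrib]
  simp only [Pi.sub_apply] at h1
  linarith

theorem wave_diff {S : Type} [TopologicalSpace S] [CompactSpace S] (Λ : C(S, ℂ) →L[ℂ] ℂ)
    {Z : S → Fin n → ℂ} (hZ : Continuous Z) (x₀ : Fin n → ℝ) (ξ v : Fin n → ℂ) :
    Differentiable ℂ fun t : ℂ => app Λ fun p => (wave x₀ (ξ + t • v)).1 (Z p) :=
  differentiableOn_univ.1 (app_diff Λ isOpen_univ
    (u := fun t p => cexp (I * ∑ j, (Z p j - x₀ j) * (ξ j + t * v j)))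
    (Continuous.continuousOn (by unfold Function.uncurry; fun_prop))
    fun p => Differentiable.differentiableOn (by fun_prop))

theorem inner_zero {K : Set (Fin n → ℝ)} (hK : IsCompact K) {c : Fin n → ℝ} (hc : ∀ j, 0 ≤ c j)
    (ν : (Fin n → ℤˣ) → Ent n →ₗ[ℂ] ℂ)
    (hν : ∀ σ y, (∀ j, c j < sv σ j * y j) → ∃ C, ∀ (φ : Ent n) B, 0 ≤ B →
      (∀ x ∈ K, ∀ t ∈ Icc (0 : ℝ) 1, ‖φ.1 (pt x (t • y))‖ ≤ B) → ‖ν σ φ‖ ≤ C * B)
    {m : (Fin n → ℝ) → ℂ} (hm : Continuous m) (hmc : HasCompactSupport m)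
    (h : ∀ φ : Ent n, ∫ x, m x * φ.1 (ofR x) = ∑ σ, sgn σ * ν σ φ) {x₀ : Fin n → ℝ}
    (hx₀ : x₀ ∉ K) : m x₀ = 0 := by
  have := isCompact_iff_compactSpace.1 hK
  obtain ⟨r, hr0, hr⟩ := (hK.union hmc.isCompact).isBounded.subset_closedBall_lt 0 x₀
  have hKr {x} (hx : x ∈ K) : ‖x - x₀‖ ≤ r := mem_closedBall_iff_norm.1 (hr (Or.inl hx))
  have hs1 (σ : Fin n → ℤˣ) : ‖sgn σ‖ = 1 := by
    unfold sgn
    rcases Int.units_eq_one_or (∏ j, σ j) with h | h <;> simp [h]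
  have hy (σ : Fin n → ℤˣ) (j) : c j < sv σ j * (sv σ j * (c j + 1)) := by
    rw [← mul_assoc, sv_sq]; linarith
  have hn (a b : Fin n → ℝ) : ‖a‖ ≤ ‖pt a b‖ ∧ ‖b‖ ≤ ‖pt a b‖ := by
    constructor <;> refine (pi_norm_le_iff_of_nonneg (norm_nonneg _)).2 fun j =>
      le_trans ?_ (norm_le_pi_norm _ j)
    · simpa using abs_re_le_norm (pt a b j)
    · simpa using abs_im_le_norm (pt a b j)
  have off (δ : ℝ) (hδ : 0 < δ) (σ : Fin n → ℤˣ) (j : Fin n) : ∃ C, 0 ≤ C ∧ ∀ a b : Fin n → ℝ,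
      δ * ‖a‖ ≤ sv σ j * a j → ‖ν σ (wave x₀ (pt a b))‖ ≤ C * Real.exp (n * r * ‖b‖) := by
    set y₀ : Fin n → ℝ := fun j => sv σ j * (c j + 1)
    obtain ⟨C, hC⟩ := hν σ (y₀ + Pi.single j (n * ‖y₀‖ / δ * sv σ j)) fun i => by
      refine (hy σ i).trans_le ?_
      rw [Pi.add_apply, mul_add (sv σ i) (y₀ i)]
      refine le_add_of_nonneg_right ?_
      rcases eq_or_ne i j with rfl | hij
      · rw [Pi.single_eq_same, mul_left_comm, sv_sq]; positivity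
      · rw [Pi.single_eq_of_ne hij, mul_zero]
    refine ⟨|C|, abs_nonneg _, fun a b hab => (hC _ _ (Real.exp_pos _).le fun x hx t ht =>
      (norm_wave_le (hKr hx)).trans (Real.exp_le_exp.2 (sub_le_self _ ?_))).trans
      (mul_le_mul_of_nonneg_right (le_abs_self C) (Real.exp_pos _).le)⟩
    simp only [Pi.smul_apply, smul_eq_mul, mul_assoc t, ← Finset.mul_sum, Pi.add_apply, add_mul,
      Finset.sum_add_distrib]
    refine mul_nonneg ht.1 ?_
    simp only [Pi.single_apply, ite_mul, zero_mul, Finset.sum_ite_eq', Finset.mem_univ, if_true]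
    have h1 := (abs_le.1 (abs_dot_le y₀ a)).1
    have h2 := mul_le_mul_of_nonneg_left hab (show 0 ≤ n * ‖y₀‖ / δ by positivity)
    rw [← mul_assoc, div_mul_cancel₀ _ hδ.ne'] at h2
    linarith
  have hw (σ : Fin n → ℤˣ) (ε : ℝ) (hε : 0 < ε) :
      ∃ C, ∀ a, ‖ν σ (wave x₀ (ofR a))‖ ≤ C * Real.exp (ε * ‖a‖) := by
    obtain ⟨C₀, h₀⟩ := hν σ _ (hy σ)
    set y₀ : Fin n → ℝ := fun j => sv σ j * (c j + 1)
    refine walls (B := fun ξ => ν σ (wave x₀ ξ)) (fun ξ v => ?_) (C₀ := n * r + n * ‖y₀‖)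
      (A₀ := C₀) (ρ := n * r) (by positivity) (by positivity) (fun ξ => ?_) (fun δ hδ => ?_) hε
    · obtain ⟨Λ, hΛ⟩ := exists_rep (ν σ) h₀
      have hp : Continuous fun p : K × Icc (0 : ℝ) 1 => pt p.1.1 (p.2.1 • y₀) :=
        continuous_pt.comp (f := fun p : K × Icc (0 : ℝ) 1 => (p.1.1, p.2.1 • y₀)) (by fun_prop)
      simp only [hΛ]
      exact wave_diff Λ hp x₀ ξ v
    · rw [← pt_reV ξ]
      refine h₀ _ _ (Real.exp_pos _).le fun x hx t ht =>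
        (norm_wave_le (hKr hx)).trans (Real.exp_le_exp.2 ?_)
      have h1 := (abs_le.1 (abs_dot_le (t • y₀) (reV ξ))).1
      have h2 : ‖t • y₀‖ ≤ ‖y₀‖ := by
        rw [norm_smul, Real.norm_of_nonneg ht.1]
        exact mul_le_of_le_one_left (norm_nonneg _) ht.2
      obtain ⟨h3, h4⟩ := hn (reV ξ) fun j => (ξ j).im
      have h5 : n * ‖t • y₀‖ * ‖reV ξ‖ ≤ n * ‖y₀‖ * ‖pt (reV ξ) fun j => (ξ j).im‖ := by gcongr
      have h6 := mul_le_mul_of_nonneg_left h4 (show 0 ≤ n * r by positivity)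
      linarith
    choose C hC0 hC using off δ hδ
    have good (τ : Fin n → ℤˣ) (a b : Fin n → ℝ) (ha : ∀ j, δ * ‖a‖ ≤ |a j|) (j : Fin n)
        (hj : 0 ≤ sv τ j * a j) :
        ‖ν τ (wave x₀ (pt a b))‖ ≤ (∑ j, C τ j) * Real.exp (n * r * ‖b‖) :=
      (hC τ j a b (by rw [← abs_of_nonneg hj, abs_mul, abs_sv, one_mul]; exact ha j)).trans
        (mul_le_mul_of_nonneg_right (Finset.single_le_sum (fun i _ => hC0 τ i)
          (Finset.mem_univ j)) (Real.exp_pos _).le)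
    have hS (τ) : 0 ≤ ∑ j, C τ j := Finset.sum_nonneg fun j _ => hC0 τ j
    have hI : 0 ≤ ∫ x, ‖m x‖ := by positivity
    refine ⟨(∫ x, ‖m x‖) + ∑ τ, ∑ j, C τ j, fun a b ha => ?_⟩
    by_cases hj : ∃ j, 0 ≤ sv σ j * a j
    · obtain ⟨j, hj⟩ := hj
      refine (good σ a b ha j hj).trans (mul_le_mul_of_nonneg_right (le_add_of_nonneg_of_le hI
        (Finset.single_le_sum (fun τ _ => hS τ) (Finset.mem_univ σ))) (Real.exp_pos _).le)
    have h1 := h (wave x₀ (pt a b))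
    rw [← Finset.add_sum_erase _ _ (Finset.mem_univ σ), ← sub_eq_iff_eq_add] at h1
    rw [← one_mul ‖_‖, ← hs1 σ, ← norm_mul, ← h1, add_mul, Finset.sum_mul, ← integral_mul_const]
    refine (norm_sub_le _ _).trans (add_le_add (norm_integral_le_of_norm_le
      ((hm.integrable_of_hasCompactSupport hmc).norm.mul_const _) (.of_forall fun x => ?_))
      ((norm_sum_le_of_le _ fun τ hτ => ?_).trans (Finset.sum_le_sum_of_subset_of_nonneg
        (Finset.erase_subset _ _) fun τ _ _ => mul_nonneg (hS τ) (Real.exp_pos _).le)))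
    · by_cases hx : x ∈ tsupport m
      · rw [norm_mul, ← pt_zero]
        exact mul_le_mul_of_nonneg_left ((norm_wave_le (mem_closedBall_iff_norm.1
          (hr (Or.inr hx)))).trans_eq (by simp)) (norm_nonneg _)
      · simp [image_eq_zero_of_notMem_tsupport hx]
    · obtain ⟨j, hj'⟩ := Function.ne_iff.1 (Finset.ne_of_mem_erase hτ)
      rw [norm_mul, hs1, one_mul]
      refine good τ a b ha j ?_
      have h2 := not_le.1 fun h => hj ⟨j, h⟩
      rw [show sv τ j = -sv σ j by simp [sv, Int.units_ne_iff_eq_neg.1 hj']]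
      linarith
  have hg (σ : Fin n → ℤˣ) :
      ∃ C c : ℝ, 0 < c ∧ ∀ M : ℝ, 1 ≤ M → ‖ν σ (gau x₀ M)‖ ≤ C * Real.exp (-c * M) := by
    obtain ⟨C₀, h₀⟩ := hν σ _ (hy σ)
    rcases K.eq_empty_or_nonempty with rfl | ⟨x, hx⟩
    · exact ⟨0, 1, one_pos, fun M _ => by simpa using h₀ (gau x₀ M) 0 le_rfl (by simp)⟩
    set y₀ : Fin n → ℝ := fun j => sv σ j * (c j + 1) with hy₀
    obtain ⟨j, -⟩ := Function.ne_iff.1 fun h : x = x₀ => hx₀ (h ▸ hx)
    have h1 : 0 < ∑ j, y₀ j ^ 2 := Finset.sum_pos (fun j _ => by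
      rw [hy₀, mul_pow, sq, sv_sq, one_mul]; exact pow_pos (by linarith [hc j]) 2)
      ⟨j, Finset.mem_univ j⟩
    have h2 := Real.sqrt_pos.2 h1
    refine dir_small hK hx₀ (ν σ) (e := (√(∑ j, y₀ j ^ 2))⁻¹ • y₀) ?_ h2.le (C₀ := C₀) ?_ (hw σ)
    · simp only [Pi.smul_apply, smul_eq_mul, mul_pow, ← Finset.mul_sum, inv_pow,
        Real.sq_sqrt h1.le]
      exact inv_mul_cancel₀ h1.ne'
    · rwa [smul_inv_smul₀ h2.ne']
  choose C γ hγ hC using hg
  obtain ⟨σ₀, hσ₀⟩ := Finite.exists_min γ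
  have hp (x : Fin n → ℝ) (hx : x ≠ x₀) : 0 < ∑ j, (x j - x₀ j) ^ 2 :=
    (pow_pos (norm_pos_iff.2 (sub_ne_zero.2 hx)) 2).trans_le (norm_sq_le_sum (x - x₀))
  refine zero_of_peak (isCompact_closedBall x₀ r)
    (mem_interior_iff_mem_nhds.2 (closedBall_mem_nhds x₀ hr0))
    (p := fun x => Real.exp (-∑ j, (x j - x₀ j) ^ 2)) (by fun_prop)
    (fun x _ => (Real.exp_pos _).le) (by simp)
    (fun x _ hx => Real.exp_lt_one_iff.2 (neg_neg_of_pos (hp x hx))) hm.continuousOn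
    (C := ∑ σ, (|C σ| + ‖ν σ (gau x₀ 0)‖)) (Real.exp_pos (-γ σ₀)).le
    (Real.exp_lt_one_iff.2 (neg_neg_of_pos (hγ σ₀))) fun k => ?_
  rw [setIntegral_eq_integral_of_forall_compl_eq_zero fun x hx => by
    rw [image_eq_zero_of_notMem_tsupport fun h => hx (hr (Or.inr h)), smul_zero],
    show ∫ x, Real.exp (-∑ j, (x j - x₀ j) ^ 2) ^ k • m x = _ from
      (integral_congr_ae (.of_forall fun x => ?_)).trans (h (gau x₀ k)), Finset.sum_mul]
  · refine norm_sum_le_of_le _ fun σ _ => ?_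
    rw [norm_mul, hs1, one_mul, ← Real.exp_nat_mul]
    rcases k.eq_zero_or_pos with rfl | hk
    · simp
    refine (hC σ k (Nat.one_le_cast.2 hk)).trans (mul_le_mul
      (le_add_of_le_of_nonneg (le_abs_self _) (norm_nonneg _)) (Real.exp_le_exp.2 ?_)
      (Real.exp_pos _).le (by positivity))
    nlinarith [hσ₀ σ, k.cast_nonneg (α := ℝ)]
  · simp only [gau, ofR, ← Real.exp_nat_mul, real_smul]
    push_cast
    ring_nf

end Pool.Agent.Lib.MP_b71113_an
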