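import Pool.Agent.Lib.MP_b71113_an.FH.Ent

/-! The Laplace transform on a half line, and a contour estimate. -/

namespace Pool.Agent.Lib.MP_b71113_an

open Set Filter Topology MeasureTheory Complex Metric
open scoped Real

/-- the Laplace transform -/
noncomputable def lap (a : ℝ → ℂ) (s : ℂ) : ℂ := ∫ t in Ioi (0 : ℝ), a t * cexp (I * t * s)

variable {a : ℝ → ℂ} {C ε : ℝ}

theorem lap_bd (hb : ∀ t, 0 ≤ t → ‖a t‖ ≤ C * Real.exp (ε * t)) (s : ℂ) {t : ℝ} (ht : 0 ≤ t) :
    ‖a t * cexp (I * t * s)‖ ≤ C * Real.exp ((ε - s.im) * t) := by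
  rw [norm_mul, norm_exp, sub_mul, sub_eq_add_neg, Real.exp_add, ← mul_assoc,
    show (I * t * s).re = -(s.im * t) by simp; ring]
  exact mul_le_mul_of_nonneg_right (hb t ht) (Real.exp_pos _).le

theorem lap_norm (hb : ∀ t, 0 ≤ t → ‖a t‖ ≤ C * Real.exp (ε * t)) {s : ℂ} (hs : ε < s.im) :
    ‖lap a s‖ ≤ C / (s.im - ε) := by
  have h := sub_neg.2 hs
  refine (norm_integral_le_of_norm_le ((integrableOn_exp_mul_Ioi h 0).const_mul C)
    ((ae_restrict_mem measurableSet_Ioi).mono fun t ht => lap_bd hb s (le_of_lt ht))).trans_eq ?_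
  rw [integral_const_mul, integral_exp_mul_Ioi h, mul_zero, Real.exp_zero, ← neg_sub s.im,
    neg_div_neg_eq, mul_one_div]

theorem lap_diff (ha : Continuous a) (hb : ∀ t, 0 ≤ t → ‖a t‖ ≤ C * Real.exp (ε * t)) :
    DifferentiableOn ℂ (lap a) {s | ε < s.im} := by
  intro s₀ (h₀ : ε < s₀.im)
  have hC : 0 ≤ C := by simpa using (norm_nonneg _).trans (hb 0 le_rfl)
  set η := (s₀.im - ε) / 3 with hη
  have hη0 : 0 < η := by rw [hη]; linarith
  refine (hasDerivAt_integral_of_dominated_loc_of_deriv_le (μ := volume.restrict (Ioi 0))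
    (F := fun s (t : ℝ) => a t * cexp (I * t * s)) (s := ball s₀ η)
    (F' := fun s (t : ℝ) => a t * cexp (I * t * s) * (I * t))
    (bound := fun t => C / η * Real.exp (-η * t)) (ball_mem_nhds s₀ hη0)
    (.of_forall fun s => Continuous.aestronglyMeasurable (by fun_prop))
    (((integrableOn_exp_mul_Ioi (sub_neg.2 h₀) 0).const_mul C).mono'
      (Continuous.aestronglyMeasurable (by fun_prop))
      ((ae_restrict_mem measurableSet_Ioi).mono fun t ht => lap_bd hb s₀ (le_of_lt ht)))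
    (Continuous.aestronglyMeasurable (by fun_prop))
    ((ae_restrict_mem measurableSet_Ioi).mono fun t ht s hs => ?_)
    ((exp_neg_integrableOn_Ioi 0 hη0).const_mul _)
    (.of_forall fun t s _ => ?_)).2.differentiableAt.differentiableWithinAt
  · have ht : 0 < t := ht
    have h1 : |s.im - s₀.im| < η := by
      rw [← sub_im]; exact (abs_im_le_norm _).trans_lt (mem_ball_iff_norm.1 hs)
    have h2 : (ε - s.im) * t ≤ -η * t + -(η * t) := by nlinarith [abs_lt.1 h1]
    have h3 : t ≤ Real.exp (η * t) / η := by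
      rw [le_div_iff₀ hη0]; linarith [Real.add_one_le_exp (η * t)]
    rw [norm_mul, norm_mul I, norm_I, one_mul, norm_real, Real.norm_of_nonneg ht.le]
    calc _ ≤ C * Real.exp (-η * t + -(η * t)) * (Real.exp (η * t) / η) :=
          mul_le_mul ((lap_bd hb s ht.le).trans (by gcongr)) h3 ht.le (by positivity)
      _ = _ := by rw [Real.exp_add, Real.exp_neg (η * t)]; field_simp
  · have := (((hasDerivAt_id s).const_mul (I * t)).cexp).const_mul (a t)
    simpa [mul_assoc] using this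

theorem norm_gauss (M x h : ℝ) : ‖cexp (-M * (x + h * I) ^ 2)‖ =
    Real.exp (M * h ^ 2) * Real.exp (-M * x ^ 2) := by
  rw [norm_exp, ← Real.exp_add]
  congr 1
  simp [pow_two]
  ring

theorem gauss_lap (ha : Continuous a) (hb : ∀ t, 0 ≤ t → ‖a t‖ ≤ C * Real.exp (ε * t))
    {M h : ℝ} (hM : 0 < M) (hh : ε < h) :
    ∫ x : ℝ, cexp (-M * (x + h * I) ^ 2) * lap a (x + h * I) =
      (π / M : ℂ) ^ (1 / 2 : ℂ) * ∫ t in Ioi (0 : ℝ), a t * cexp (-t ^ 2 / (4 * M)) := by
  simp_rw [lap, ← integral_const_mul]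
  rw [integral_integral_swap]
  · refine integral_congr_ae (.of_forall fun t => ?_)
    have h1 := integral_cexp_quadratic (b := -M) (by simpa using hM) (I * (t - 2 * M * h))
      (M * h ^ 2 - t * h)
    have hM' : (M : ℂ) ≠ 0 := ofReal_ne_zero.2 hM.ne'
    rw [neg_neg, show (M * h ^ 2 - t * h : ℂ) - (I * (t - 2 * M * h)) ^ 2 / (4 * -M) =
      -t ^ 2 / (4 * M) by rw [mul_pow, I_sq]; field_simp; ring] at h1
    beta_reduce
    rw [mul_left_comm, ← h1, ← integral_const_mul]
    refine integral_congr_ae (.of_forall fun x => ?_)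
    beta_reduce
    rw [mul_left_comm, ← Complex.exp_add]
    congr 2
    linear_combination (t * h - M * h ^ 2 : ℂ) * I_sq
  · refine (((integrable_exp_neg_mul_sq hM).const_mul (Real.exp (M * h ^ 2))).mul_prod
      ((integrableOn_exp_mul_Ioi (sub_neg.2 hh) 0).const_mul C)).mono'
      (Continuous.aestronglyMeasurable (by unfold Function.uncurry; fun_prop)) ?_
    refine (Measure.ae_prod_iff_ae_ae ?_).2 (.of_forall fun x =>
      (ae_restrict_mem measurableSet_Ioi).mono fun t ht => ?_)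
    · exact measurableSet_le (Continuous.measurable (by unfold Function.uncurry; fun_prop))
        (by fun_prop)
    · have := lap_bd hb (x + h * I) (le_of_lt ht)
      simp only [Function.uncurry_apply_pair]
      rw [norm_mul, norm_gauss]
      simp only [add_im, ofReal_im, mul_im, ofReal_re, I_im, mul_one, I_re, mul_zero, add_zero,
        zero_add] at this
      gcongr

theorem contour {g : ℂ → ℂ} {f₁ f₂ : ℝ → ℂ} {b h A η M : ℝ} (hb : 0 < b) (hh : 0 < h)
    (hM : 1 ≤ M) (hg : DifferentiableOn ℂ g (Icc (-b) b ×ℂ Icc (-h) h))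
    (hgA : ∀ s ∈ Icc (-b) b ×ℂ Icc (-h) h, ‖g s‖ ≤ A) (c₁ : Continuous f₁) (c₂ : Continuous f₂)
    (a₁ : ∀ x, ‖f₁ x‖ ≤ A) (a₂ : ∀ x, ‖f₂ x‖ ≤ A)
    (e₁ : ∀ x ∈ Icc (-b) b, ‖f₁ x - g (x + h * I)‖ ≤ η)
    (e₂ : ∀ x ∈ Icc (-b) b, ‖f₂ x + g (-(x + h * I))‖ ≤ η) :
    ‖(∫ x : ℝ, cexp (-M * (x + h * I) ^ 2) * f₁ x) + ∫ x : ℝ, cexp (-M * (x + h * I) ^ 2) * f₂ x‖
      ≤ Real.exp (M * h ^ 2) * (A * Real.exp (-M * b ^ 2) * (2 * Real.exp (b ^ 2) * √π + 4 * h)
        + 4 * b * η) := by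
  have hM0 : 0 < M := by linarith
  have hA : 0 ≤ A := (norm_nonneg _).trans (a₁ 0)
  set G : ℝ → ℂ := fun x => cexp (-M * (x + h * I) ^ 2) with hG
  set E := Real.exp (M * h ^ 2) with hE
  have hGn (x : ℝ) : ‖G x‖ = E * Real.exp (-M * x ^ 2) := norm_gauss M x h
  have hGc : Continuous G := by fun_prop
  have hi {f : ℝ → ℂ} (c : Continuous f) (a : ∀ x, ‖f x‖ ≤ A) : Integrable fun x => G x * f x :=
    (((integrable_exp_neg_mul_sq hM0).const_mul E).mul_const A).mono'
      (hGc.mul c).aestronglyMeasurable (.of_forall fun x => by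
        rw [norm_mul, hGn]; gcongr; exact a x)
  change ‖(∫ x, G x * f₁ x) + ∫ x, G x * f₂ x‖ ≤ _
  have hF : Integrable fun x => G x * f₁ x + G x * f₂ x := (hi c₁ a₁).add (hi c₂ a₂)
  rw [← integral_add (hi c₁ a₁) (hi c₂ a₂), ← integral_add_compl (s := Ioc (-b) b)
    measurableSet_Ioc hF, ← intervalIntegral.integral_of_le (by linarith)]
  have t1 : ‖∫ x in (Ioc (-b) b)ᶜ, (G x * f₁ x + G x * f₂ x)‖ ≤
      E * (A * Real.exp (-M * b ^ 2) * (2 * Real.exp (b ^ 2))) * √π := by
    have hi' := (integrable_exp_neg_mul_sq one_pos).const_mul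
      (E * (A * Real.exp (-M * b ^ 2) * (2 * Real.exp (b ^ 2))))
    refine (norm_integral_le_of_norm_le hi'.integrableOn
      ((ae_restrict_mem measurableSet_Ioc.compl).mono fun x hx => ?_)).trans
      ((setIntegral_le_integral hi' (.of_forall fun x => by positivity)).trans_eq ?_)
    · have h1 : b ^ 2 ≤ x ^ 2 := by
        rw [mem_compl_iff, mem_Ioc, not_and_or, not_lt, not_le] at hx
        rcases hx with hx | hx <;> nlinarith
      have h2 : Real.exp (-M * x ^ 2) ≤
          Real.exp (-M * b ^ 2) * Real.exp (b ^ 2) * Real.exp (-1 * x ^ 2) := by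
        rw [← Real.exp_add, ← Real.exp_add]
        exact Real.exp_le_exp.2 (by nlinarith)
      rw [← mul_add, norm_mul, hGn]
      calc _ ≤ E * (Real.exp (-M * b ^ 2) * Real.exp (b ^ 2) * Real.exp (-1 * x ^ 2)) * (A + A) :=
            by gcongr; exact (norm_add_le _ _).trans (add_le_add (a₁ x) (a₂ x))
        _ = _ := by ring
    · rw [integral_const_mul, integral_gaussian, div_one]
  set φ : ℂ → ℂ := fun s => cexp (-M * s ^ 2) * g s with hφ
  have hφd : DifferentiableOn ℂ φ (Icc (-b) b ×ℂ Icc (-h) h) :=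
    DifferentiableOn.mul (by fun_prop) hg
  have hr := integral_boundary_rect_eq_zero_of_differentiableOn φ ⟨-b, -h⟩ ⟨b, h⟩
    (by simpa only [uIcc_of_le (show -b ≤ b by linarith), uIcc_of_le (show -h ≤ h by linarith)]
      using hφd)
  dsimp only at hr
  have m₁ (x) (hx : x ∈ uIcc (-b) b) : (x + h * I : ℂ) ∈ Icc (-b) b ×ℂ Icc (-h) h := by
    rw [uIcc_of_le (by linarith)] at hx
    exact ⟨by simpa using hx, by simp; linarith⟩
  have m₂ (x) (hx : x ∈ uIcc (-b) b) : (-(x + h * I) : ℂ) ∈ Icc (-b) b ×ℂ Icc (-h) h := by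
    rw [uIcc_of_le (by linarith)] at hx
    exact ⟨by simpa [le_neg, neg_le] using hx.symm, by simp; linarith⟩
  have i₁ : IntervalIntegrable (fun x : ℝ => φ (x + h * I)) volume (-b) b :=
    (hφd.continuousOn.comp (by fun_prop) m₁).intervalIntegrable
  have i₂ : IntervalIntegrable (fun x : ℝ => φ (-(x + h * I))) volume (-b) b :=
    (hφd.continuousOn.comp (by fun_prop) m₂).intervalIntegrable
  have r₂ : ∫ x : ℝ in -b..b, φ (x + (-h : ℝ) * I) = ∫ x : ℝ in -b..b, φ (-(x + h * I)) := by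
    have := intervalIntegral.integral_comp_neg (a := -b) (b := b)
      (fun x : ℝ => φ (x + (-h : ℝ) * I))
    rw [neg_neg] at this
    rw [← this]
    congr 1
    ext x
    congr 1
    push_cast
    ring
  have v (c : ℝ) (hc : c ^ 2 = b ^ 2) : ‖I • ∫ y : ℝ in -h..h, φ (c + y * I)‖ ≤
      E * Real.exp (-M * b ^ 2) * A * (2 * h) := by
    rw [norm_smul, norm_I, one_mul]
    refine (intervalIntegral.norm_integral_le_of_norm_le_const fun y hy => ?_).trans_eq
      (by rw [abs_of_pos (by linarith)]; congr 1; ring)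
    rw [uIoc_of_le (by linarith)] at hy
    rw [hφ, norm_mul, norm_gauss, hc]
    have h1 : y ^ 2 ≤ h ^ 2 := by nlinarith [hy.1, hy.2]
    have h2 := hgA (c + y * I) ⟨by simpa using abs_le.1 (abs_le_of_sq_le_sq hc.le hb.le),
      by simpa using ⟨hy.1.le, hy.2⟩⟩
    rw [hE]
    gcongr
  have t2 : ‖∫ x in -b..b, (G x * f₁ x + G x * f₂ x - (φ (x + h * I) - φ (-(x + h * I))))‖ ≤
      E * (η + η) * (2 * b) := by
    refine (intervalIntegral.norm_integral_le_of_norm_le_const fun x hx => ?_).trans_eq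
      (by rw [abs_of_pos (by linarith)]; congr 1; ring)
    rw [uIoc_of_le (by linarith)] at hx
    rw [show G x * f₁ x + G x * f₂ x - (φ (x + h * I) - φ (-(x + h * I))) =
      G x * (f₁ x - g (x + h * I) + (f₂ x + g (-(x + h * I)))) by
        simp only [hφ, hG, neg_sq]; ring, norm_mul, hGn]
    have h1 : Real.exp (-M * x ^ 2) ≤ 1 := Real.exp_le_one_iff.2 (by nlinarith [sq_nonneg x])
    exact mul_le_mul (mul_le_of_le_one_right (by positivity) h1) ((norm_add_le _ _).trans
      (add_le_add (e₁ x (Ioc_subset_Icc_self hx)) (e₂ x (Ioc_subset_Icc_self hx))))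
      (norm_nonneg _) (by positivity)
  rw [intervalIntegral.integral_sub hF.intervalIntegrable (i₁.sub i₂),
    intervalIntegral.integral_sub i₁ i₂, ← r₂] at t2
  have v₁ := v b rfl
  have v₂ := v (-b) (neg_sq b)
  generalize (∫ x in -b..b, (G x * f₁ x + G x * f₂ x)) = X at *
  generalize (∫ x in (Ioc (-b) b)ᶜ, (G x * f₁ x + G x * f₂ x)) = Y at *
  generalize (I • ∫ y : ℝ in -h..h, φ (b + y * I)) = V₁ at *
  generalize (I • ∫ y : ℝ in -h..h, φ ((-b : ℝ) + y * I)) = V₂ at *
  generalize (∫ x : ℝ in -b..b, φ (x + (-h : ℝ) * I)) = U₁ at *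
  generalize (∫ x : ℝ in -b..b, φ (x + h * I)) = U₂ at *
  rw [show X + Y = X - (U₂ - U₁) + Y + (V₁ - V₂) by linear_combination -hr]
  refine (norm_add₃_le.trans (add_le_add (add_le_add t2 t1)
    ((norm_sub_le _ _).trans (add_le_add v₁ v₂)))).trans_eq (by ring)

end Pool.Agent.Lib.MP_b71113_an
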