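import Pool.Agent.Lib.MP_b71113_an.FH.Ent

/-! Two applications of the maximum modulus principle. -/

namespace Pool.Agent.Lib.MP_b71113_an

open Set Filter Topology Complex Metric
open scoped Real

/-- the two constants theorem for a rectangle -/
theorem two_const {D : ℂ → ℂ} {d ε H A γ : ℝ} (hd : 0 < d) (hε : 0 ≤ ε) (hH : ε < H) (hγ : 0 ≤ γ)
    (hD : DifferentiableOn ℂ D (Icc (-d) d ×ℂ Icc ε H))
    (h1 : ∀ s ∈ Icc (-d) d ×ℂ Icc ε H, ‖D s‖ ≤ A)
    (h2 : ∀ s ∈ Icc (-d) d ×ℂ Icc ε H, s.im = H → ‖D s‖ ≤ A * Real.exp (-γ))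
    {s : ℂ} (hs : |s.re| ≤ d / 2) (hs' : s.im ∈ Icc ε H) :
    ‖D s‖ ≤ A * Real.exp (-(γ * (π / (4 * d) / Real.sinh (π / (2 * d) * H) * (s.im - ε)))) := by
  set a := π / (2 * d) with ha
  have ha0 : 0 < a := by positivity
  have had : a * d = π / 2 := by rw [ha]; field_simp
  have hsh : 0 < Real.sinh (a * H) := Real.sinh_pos_iff.2 (mul_pos ha0 (hε.trans_lt hH))
  set g := γ / Real.sinh (a * H) with hg
  have hg0 : 0 ≤ g := by positivity
  have hn (z : ℂ) : ‖cexp (-I * g * Complex.sin (a * (z - ε * I)))‖ =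
      Real.exp (g * (Real.cos (a * z.re) * Real.sinh (a * (z.im - ε)))) := by
    have e : (a : ℂ) * (z - ε * I) = (a * z.re : ℝ) + (a * (z.im - ε) : ℝ) * I := by
      conv_lhs => rw [← re_add_im z]
      push_cast; ring
    rw [norm_exp, e, sin_add_mul_I, ← ofReal_sin, ← ofReal_cos, ← ofReal_sinh, ← ofReal_cosh]
    simp [-ofReal_sin, -ofReal_cos, -ofReal_sinh, -ofReal_cosh]
  have hcl : closure (Ioo (-d) d ×ℂ Ioo ε H) = Icc (-d) d ×ℂ Icc ε H := by
    rw [closure_reProdIm, closure_Ioo (by linarith), closure_Ioo hH.ne]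
  have hm : s ∈ Icc (-d) d ×ℂ Icc ε H := ⟨abs_le.1 (hs.trans (by linarith)), hs'⟩
  have key := norm_le_of_forall_mem_frontier_norm_le (U := Ioo (-d) d ×ℂ Ioo ε H)
    (f := fun z => D z * cexp (-I * g * Complex.sin (a * (z - ε * I)))) (C := A)
    ((isBounded_Ioo _ _).reProdIm (isBounded_Ioo _ _))
    (DifferentiableOn.diffContOnCl (by rw [hcl]; exact hD.mul (by fun_prop))) (fun z hz => by
      have hz' : z ∈ Icc (-d) d ×ℂ Icc ε H := hcl ▸ frontier_subset_closure hz
      rw [frontier_reProdIm, frontier_Ioo hH, frontier_Ioo (by linarith)] at hz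
      rw [norm_mul, hn]
      rcases hz with ⟨-, h | h⟩ | ⟨h | h, -⟩
      · rw [h, sub_self, mul_zero, Real.sinh_zero, mul_zero, mul_zero, Real.exp_zero, mul_one]
        exact h1 z hz'
      · have h : z.im = H := h
        have h3 : g * (Real.cos (a * z.re) * Real.sinh (a * (z.im - ε))) ≤ γ := by
          have h4 : Real.sinh (a * (z.im - ε)) ≤ Real.sinh (a * H) :=
            Real.sinh_le_sinh.2 (by rw [h]; nlinarith)
          have h5 : 0 ≤ Real.sinh (a * (z.im - ε)) := Real.sinh_nonneg_iff.2 (by rw [h]; nlinarith)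
          calc _ ≤ g * Real.sinh (a * H) := mul_le_mul_of_nonneg_left
                ((mul_le_of_le_one_left h5 (Real.cos_le_one _)).trans h4) hg0
            _ = γ := by rw [hg]; field_simp
        calc _ ≤ A * Real.exp (-γ) * Real.exp γ :=
              mul_le_mul (h2 z hz' h) (Real.exp_le_exp.2 h3) (Real.exp_pos _).le
                ((norm_nonneg _).trans (h2 z hz' h))
          _ = A := by rw [mul_assoc, ← Real.exp_add, neg_add_cancel, Real.exp_zero, mul_one]
      · rw [h, mul_neg, Real.cos_neg, had, Real.cos_pi_div_two, zero_mul, mul_zero, Real.exp_zero,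
          mul_one]
        exact h1 z hz'
      · have h : z.re = d := h
        rw [h, had, Real.cos_pi_div_two, zero_mul, mul_zero, Real.exp_zero, mul_one]
        exact h1 z hz') (hcl ▸ hm)
  rw [norm_mul, hn] at key
  have h3 : 1 / 2 ≤ Real.cos (a * s.re) := by
    rw [← Real.cos_abs, ← Real.cos_pi_div_three]
    refine Real.cos_le_cos_of_nonneg_of_le_pi (abs_nonneg _) (by linarith [Real.pi_pos]) ?_
    rw [abs_mul, abs_of_pos ha0]
    nlinarith [Real.pi_pos]
  have h4 : 0 ≤ a * (s.im - ε) := mul_nonneg ha0.le (sub_nonneg.2 hs'.1)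
  have h5 : γ * (π / (4 * d) / Real.sinh (a * H) * (s.im - ε)) ≤
      g * (Real.cos (a * s.re) * Real.sinh (a * (s.im - ε))) := by
    calc _ = g * (1 / 2 * (a * (s.im - ε))) := by rw [hg, ha]; field_simp; ring
      _ ≤ _ := mul_le_mul_of_nonneg_left (mul_le_mul h3 (Real.self_le_sinh_iff.2 h4) h4
        (by linarith)) hg0
  rw [Real.exp_neg, ← div_eq_mul_inv, le_div_iff₀ (Real.exp_pos _)]
  exact (mul_le_mul_of_nonneg_left (Real.exp_le_exp.2 h5) (norm_nonneg _)).trans key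

/-- an estimate that holds away from the coordinate hyperplanes holds everywhere -/
theorem walls {n : ℕ} {B : (Fin n → ℂ) → ℂ}
    (hB : ∀ ξ v : Fin n → ℂ, Differentiable ℂ fun t : ℂ => B (ξ + t • v)) {C₀ A₀ ρ : ℝ}
    (hC₀ : 0 ≤ C₀) (hρ : 0 ≤ ρ) (h0 : ∀ ξ, ‖B ξ‖ ≤ A₀ * Real.exp (C₀ * ‖ξ‖))
    (h1 : ∀ δ > 0, ∃ C, ∀ a b : Fin n → ℝ, (∀ j, δ * ‖a‖ ≤ |a j|) →
      ‖B (pt a b)‖ ≤ C * Real.exp (ρ * ‖b‖)) {ε : ℝ} (hε : 0 < ε) :
    ∃ C, ∀ a, ‖B (ofR a)‖ ≤ C * Real.exp (ε * ‖a‖) := by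
  have hA₀ : 0 ≤ A₀ := by simpa using (norm_nonneg _).trans (h0 0)
  obtain ⟨δ, hδ, hδ1, hδρ⟩ : ∃ δ : ℝ, 0 < δ ∧ δ ≤ 1 ∧ ρ * δ ≤ ε / 2 :=
    ⟨min 1 (ε / 2 / (ρ + 1)), by positivity, min_le_left _ _, by
      have := (le_div_iff₀ (by positivity)).1 (min_le_right 1 (ε / 2 / (ρ + 1)))
      have h2 : 0 < min 1 (ε / 2 / (ρ + 1)) := by positivity
      nlinarith⟩
  have hA : 1 ≤ 4 / δ := (one_le_div hδ).2 (by linarith)
  set A := (4 / δ) ^ n with hAn
  have hA1 : 1 ≤ A := one_le_pow₀ hA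
  have hl : 0 ≤ Real.log A := Real.log_nonneg hA1
  set κ := ε / 2 / (Real.log A + 1) with hκ
  have hκ0 : 0 < κ := by positivity
  have hκ1 : κ * Real.log A ≤ ε / 2 := by
    have : κ * (Real.log A + 1) = ε / 2 := by rw [hκ]; field_simp
    nlinarith
  set δ' := δ * Real.exp (-(2 * C₀ / κ)) / (4 * A) with hδ'
  obtain ⟨C, hC⟩ := h1 δ' (by positivity)
  have hC0 : 0 ≤ C := by simpa using (norm_nonneg _).trans (hC 0 0 (by simp))
  refine ⟨C * A + A₀, fun a => ?_⟩
  set r := ‖a‖ with hr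
  have hE : 1 ≤ Real.exp (ε * r) := Real.one_le_exp (by positivity)
  rcases (norm_nonneg a).eq_or_lt with h | hr0
  · have := h0 (ofR a)
    rw [show ofR a = 0 from funext fun j => by simp [ofR, norm_eq_zero.1 h.symm]] at this ⊢
    simp only [norm_zero, mul_zero, Real.exp_zero, mul_one] at this
    nlinarith [mul_nonneg hC0 (zero_le_one.trans hA1)]
  replace hr0 : 0 < r := hr0
  set L := ⌈κ * r⌉₊
  have key := norm_le_of_forall_mem_frontier_norm_le (U := ball (0 : ℂ) δ) (z := 0)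
    (f := fun t => B (ofR a + t • fun _ => (r : ℂ)) *
      (∏ j, ((t ^ 2 + 2 * (a j / r : ℝ) * t + (δ : ℂ) ^ 2) / (δ : ℂ) ^ 2)) ^ L)
    (C := (C * A + A₀) * Real.exp (ε * r)) isBounded_ball
    (Differentiable.diffContOnCl ((hB _ _).mul (by fun_prop))) (fun t ht => ?_)
    (subset_closure (mem_ball_self hδ))
  · have h2 : (δ : ℂ) ^ 2 ≠ 0 := pow_ne_zero _ (ofReal_ne_zero.2 hδ.ne')
    simpa [h2] using key
  rw [frontier_ball _ hδ.ne', mem_sphere_zero_iff_norm] at ht
  have hre : |t.re| ≤ δ := ht ▸ abs_re_le_norm t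
  have him : |t.im| ≤ δ := ht ▸ abs_im_le_norm t
  set a' : Fin n → ℝ := fun j => a j + t.re * r with ha'
  have e1 : (ofR a + t • fun _ => (r : ℂ)) = pt a' fun _ => t.im * r := funext fun j =>
    Complex.ext (by simp [ha']) (by simp)
  have e2 (j) : ‖(t ^ 2 + 2 * (a j / r : ℝ) * t + (δ : ℂ) ^ 2) / (δ : ℂ) ^ 2‖ =
      2 * |a' j| / r / δ := by
    have h2 : (δ : ℂ) ^ 2 = t * (starRingEnd ℂ) t := by
      rw [mul_conj, normSq_eq_norm_sq, ht]; push_cast; rfl
    have h3 : t ^ 2 + 2 * (a j / r : ℝ) * t + (δ : ℂ) ^ 2 = t * (2 * a' j / r : ℝ) := by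
      have h4 : (2 * a' j / r : ℝ) = 2 * (a j / r) + 2 * t.re := by rw [ha']; field_simp
      rw [h2, h4, ofReal_add, ← add_conj]; push_cast; ring
    rw [h3, norm_div, norm_mul, ht, norm_pow, norm_real, norm_real, Real.norm_eq_abs,
      Real.norm_eq_abs, abs_of_pos hδ, abs_div, abs_mul, abs_of_pos hr0, abs_two]
    field_simp
  have ha2 (j) : |a' j| ≤ 2 * r := by
    have h2 : |a j| ≤ r := norm_le_pi_norm a j
    refine (abs_add_le _ _).trans ?_
    rw [abs_mul, abs_of_pos hr0]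
    nlinarith
  have e3 (j) : 2 * |a' j| / r / δ ≤ 4 / δ :=
    div_le_div_of_nonneg_right ((div_le_iff₀ hr0).2 (by linarith [ha2 j])) hδ.le
  have hb : ‖fun _ : Fin n => t.im * r‖ ≤ δ * r := (pi_norm_le_iff_of_nonneg (by positivity)).2
    fun _ => by rw [Real.norm_eq_abs, abs_mul, abs_of_pos hr0]; gcongr
  rw [norm_mul, norm_pow, norm_prod, e1]
  simp only [e2]
  by_cases hg : ∀ j, δ' * ‖a'‖ ≤ |a' j|
  · have h2 : ∏ j, 2 * |a' j| / r / δ ≤ A := by
      refine (Finset.prod_le_prod (fun j _ => by positivity) fun j _ => e3 j).trans_eq ?_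
      simp [hAn, div_pow]
    have h3 : A ^ L ≤ A * Real.exp (ε / 2 * r) := by
      rw [← Real.exp_log (zero_lt_one.trans_le hA1), ← Real.exp_nat_mul, ← Real.exp_add,
        Real.exp_le_exp]
      have := (Nat.ceil_lt_add_one (show 0 ≤ κ * r by positivity)).le
      nlinarith [mul_le_mul_of_nonneg_right this hl, mul_le_mul_of_nonneg_right hκ1 hr0.le]
    have h4 : ρ * ‖fun _ : Fin n => t.im * r‖ ≤ ε / 2 * r := by
      nlinarith [mul_le_mul_of_nonneg_left hb hρ, mul_le_mul_of_nonneg_right hδρ hr0.le]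
    calc _ ≤ C * Real.exp (ε / 2 * r) * (A * Real.exp (ε / 2 * r)) :=
          mul_le_mul ((hC _ _ hg).trans (by gcongr)) ((pow_le_pow_left₀ (by positivity) h2 L).trans h3)
            (by positivity) (by positivity)
      _ = C * A * Real.exp (ε * r) := by
          rw [show ε * r = ε / 2 * r + ε / 2 * r by ring, Real.exp_add]; ring
      _ ≤ _ := by gcongr; linarith
  · obtain ⟨j, hj⟩ := not_forall.1 hg
    have h1' : ‖a'‖ ≤ 2 * r := (pi_norm_le_iff_of_nonneg (by positivity)).2 ha2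
    have h2 : ∏ k, 2 * |a' k| / r / δ ≤ Real.exp (-(2 * C₀ / κ)) := by
      rw [← Finset.mul_prod_erase _ _ (Finset.mem_univ j)]
      have h3 : ∏ k ∈ Finset.univ.erase j, 2 * |a' k| / r / δ ≤ A := by
        refine (Finset.prod_le_prod (fun j _ => by positivity) fun j _ => e3 j).trans ?_
        rw [Finset.prod_const]
        exact pow_le_pow_right₀ hA ((Finset.card_erase_le).trans (by simp))
      have h4 : 2 * |a' j| / r / δ ≤ Real.exp (-(2 * C₀ / κ)) / A := by
        have h5 : |a' j| ≤ δ' * (2 * r) := (not_le.1 hj).le.trans (by gcongr)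
        calc _ ≤ 2 * (δ' * (2 * r)) / r / δ := by gcongr
          _ = _ := by rw [hδ']; field_simp; ring
      calc _ ≤ Real.exp (-(2 * C₀ / κ)) / A * A := mul_le_mul h4 h3 (by positivity) (by positivity)
        _ = _ := by field_simp
    have h3 : Real.exp (-(2 * C₀ / κ)) ^ L ≤ Real.exp (-(C₀ * (2 * r))) := by
      rw [← Real.exp_nat_mul, Real.exp_le_exp]
      have h5 := mul_le_mul_of_nonneg_right (Nat.le_ceil (κ * r)) (show 0 ≤ 2 * C₀ / κ by positivity)
      rw [show κ * r * (2 * C₀ / κ) = C₀ * (2 * r) by field_simp] at h5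
      linarith
    have h4 : ‖pt a' fun _ => t.im * r‖ ≤ 2 * r := by
      rw [← e1]
      refine (pi_norm_le_iff_of_nonneg (by positivity)).2 fun k => (norm_add_le _ _).trans ?_
      have h5 : |a k| ≤ r := norm_le_pi_norm a k
      simp only [ofR, Pi.smul_apply, smul_eq_mul, norm_mul, norm_real, Real.norm_eq_abs, ht,
        abs_of_pos hr0]
      nlinarith
    calc _ ≤ A₀ * Real.exp (C₀ * (2 * r)) * Real.exp (-(C₀ * (2 * r))) :=
          mul_le_mul ((h0 _).trans (by gcongr)) ((pow_le_pow_left₀ (by positivity) h2 L).trans h3)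
            (by positivity) (by positivity)
      _ = A₀ := by rw [mul_assoc, ← Real.exp_add, add_neg_cancel, Real.exp_zero, mul_one]
      _ ≤ _ := by nlinarith [mul_nonneg hC0 (zero_le_one.trans hA1)]

end Pool.Agent.Lib.MP_b71113_an
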