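import Pool.Agent.Lib.MP_b71113_an.FH.Lam
import Pool.Agent.Lib.MP_b71113_an.FH.Lap
import Pool.Agent.Lib.MP_b71113_an.FH.Two

/-! The one variable estimate. -/

namespace Pool.Agent.Lib.MP_b71113_an

open Set Filter Topology MeasureTheory Complex Metric
open scoped Real

variable {S : Type} [TopologicalSpace S] [CompactSpace S] (Λ : C(S, ℂ) →L[ℂ] ℂ)

theorem norm_wave (t : ℝ) (z : ℂ) : ‖cexp (-I * t * z)‖ = Real.exp (t * z.im) := by
  rw [norm_exp]; congr 1; simp

theorem lap_app {σ W : S → ℂ} (hσ : Continuous σ) (hW : Continuous W) (hW1 : ∀ x, ‖W x‖ ≤ 1)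
    {T : ℝ} (hT : ∀ x, (σ x).im ≤ T) {s : ℂ} (hs : T < s.im) :
    lap (fun t => app Λ fun x => W x * cexp (-I * t * σ x)) s =
      app Λ fun x => W x * (I / (s - σ x)) := by
  rw [← app_integral Λ (μ := volume.restrict (Ioi (0 : ℝ)))
    (u := fun (t : ℝ) x => cexp (I * t * s) * (W x * cexp (-I * t * σ x)))
    (by unfold Function.uncurry; fun_prop) (integrableOn_exp_mul_Ioi (sub_neg.2 hs) 0)
    ((ae_restrict_mem measurableSet_Ioi).mono fun t ht x => ?_) fun x => ?_]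
  · refine integral_congr_ae (.of_forall fun t => ?_)
    beta_reduce
    rw [app_mul Λ (by fun_prop), mul_comm]
  · rw [mul_comm]
    refine (lap_bd (a := fun t : ℝ => W x * cexp (-I * t * σ x)) (C := 1) (ε := T)
      (fun t ht => ?_) s (le_of_lt ht)).trans_eq (one_mul _)
    rw [norm_mul, norm_wave, mul_comm T]
    gcongr
    exacts [hW1 x, hT x]
  · have h1 : (I * (s - σ x)).re < 0 := by simpa using (hT x).trans_lt hs
    have h2 := integral_exp_mul_complex_Ioi h1 0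
    have h3 : s - σ x ≠ 0 := fun h => by simp [h] at h1
    rw [show -cexp (I * (s - σ x) * (0 : ℝ)) / (I * (s - σ x)) = I / (s - σ x) by
      rw [ofReal_zero, mul_zero, Complex.exp_zero]; field_simp; rw [I_sq]] at h2
    rw [← h2, ← integral_const_mul]
    refine integral_congr_ae (.of_forall fun t => ?_)
    beta_reduce
    rw [mul_left_comm, ← Complex.exp_add]
    congr 2
    ring

theorem gauss_app {σ W : S → ℂ} (hσ : Continuous σ) (hW : Continuous W) (hW1 : ∀ x, ‖W x‖ ≤ 1)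
    {T : ℝ} (hT : ∀ x, |(σ x).im| ≤ T) {M : ℝ} (hM : 0 < M) :
    ‖app Λ fun x => W x * cexp (-M * σ x ^ 2)‖ ≤ ‖(π / M : ℂ) ^ (1 / 2 : ℂ) *
      (∫ t in Ioi (0 : ℝ), (app Λ fun x => W x * cexp (-I * t * σ x)) * cexp (-t ^ 2 / (4 * M))) +
      (π / M : ℂ) ^ (1 / 2 : ℂ) * ∫ t in Ioi (0 : ℝ),
        (app Λ fun x => W x * cexp (-I * t * -σ x)) * cexp (-t ^ 2 / (4 * M))‖ := by
  set u : ℝ → S → ℂ := fun t x => cexp (-t ^ 2 / (4 * M)) * (W x * cexp (-I * t * σ x)) with hu
  have huc : Continuous (Function.uncurry u) := by unfold Function.uncurry; fun_prop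
  have hM' : (M : ℂ) ≠ 0 := ofReal_ne_zero.2 hM.ne'
  have hb := (integrable_exp_neg_mul_sq (b := 1 / (8 * M)) (by positivity)).const_mul
    (Real.exp (2 * M * T ^ 2))
  have hn (t x) : ‖u t x‖ ≤ Real.exp (2 * M * T ^ 2) * Real.exp (-(1 / (8 * M)) * t ^ 2) := by
    rw [hu, norm_mul, norm_mul, norm_wave, show (-t ^ 2 / (4 * M) : ℂ) = (-t ^ 2 / (4 * M) : ℝ) by
      push_cast; rfl, norm_exp_ofReal]
    refine (mul_le_mul_of_nonneg_left (mul_le_of_le_one_left (Real.exp_pos _).le (hW1 x))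
      (Real.exp_pos _).le).trans ?_
    rw [← Real.exp_add, ← Real.exp_add, Real.exp_le_exp]
    have h1 : (σ x).im ^ 2 ≤ T ^ 2 := sq_le_sq' (abs_le.1 (hT x)).1 (abs_le.1 (hT x)).2
    have h2 : 0 ≤ (t - 4 * M * (σ x).im) ^ 2 / (8 * M) := by positivity
    have h3 : (t - 4 * M * (σ x).im) ^ 2 / (8 * M) = 2 * M * (σ x).im ^ 2 +
      -(1 / (8 * M)) * t ^ 2 - (-t ^ 2 / (4 * M) + t * (σ x).im) := by field_simp; ring
    nlinarith
  have hi : Integrable fun t => app Λ (u t) := (hb.const_mul ‖Λ‖).mono'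
    (app_cont Λ huc).aestronglyMeasurable (.of_forall fun t =>
      app_norm_le Λ (huc.comp (Continuous.prodMk_right t)) (by positivity) (hn t))
  have e1 := app_integral Λ huc hb (.of_forall hn)
    (v := fun x => (π / (1 / (4 * M)) : ℂ) ^ (1 / 2 : ℂ) * (W x * cexp (-M * σ x ^ 2))) fun x => by
      have h1 := fourierIntegral_gaussian (b := 1 / (4 * M)) (by
        rw [show (1 / (4 * M) : ℂ) = (1 / (4 * M) : ℝ) by push_cast; rfl, ofReal_re]
        positivity) (-σ x)
      rw [show -(-σ x) ^ 2 / (4 * (1 / (4 * M))) = -M * σ x ^ 2 by field_simp] at h1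
      rw [mul_left_comm, ← h1, ← integral_const_mul]
      refine integral_congr_ae (.of_forall fun t => ?_)
      simp only [hu]
      rw [show -(1 / (4 * M) : ℂ) * t ^ 2 = -t ^ 2 / (4 * M) by ring,
        show I * -σ x * t = -I * t * σ x by ring]
      ring
  have e2 (t : ℝ) : (app Λ fun x => W x * cexp (-I * t * σ x)) * cexp (-t ^ 2 / (4 * M)) =
      app Λ (u t) := by rw [hu, app_mul Λ (by fun_prop), mul_comm]
  have e3 (t : ℝ) : (app Λ fun x => W x * cexp (-I * t * -σ x)) * cexp (-t ^ 2 / (4 * M)) =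
      app Λ (u (-t)) := by
    rw [← e2]
    simp
  simp_rw [e2, e3]
  rw [integral_comp_neg_Ioi 0 fun t => app Λ (u t), neg_zero, ← mul_add, add_comm,
    intervalIntegral.integral_Iic_add_Ioi hi.integrableOn hi.integrableOn, e1,
    app_mul Λ (by fun_prop), norm_mul, norm_mul, ← mul_assoc]
  refine le_mul_of_one_le_left (norm_nonneg _) ?_
  rw [show (π / M : ℂ) = (π / M : ℝ) by push_cast; rfl,
    show (π / (1 / (4 * M)) : ℂ) = (π / (1 / (4 * M)) : ℝ) by push_cast; rfl,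
    norm_cpow_eq_rpow_re_of_pos (by positivity), norm_cpow_eq_rpow_re_of_pos (by positivity),
    ← Real.mul_rpow (by positivity) (by positivity)]
  refine Real.one_le_rpow ?_ (by norm_num)
  rw [show π / M * (π / (1 / (4 * M))) = 4 * π ^ 2 by field_simp]
  nlinarith [Real.pi_gt_three]

theorem key {σ : S → ℂ} {Q : S → ℝ} (hσ : Continuous σ) (hQ : Continuous Q) {T d : ℝ}
    (hd : 0 < d) (hT : 0 ≤ T) (hQ0 : ∀ x, 0 ≤ Q x) (h0 : ∀ x, 0 ≤ (σ x).im)
    (h1 : ∀ x, (σ x).im ≤ T) (hD : ∀ x, 6 * d ^ 2 ≤ (σ x).re ^ 2 + Q x)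
    (ha : ∀ ε > 0, ∃ C, ∀ M : ℝ, 1 ≤ M → ∀ t : ℝ, 0 ≤ t →
      ‖app Λ fun x => cexp (-M * Q x) * cexp (-I * t * σ x)‖ ≤ C * Real.exp (ε * (M + t))) :
    ∃ C c : ℝ, 0 < c ∧ ∀ M : ℝ, 1 ≤ M →
      ‖app Λ fun x => cexp (-M * Q x) * cexp (-M * σ x ^ 2)‖ ≤ C * Real.exp (-c * M) := by
  have hsh : 0 < Real.sinh (π / (2 * d) * (T + d)) := Real.sinh_pos_iff.2 (by positivity)
  set k := π / (4 * d) / Real.sinh (π / (2 * d) * (T + d)) with hk
  have hk0 : 0 < k := by positivity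
  obtain ⟨h, hh0, hh1, hh2, hh3⟩ : ∃ h : ℝ, 0 < h ∧ h ≤ d / 4 ∧ h ≤ d ^ 2 * k / 8 ∧ h ≤ 1 / 4 :=
    ⟨min (d / 4) (min (d ^ 2 * k / 8) (1 / 4)), by positivity, min_le_left _ _,
      (min_le_right _ _).trans (min_le_left _ _), (min_le_right _ _).trans (min_le_right _ _)⟩
  set ε := h ^ 2 with hε
  have hε0 : 0 < ε := by positivity
  have hε1 : ε ≤ h / 4 := by rw [hε]; nlinarith
  obtain ⟨C, hC⟩ := ha ε hε0
  have hC0 : 0 ≤ C := nonneg_of_mul_nonneg_left ((norm_nonneg _).trans (hC 1 le_rfl 0 le_rfl))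
    (Real.exp_pos _)
  set τ : S → ℂ := fun x => σ x - I * ((T + 2 * d) / d ^ 2 * max (Q x - d ^ 2) 0 : ℝ) with hτ
  have hτc : Continuous τ := by fun_prop
  have hsep (s : ℂ) (h2 : |s.re| ≤ d) (h3 : -d ≤ s.im) (x) : d ≤ ‖s - τ x‖ := by
    by_cases h4 : 2 * d ≤ |(σ x).re|
    · refine le_trans ?_ (abs_re_le_norm _)
      have := abs_sub_abs_le_abs_sub (σ x).re s.re
      rw [show (s - τ x).re = s.re - (σ x).re by
        simp only [hτ, sub_re, mul_re, I_re, I_im, ofReal_re, ofReal_im]; ring, abs_sub_comm]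
      linarith
    · refine le_trans ?_ ((le_abs_self _).trans (abs_im_le_norm _))
      have h5 : d ^ 2 ≤ max (Q x - d ^ 2) 0 := le_max_of_le_left (by
        nlinarith [hD x, sq_abs (σ x).re, abs_nonneg (σ x).re, not_le.1 h4])
      have h6 := mul_le_mul_of_nonneg_left h5 (show 0 ≤ (T + 2 * d) / d ^ 2 by positivity)
      rw [div_mul_cancel₀ _ (by positivity)] at h6
      rw [show (s - τ x).im = s.im - (σ x).im + (T + 2 * d) / d ^ 2 * max (Q x - d ^ 2) 0 by
        simp only [hτ, sub_im, mul_im, I_re, I_im, ofReal_re, ofReal_im]; ring]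
      linarith [h1 x]
  set A₀ := (C + 2 * ‖Λ‖) / ε with hA₀
  refine ⟨A₀ * (2 * Real.exp ((d / 2) ^ 2) * √π + 4 * h + 8 * (d / 2)), ε, hε0, fun M hM => ?_⟩
  have hM0 : 0 < M := by linarith
  set W : S → ℂ := fun x => cexp (-M * Q x) with hW
  have hWc : Continuous W := by fun_prop
  have hWn (x) : ‖W x‖ = Real.exp (-(M * Q x)) := by rw [hW, norm_exp]; simp
  have hW1 (x) : ‖W x‖ ≤ 1 := by
    rw [hWn]; exact Real.exp_le_one_iff.2 (neg_nonpos.2 (mul_nonneg hM0.le (hQ0 x)))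
  set a₁ : ℝ → ℂ := fun t => app Λ fun x => W x * cexp (-I * t * σ x) with ha₁
  set a₂ : ℝ → ℂ := fun t => app Λ fun x => W x * cexp (-I * t * -σ x) with ha₂
  set N : ℂ → ℂ := fun s => app Λ fun x => W x * (I / (s - τ x)) with hN
  set E := Real.exp (ε * M) with hE
  have hE1 : 1 ≤ E := Real.one_le_exp (by positivity)
  have c₁ : Continuous a₁ := app_cont Λ (by unfold Function.uncurry; fun_prop)
  have c₂ : Continuous a₂ := app_cont Λ (by unfold Function.uncurry; fun_prop)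
  have b₁ (t : ℝ) (ht : 0 ≤ t) : ‖a₁ t‖ ≤ C * E * Real.exp (ε * t) := by
    rw [hE, mul_assoc, ← Real.exp_add, ← mul_add]; exact hC M hM t ht
  have b₂ (t : ℝ) (ht : 0 ≤ t) : ‖a₂ t‖ ≤ ‖Λ‖ * Real.exp (0 * t) :=
    app_norm_le Λ (by fun_prop) (by positivity) fun x => by
      rw [norm_mul, norm_wave, zero_mul, Real.exp_zero, neg_im]
      exact mul_le_one₀ (hW1 x) (Real.exp_pos _).le
        (Real.exp_le_one_iff.2 (by nlinarith [h0 x]))
  have hne {z : ℂ} {δ : ℝ} (hδ : 0 < δ) (hz : δ ≤ ‖z‖) : z ≠ 0 := norm_pos_iff.1 (hδ.trans_le hz)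
  have hdiv {z : ℂ} {δ : ℝ} (hδ : 0 < δ) (hz : δ ≤ ‖z‖) : ‖I / z‖ ≤ 1 / δ := by
    rw [norm_div, norm_I]; gcongr
  have hNd : DifferentiableOn ℂ N (range τ)ᶜ :=
    app_diff Λ (isCompact_range hτc).isClosed.isOpen_compl
      (ContinuousOn.mul (by fun_prop) (continuousOn_const.div (by fun_prop)
        fun p hp h => hp.1 ⟨p.2, (sub_eq_zero.1 h).symm⟩))
      fun x => DifferentiableOn.const_mul ((differentiableOn_const _).div (by fun_prop)
        fun s (hs : s ∉ range τ) h => hs ⟨x, (sub_eq_zero.1 h).symm⟩) _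
  have hNm (s : ℂ) (h2 : |s.re| ≤ d) (h3 : -d ≤ s.im) : s ∈ (range τ)ᶜ := fun ⟨x, hx⟩ =>
    hne hd (hsep s h2 h3 x) (sub_eq_zero.2 hx.symm)
  have hNn (s : ℂ) (h2 : |s.re| ≤ d) (h3 : -d ≤ s.im) : ‖N s‖ ≤ ‖Λ‖ / ε := by
    refine (app_norm_le Λ (u := fun x => W x * (I / (s - τ x))) (hWc.mul (continuous_const.div 
      (by fun_prop) fun x => hne hd (hsep s h2 h3 x))) (B := 1 / ε) (by positivity)
      fun x => ?_).trans_eq (mul_one_div _ _)
    rw [norm_mul]
    exact (mul_le_of_le_one_left (norm_nonneg _) (hW1 x)).trans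
      (hdiv hε0 (le_trans (by linarith) (hsep s h2 h3 x)))
  have cmp (s : ℂ) (h2 : |s.re| ≤ d) (h3 : -d ≤ s.im) (h4 : ∀ x, ε ≤ ‖s - σ x‖) :
      ‖(app Λ fun x => W x * (I / (s - σ x))) - N s‖ ≤ A₀ * E * Real.exp (-(M * d ^ 2)) := by
    have k₁ : Continuous fun x => W x * (I / (s - σ x)) :=
      hWc.mul (continuous_const.div (by fun_prop) fun x => hne hε0 (h4 x))
    have k₂ : Continuous fun x => W x * (I / (s - τ x)) :=
      hWc.mul (continuous_const.div (by fun_prop) fun x => hne hd (hsep s h2 h3 x))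
    rw [hN, ← app_sub Λ k₁ k₂]
    refine (app_norm_le Λ (k₁.fun_sub k₂) (B := Real.exp (-(M * d ^ 2)) * (1 / ε + 1 / ε))
      (by positivity) fun x => ?_).trans ?_
    · rcases le_total (Q x) (d ^ 2) with h5 | h5
      · rw [show τ x = σ x by simp [hτ, max_eq_right (sub_nonpos.2 h5)], sub_self, norm_zero]
        positivity
      · rw [← mul_sub, norm_mul, hWn]
        gcongr
        exact (norm_sub_le _ _).trans (add_le_add (hdiv hε0 (h4 x))
          (hdiv hε0 (le_trans (by linarith) (hsep s h2 h3 x))))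
    · calc _ = 2 * ‖Λ‖ / ε * 1 * Real.exp (-(M * d ^ 2)) := by ring
        _ ≤ _ := by rw [hA₀]; gcongr; linarith
  have hA₁ : C * E / ε + ‖Λ‖ / ε ≤ A₀ * E := by
    rw [hA₀, ← add_div, div_mul_eq_mul_div]
    gcongr
    nlinarith [norm_nonneg Λ]
  have hP (s : ℂ) (hs : 2 * ε ≤ s.im) : ‖lap a₁ s‖ ≤ C * E / ε :=
    (lap_norm b₁ (by linarith)).trans (by gcongr; linarith)
  have hrect {s : ℂ} {p q r : ℝ} (hs : s ∈ Icc (-p) p ×ℂ Icc q r) (hp : p ≤ d) : |s.re| ≤ d :=
    (abs_le.2 hs.1).trans hp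
  have him (x : ℝ) : (x + h * I : ℂ).im = h := by simp
  have lc {a : ℝ → ℂ} {ε' : ℝ} (hl : DifferentiableOn ℂ (lap a) {s | ε' < s.im}) (h' : ε' < h) :
      Continuous fun x : ℝ => lap a (x + h * I) :=
    hl.continuousOn.comp_continuous (by fun_prop) fun x => by simpa using h'
  have z₁ : 0 ≤ C * E / ε := by positivity
  have z₂ : 0 ≤ ‖Λ‖ / ε := by positivity
  have fin := contour (g := N) (f₁ := fun x => lap a₁ (x + h * I))
    (f₂ := fun x => lap a₂ (x + h * I)) (b := d / 2) (A := A₀ * E)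
    (η := A₀ * E * (Real.exp (-(3 * ε * M)) + Real.exp (-(3 * ε * M)))) (by positivity) hh0 hM
    (hNd.mono fun s hs => hNm s (hrect hs (by linarith)) (by linarith [hs.2.1]))
    (fun s hs => by linarith [hNn s (hrect hs (by linarith)) (by linarith [hs.2.1])])
    (lc (lap_diff c₁ b₁) (by linarith)) (lc (lap_diff c₂ b₂) hh0)
    (fun x => by linarith [hP (x + h * I) (by rw [him]; linarith)])
    (fun x => by
      have h2 := lap_norm b₂ (s := x + h * I) (by rwa [him])
      have h3 : ‖Λ‖ / (h - 0) ≤ ‖Λ‖ / ε := by gcongr; linarith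
      rw [him] at h2
      linarith)
    (fun x hx => by
      refine (two_const (D := fun s => lap a₁ s - N s) (ε := 2 * ε) (H := T + d) (A := A₀ * E)
        (γ := M * d ^ 2) hd (by positivity) (by linarith) (by positivity)
        (((lap_diff c₁ b₁).mono fun s hs => ?_).sub
          (hNd.mono fun s hs => hNm s (hrect hs le_rfl) (by linarith [hs.2.1])))
        (fun s hs => (norm_sub_le _ _).trans ((add_le_add (hP s hs.2.1)
          (hNn s (hrect hs le_rfl) (by linarith [hs.2.1]))).trans hA₁))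
        (fun s hs h2 => ?_) (s := x + h * I) (by simpa using abs_le.2 hx)
        (by rw [him]; constructor <;> linarith)).trans ?_
      · exact lt_of_lt_of_le (by linarith) hs.2.1
      · rw [ha₁, lap_app Λ hσ hWc hW1 h1 (by linarith)]
        refine cmp s (hrect hs le_rfl) (by linarith) fun x => ?_
        refine le_trans ?_ ((le_abs_self _).trans (abs_im_le_norm _))
        rw [sub_im]
        linarith [h1 x]
      · rw [him, ← hk]
        refine mul_le_mul_of_nonneg_left (le_add_of_le_of_nonneg (Real.exp_le_exp.2 ?_)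
          (Real.exp_pos _).le) (by positivity)
        have h2 : 3 * ε ≤ d ^ 2 * k * (h - 2 * ε) := by nlinarith
        nlinarith)
    (fun x hx => by
      have h2 := cmp (-(x + h * I)) (by simpa using (abs_le.2 hx).trans (by linarith))
        (by rw [neg_im, him]; linarith) fun y => by
          refine le_trans ?_ ((neg_le_abs _).trans (abs_im_le_norm _))
          rw [sub_im, neg_im, him]
          linarith [h0 y]
      rw [ha₂, lap_app Λ hσ.fun_neg hWc hW1 (T := 0) (fun x => by simpa using h0 x)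
        (by rwa [him]), ← norm_neg, neg_add, ← neg_one_mul, ← app_mul Λ (hWc.fun_mul
          (continuous_const.div₀ (by fun_prop) fun y h => ?_))]
      · refine le_trans (le_of_eq ?_) (h2.trans (mul_le_mul_of_nonneg_left (le_add_of_le_of_nonneg
          (Real.exp_le_exp.2 ?_) (Real.exp_pos _).le) (by positivity)))
        · rw [← sub_eq_add_neg]
          congr 3
          ext y
          rw [show -(x + h * I) - σ y = -(x + h * I - -σ y) by ring, div_neg]
          ring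
        · have h3 : 3 * ε ≤ d ^ 2 := by nlinarith
          nlinarith
      · have := congrArg im h
        rw [sub_im, him, neg_im, zero_im] at this
        linarith [h0 y])
  rw [gauss_lap c₁ b₁ hM0 (by linarith), gauss_lap c₂ b₂ hM0 hh0] at fin
  refine ((gauss_app Λ hσ hWc hW1 (fun x => abs_le.2 ⟨by linarith [h0 x], h1 x⟩) hM0).trans
    fin).trans ?_
  have h2 : Real.exp (-M * (d / 2) ^ 2) ≤ Real.exp (-(3 * ε * M)) :=
    Real.exp_le_exp.2 (by nlinarith [show 3 * ε ≤ (d / 2) ^ 2 by nlinarith])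
  have h3 : Real.exp (M * ε) * E * Real.exp (-(3 * ε * M)) = Real.exp (-ε * M) := by
    rw [hE, ← Real.exp_add, ← Real.exp_add]; congr 1; ring
  rw [← h3]
  calc _ ≤ Real.exp (M * ε) * (A₀ * E * Real.exp (-(3 * ε * M)) *
        (2 * Real.exp ((d / 2) ^ 2) * √π + 4 * h) + 4 * (d / 2) *
          (A₀ * E * (Real.exp (-(3 * ε * M)) + Real.exp (-(3 * ε * M))))) := by gcongr
    _ = _ := by ring

end Pool.Agent.Lib.MP_b71113_an
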