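import Pool.Agent.Lib.MP_b71113_an.FH.Ent

/-! Continuous functionals on `C(S, ℂ)` applied to plain functions. -/

namespace Pool.Agent.Lib.MP_b71113_an

open Set Filter Topology MeasureTheory Complex Metric

set_option linter.unusedSectionVars false

variable {S : Type} [TopologicalSpace S] [CompactSpace S] (Λ : C(S, ℂ) →L[ℂ] ℂ)

/-- the value of `Λ` at a continuous function -/
noncomputable def app (u : S → ℂ) : ℂ := Λ (ContinuousMap.mkD u 0)

theorem app_norm_le {u : S → ℂ} (hu : Continuous u) {B : ℝ} (hB : 0 ≤ B) (h : ∀ x, ‖u x‖ ≤ B) :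
    ‖app Λ u‖ ≤ ‖Λ‖ * B :=
  Λ.le_of_opNorm_le_of_le le_rfl ((ContinuousMap.norm_le _ hB).2 fun x => by
    rw [ContinuousMap.mkD_apply_of_continuous hu]; exact h x)

theorem app_sub {u v : S → ℂ} (hu : Continuous u) (hv : Continuous v) :
    app Λ (fun x => u x - v x) = app Λ u - app Λ v := by
  rw [app, app, app, ← map_sub]
  congr 1
  ext x
  rw [ContinuousMap.sub_apply, ContinuousMap.mkD_apply_of_continuous hu,
    ContinuousMap.mkD_apply_of_continuous hv]
  exact ContinuousMap.mkD_apply_of_continuous (hu.sub hv)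

theorem app_mul {u : S → ℂ} (hu : Continuous u) (a : ℂ) :
    app Λ (fun x => a * u x) = a * app Λ u := by
  rw [app, app, ← smul_eq_mul, ← map_smul]
  congr 1
  ext x
  rw [ContinuousMap.smul_apply, ContinuousMap.mkD_apply_of_continuous hu]
  exact ContinuousMap.mkD_apply_of_continuous (continuous_const.mul hu)

theorem app_cont {T : Type} [TopologicalSpace T] {u : T → S → ℂ}
    (hu : Continuous (Function.uncurry u)) : Continuous fun t => app Λ (u t) :=
  Λ.continuous.comp (ContinuousMap.continuous_mkD_of_uncurry u 0 hu)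

theorem app_integral {T : Type} [TopologicalSpace T] [MeasurableSpace T] [OpensMeasurableSpace T]
    [SecondCountableTopology T] {μ : Measure T} {u : T → S → ℂ}
    (hu : Continuous (Function.uncurry u)) {b : T → ℝ} (hb : Integrable b μ)
    (h : ∀ᵐ t ∂μ, ∀ x, ‖u t x‖ ≤ b t) {v : S → ℂ} (hv : ∀ x, ∫ t, u t x ∂μ = v x) :
    ∫ t, app Λ (u t) ∂μ = app Λ v := by
  have hc : ∀ t, Continuous (u t) := fun t => hu.comp (Continuous.prodMk_right t)
  have hi : Integrable (fun t => ContinuousMap.mkD (u t) 0) μ :=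
    ⟨(ContinuousMap.continuous_mkD_of_uncurry u 0 hu).aestronglyMeasurable,
      ContinuousMap.hasFiniteIntegral_mkD_of_bound u 0 (.of_forall hc) b hb.2 h⟩
  have e : ⇑(∫ t, ContinuousMap.mkD (u t) 0 ∂μ) = v := funext fun x => by
    rw [ContinuousMap.integral_apply hi, ← hv]
    simp only [ContinuousMap.mkD_apply_of_continuous (hc _)]
  rw [app, ← e, ContinuousMap.mkD_eq_self, ← Λ.integral_comp_comm hi]
  rfl

theorem app_diff {O : Set ℂ} (hO : IsOpen O) {u : ℂ → S → ℂ}
    (hu : ContinuousOn (Function.uncurry u) (O ×ˢ univ))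
    (hd : ∀ x, DifferentiableOn ℂ (fun s => u s x) O) :
    DifferentiableOn ℂ (fun s => app Λ (u s)) O := by
  have hc : ∀ s ∈ O, Continuous (u s) := fun s hs =>
    hu.comp_continuous (Continuous.prodMk_right s) fun x => ⟨hs, trivial⟩
  have hΨ := ContinuousMap.continuousOn_mkD_of_uncurry u 0 hu
  refine Λ.differentiable.comp_differentiableOn fun s₀ h₀ => ?_
  obtain ⟨R, hR, hsub⟩ := nhds_basis_closedBall.mem_iff.1 (hO.mem_nhds h₀)
  lift R to NNReal using hR.le
  have hi : CircleIntegrable (fun s => ContinuousMap.mkD (u s) 0) s₀ R :=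
    (hΨ.mono (sphere_subset_closedBall.trans hsub)).circleIntegrable R.2
  have h1 := (hasFPowerSeriesOn_cauchy_integral hi hR).differentiableOn.differentiableAt
    (Metric.eball_mem_nhds s₀ (by exact_mod_cast hR))
  refine (h1.congr_of_eventuallyEq ?_).differentiableWithinAt
  filter_upwards [ball_mem_nhds s₀ hR] with s hs
  ext x
  have h2 := ((hd x).mono hsub).circleIntegral_sub_inv_smul hs
  have h3 : CircleIntegrable (fun z => (z - s)⁻¹ • ContinuousMap.mkD (u z) 0) s₀ R := by
    refine ContinuousOn.circleIntegrable R.2 (ContinuousOn.fun_smul ?_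
      (hΨ.mono (sphere_subset_closedBall.trans hsub)))
    exact (continuousOn_id.sub continuousOn_const).inv₀ fun z hz h => by
      obtain rfl : z = s := sub_eq_zero.1 h
      exact (mem_ball.1 hs).ne (mem_sphere.1 hz)
  have h4 : (∮ z in C(s₀, R), (z - s)⁻¹ • ContinuousMap.mkD (u z) 0) x =
      ∮ z in C(s₀, R), (z - s)⁻¹ • u z x := by
    have := ((ContinuousMap.evalCLM ℂ x : C(S, ℂ) →L[ℂ] ℂ).intervalIntegral_comp_comm h3.out).symm
    refine this.trans (intervalIntegral.integral_congr fun θ _ => ?_)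
    have h5 := hc _ (hsub (sphere_subset_closedBall (circleMap_mem_sphere s₀ R.2 θ)))
    simp only [map_smul]
    congr 2
    exact ContinuousMap.mkD_apply_of_continuous h5
  rw [ContinuousMap.smul_apply, h4, h2, ContinuousMap.mkD_apply_of_continuous
    (hc s (hsub (ball_subset_closedBall hs))), smul_smul, inv_mul_cancel₀ two_pi_I_ne_zero, one_smul]

end Pool.Agent.Lib.MP_b71113_an
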