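import Pool.Agent.Lib.MP_b71113_an.FH.Sep2
import Pool.Agent.Lib.MP_b71113_an.FH.Gap
import Pool.Agent.Lib.MP_b71113_an.FH.Far
import Pool.Agent.Lib.MP_b71113_an.Upper

/-! The bounds for domains with a far compact hole. -/

namespace Pool.Agent.Lib.MP_b71113_an

open Set Filter Topology Complex Metric

variable {n : ℕ} {Ω K : Set (Fin n → ℝ)} {c : Fin n → ℝ}

theorem sep_of_not_hull (hΩ : IsOpen Ω) {x : Fin n → ℝ} (hx : x ∈ Ω) (hn : x ∉ hullSet Ω c) :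
    ∃ (φ : (Fin n → ℂ) → ℂ) (K₂ : Set (Fin n → ℝ)) (M : ℝ), Differentiable ℂ φ ∧ IsCompact K₂ ∧
      K₂ ⊆ Ω ∧ 0 ≤ M ∧ (∀ w ∈ tube (Ω \ K₂) c, ‖φ w‖ ≤ M) ∧ M < ‖φ (ofR x)‖ := by
  by_contra hg
  refine hn ⟨hx, fun φ hφ hφ0 M hM0 hM => not_lt.1 fun hlt => hg ?_⟩
  obtain ⟨M', hM1, hM2⟩ := exists_between hlt
  have hM'0 : 0 < M' := hM0.trans_lt hM1
  have hcl : IsClosed (tube (closure Ω) c) := by
    have : tube (closure Ω) c = reV ⁻¹' closure Ω ∩ ⋂ j, {z | |(z j).im| ≤ c j} := by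
      ext z; simp [tube]
    rw [this]
    exact (isClosed_closure.preimage continuous_reV).inter
      (isClosed_iInter fun j => isClosed_le (by fun_prop) continuous_const)
  have hev : ∀ᶠ z in cocompact (Fin n → ℂ) ⊓ 𝓟 (tube (closure Ω) c), ‖φ z‖ < M' :=
    hφ0.norm.eventually (gt_mem_nhds (by simpa using hM'0))
  rw [eventually_inf_principal] at hev
  obtain ⟨L, hL, hLs⟩ := mem_cocompact.1 hev
  have hTc : IsCompact (tube (closure Ω) c ∩ {z | M' ≤ ‖φ z‖}) :=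
    hL.of_isClosed_subset (hcl.inter (isClosed_le continuous_const hφ.continuous.norm))
      fun z hz => by_contra fun hn => absurd (hLs hn hz.1) (not_lt.2 hz.2)
  refine ⟨φ, _, M', hφ, hTc.image continuous_reV, ?_, hM'0.le, fun w hw => ?_, hM2⟩
  · rintro _ ⟨z, hz, rfl⟩
    by_contra hn
    exact absurd (hM1.trans_le hz.2) (not_lt.2 (hM z ⟨hΩ.frontier_eq ▸ ⟨hz.1.1, hn⟩, hz.1.2⟩))
  · by_contra hn
    exact hw.1.2 ⟨w, ⟨⟨subset_closure hw.1.1, hw.2⟩, (not_le.1 hn).le⟩, rfl⟩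

theorem lower_hole (hn : 1 < n) (hΩ : IsOpen Ω) (hK : IsCompact K) (hKΩ : K ⊆ Ω)
    (hc : ∀ j, 0 ≤ c j) (h : K = ∅ ∨ (IsPreconnected (Ω \ K) ∧ FarHole Ω K c)) :
    (Ω \ K) \ closure (interior (hullSet Ω c)) ⊆ vanishingSet (Ω \ K) c := by
  rcases h with rfl | ⟨hpc, h⟩
  · simpa using lower_bound hΩ hc
  obtain ⟨P, K₀, h1, h2, h3, h4, h5⟩ := h.elim (gap_P hK hΩ) id
  refine lower_of_vanish (hΩ.sdiff hK.isClosed) fun f F hf x hx hH => ?_
  obtain ⟨φ, K₂, M, h6, h7, h8, h9, h10, h11⟩ := sep_of_not_hull hΩ hx.1 hH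
  exact vanish_hole hn hΩ hK hKΩ hpc hc hf h1 h2 h3 h4 h5 hx h7 h8 h6 h9 h10 h11

theorem hull_univ (c : Fin n → ℝ) : hullSet univ c = ∅ := by
  refine eq_empty_of_forall_notMem fun x hx => ?_
  have := hx.2 (fun z => gs 1 z x) (by unfold gs; fun_prop) (Metric.tendsto_nhds.2 fun ε hε => ?_)
    0 le_rfl fun w hw => by simpa using hw.1
  · exact absurd this (not_le.2 (norm_pos_iff.2 (exp_ne_zero _)))
  set R := |∑ j, c j ^ 2 - Real.log ε| + 1 with hR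
  have hR1 : 1 ≤ R := le_add_of_nonneg_left (abs_nonneg _)
  rw [eventually_inf_principal]
  filter_upwards [(isCompact_tube (isCompact_closedBall x R) c).compl_mem_cocompact] with z h1 h2
  have h3 : ¬ dist (reV z) x ≤ R := fun h => h1 ⟨h, h2.2⟩
  rw [dist_pi_le_iff (by linarith), not_forall] at h3
  obtain ⟨j, hj⟩ := h3
  have h4 := Finset.single_le_sum (f := fun j => ((z j).re - x j) ^ 2)
    (fun i _ => sq_nonneg _) (Finset.mem_univ j)
  have h5 : ∑ j, (z j).im ^ 2 ≤ ∑ j, c j ^ 2 :=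
    Finset.sum_le_sum fun j _ => sq_le_sq' (abs_le.1 (h2.2 j)).1 (abs_le.1 (h2.2 j)).2
  have h6 : R < |(z j).re - x j| := not_le.1 hj
  rw [dist_zero_right, gs_norm, ← Real.lt_log_iff_exp_lt hε]
  nlinarith [le_abs_self (∑ j, c j ^ 2 - Real.log ε), sq_abs ((z j).re - x j)]

end Pool.Agent.Lib.MP_b71113_an
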