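import Pool.Agent.Lib.MP_b71113_an.FH.Ent

/-! Exact contour shifts against a cut-off function, and their independence of the path. -/

namespace Pool.Agent.Lib.MP_b71113_an

open Set Filter Topology MeasureTheory Complex

variable {n : ℕ} {ψ : (Fin n → ℝ) → ℝ} {Ω : Set (Fin n → ℝ)} {G : (Fin n → ℂ) → ℂ}
  {O T : Set (Fin n → ℂ)}

/-- `∫ ψ(x) G(x + i y) dx` -/
noncomputable def Sl (ψ : (Fin n → ℝ) → ℝ) (G : (Fin n → ℂ) → ℂ) (y : Fin n → ℝ) : ℂ :=
  ∫ x, (ψ x : ℂ) * G (pt x y)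

/-- directional derivative -/
noncomputable def dv (ψ : (Fin n → ℝ) → ℝ) (v x : Fin n → ℝ) : ℝ := fderiv ℝ ψ x v

/-- the lateral integral -/
noncomputable def Lat (ψ : (Fin n → ℝ) → ℝ) (G : (Fin n → ℂ) → ℂ) (y v : Fin n → ℝ) : ℂ :=
  ∫ s in (0 : ℝ)..1, Sl (dv ψ v) G (y + s • v)

theorem dv_supp (ψ : (Fin n → ℝ) → ℝ) (v : Fin n → ℝ) : tsupport (dv ψ v) ⊆ tsupport ψ :=
  tsupport_fderiv_apply_subset ℝ v

theorem dv_cs (hc : HasCompactSupport ψ) (v : Fin n → ℝ) : HasCompactSupport (dv ψ v) :=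
  hc.fderiv_apply ℝ v

theorem dv_cont (hψ : ContDiff ℝ 1 ψ) (v : Fin n → ℝ) : Continuous (dv ψ v) :=
  (hψ.continuous_fderiv one_ne_zero).clm_apply continuous_const

theorem dv_cd (hψ : ContDiff ℝ 2 ψ) (v : Fin n → ℝ) : ContDiff ℝ 1 (dv ψ v) :=
  (hψ.fderiv_right (m := 1) (by norm_num)).clm_apply contDiff_const

theorem dv_dv (hψ : ContDiff ℝ 2 ψ) (v w : Fin n → ℝ) : dv (dv ψ v) w = dv (dv ψ w) v := by
  funext x
  have h1 : DifferentiableAt ℝ (fderiv ℝ ψ) x :=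
    (hψ.fderiv_right (m := 1) (by norm_num)).differentiable one_ne_zero x
  have h2 : ∀ v w, dv (dv ψ v) w x = fderiv ℝ (fderiv ℝ ψ) x w v := fun v w => by
    have : dv ψ v = fun x => fderiv ℝ ψ x v := rfl
    rw [dv, this, fderiv_clm_apply h1 (differentiableAt_const v)]
    simp
  rw [h2, h2]
  exact (hψ.contDiffAt.isSymmSndFDerivAt (by simp)).eq w v

theorem cz {x : Fin n → ℝ} (hx : x ∉ tsupport ψ) : (ψ x : ℂ) = 0 := by
  simp [image_eq_zero_of_notMem_tsupport hx]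

theorem cont_ptl (y : Fin n → ℝ) : Continuous fun x : Fin n → ℝ => pt x y :=
  continuous_pt.comp (continuous_id.prodMk continuous_const)

theorem int_Sl (hψ : Continuous ψ) (hc : HasCompactSupport ψ) (hT : ContinuousOn G T)
    {y : Fin n → ℝ} (h : ∀ x ∈ tsupport ψ, pt x y ∈ T) :
    Integrable fun x => (ψ x : ℂ) * G (pt x y) :=
  integrable_cut hc (continuous_ofReal.comp hψ) (fun _ => cz) (hT.comp (cont_ptl y).continuousOn h)

theorem cont_Sl {X : Type} [TopologicalSpace X] (hψ : Continuous ψ) (hc : HasCompactSupport ψ)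
    (hΩ : IsOpen Ω) (hs : tsupport ψ ⊆ Ω) (hT : ContinuousOn G T) {γ : X → Fin n → ℝ}
    (hγ : Continuous γ) {S : Set X} (h : ∀ x ∈ Ω, ∀ s ∈ S, pt x (γ s) ∈ T) :
    ContinuousOn (fun s => Sl ψ G (γ s)) S := by
  refine continuousOn_integral_of_compact_support hc (fun p hp => ?_)
    fun p x _ hx => by rw [cz hx, zero_mul]
  by_cases hx : p.2 ∈ tsupport ψ
  · have h1 : Continuous fun p : X × (Fin n → ℝ) => pt p.2 (γ p.1) :=
      continuous_pt.comp (continuous_snd.prodMk (hγ.comp continuous_fst))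
    have h2 := (hT.comp h1.continuousOn (s := S ×ˢ Ω) fun q hq => h _ hq.2 _ hq.1) p ⟨hp.1, hs hx⟩
    refine (continuous_ofReal.comp (hψ.comp continuous_snd)).continuousWithinAt.mul
      (h2.mono_of_mem_nhdsWithin ?_)
    filter_upwards [self_mem_nhdsWithin, mem_nhdsWithin_of_mem_nhds
      (continuous_snd.continuousAt.preimage_mem_nhds (hΩ.mem_nhds (hs hx)))] with q h3 h4
    exact ⟨h3.1, h4⟩
  · refine ContinuousAt.continuousWithinAt (ContinuousAt.congr (f := fun _ => 0)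
      continuousAt_const ?_)
    filter_upwards [continuous_snd.continuousAt.preimage_mem_nhds
      ((isClosed_tsupport ψ).isOpen_compl.mem_nhds hx)] with q hq
    simp [Function.uncurry, cz hq]

theorem deriv_Sl (hψ : ContDiff ℝ 1 ψ) (hc : HasCompactSupport ψ) (hO : IsOpen O)
    (hG : DifferentiableOn ℂ G O) (y v : Fin n → ℝ)
    (h2 : ∀ x ∈ tsupport ψ, ∀ s ∈ Ioo (0 : ℝ) 1, pt x (y + s • v) ∈ O) {s : ℝ}
    (hs : s ∈ Ioo (0 : ℝ) 1) :
    HasDerivAt (fun t : ℝ => Sl ψ G (y + t • v)) (-I * Sl (dv ψ v) G (y + s • v)) s := by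
  obtain ⟨a, b, -, hab, hsub⟩ := exists_Icc_mem_subset_of_mem_nhds (Ioo_mem_nhds hs.1 hs.2)
  have hd := (differentiableOn_fderiv_of_isOpen hO hG).continuousOn.clm_apply
    (continuousOn_const (c := I • ofR v))
  have hpt : Continuous fun p : ℝ × (Fin n → ℝ) => pt p.2 (y + p.1 • v) :=
    continuous_pt.comp (continuous_snd.prodMk (by fun_prop))
  obtain ⟨M, hM⟩ := (isCompact_Icc.prod hc).exists_bound_of_continuousOn
    (hd.comp hpt.continuousOn (s := Icc a b ×ˢ tsupport ψ) fun p hp => h2 _ hp.2 _ (hsub hp.1))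
  have key := (hasDerivAt_integral_of_dominated_loc_of_deriv_le (μ := volume)
    (F := fun (t : ℝ) x => (ψ x : ℂ) * G (pt x (y + t • v)))
    (F' := fun (t : ℝ) x => (ψ x : ℂ) * fderiv ℂ G (pt x (y + t • v)) (I • ofR v))
    (bound := fun x => ‖ψ x‖ * M) hab ?_
    (int_Sl hψ.continuous hc hG.continuousOn fun x hx => h2 x hx s hs)
    (int_Sl hψ.continuous hc hd fun x hx => h2 x hx s hs).aestronglyMeasurable
    (Eventually.of_forall fun x t ht => ?_)
    ((hψ.continuous.integrable_of_hasCompactSupport hc).norm.mul_const M)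
    (Eventually.of_forall fun x t ht => ?_)).2
  · refine key.congr_deriv ?_
    have := parts hψ hc hO hG (y + s • v) v fun x hx => h2 x hx s hs
    rw [Sl, neg_mul, ← mul_neg]
    simp only [dv]
    rw [← this, ← integral_const_mul]
    congr 1
    funext x
    simp only [map_smul, smul_eq_mul]
    ring
  · filter_upwards [Ioo_mem_nhds hs.1 hs.2] with t ht
    exact (int_Sl hψ.continuous hc hG.continuousOn fun x hx => h2 x hx t ht).aestronglyMeasurable
  · by_cases hx : x ∈ tsupport ψ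
    · rw [norm_mul, norm_real]
      exact mul_le_mul_of_nonneg_left (hM (t, x) ⟨ht, hx⟩) (norm_nonneg _)
    · simp [image_eq_zero_of_notMem_tsupport hx]
  · by_cases hx : x ∈ tsupport ψ
    · have h3 := hG.differentiableAt (hO.mem_nhds (h2 x hx t (hsub ht)))
      rw [pt_add_smul_right] at h3
      simpa only [pt_add_smul_right] using (hasDerivAt_line h3).const_mul (ψ x : ℂ)
    · simpa [cz hx] using hasDerivAt_const t (0 : ℂ)

theorem int_Lat (hψ : Continuous ψ) (hc : HasCompactSupport ψ) (hΩ : IsOpen Ω)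
    (hs : tsupport ψ ⊆ Ω) (hT : ContinuousOn G T) {y v : Fin n → ℝ}
    (h1 : ∀ x ∈ Ω, ∀ s ∈ Icc (0 : ℝ) 1, pt x (y + s • v) ∈ T) :
    IntervalIntegrable (fun s : ℝ => Sl ψ G (y + s • v)) volume 0 1 :=
  (cont_Sl hψ hc hΩ hs hT (by fun_prop) h1).intervalIntegrable_of_Icc zero_le_one

theorem shift_eq (hψ : ContDiff ℝ 1 ψ) (hc : HasCompactSupport ψ) (hΩ : IsOpen Ω)
    (hs : tsupport ψ ⊆ Ω) (hO : IsOpen O) (hG : DifferentiableOn ℂ G O) (hT : ContinuousOn G T)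
    (y v : Fin n → ℝ) (h1 : ∀ x ∈ Ω, ∀ s ∈ Icc (0 : ℝ) 1, pt x (y + s • v) ∈ T)
    (h2 : ∀ x ∈ Ω, ∀ s ∈ Ioo (0 : ℝ) 1, pt x (y + s • v) ∈ O) :
    Sl ψ G (y + v) - Sl ψ G y = -I * Lat ψ G y v := by
  have := intervalIntegral.integral_eq_sub_of_hasDerivAt_of_le zero_le_one
    (cont_Sl hψ.continuous hc hΩ hs hT (γ := fun s : ℝ => y + s • v) (by fun_prop) h1)
    (fun s hs' => deriv_Sl hψ hc hO hG y v (fun x hx => h2 x (hs hx)) hs')
    ((int_Lat (dv_cont hψ v) (dv_cs hc v) hΩ ((dv_supp ψ v).trans hs) hT h1).const_mul _)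
  rw [intervalIntegral.integral_const_mul] at this
  simpa [Lat] using this.symm

theorem Sl_le (hψ : Continuous ψ) (hc : HasCompactSupport ψ) {y : Fin n → ℝ} {B : ℝ}
    (h : ∀ x, ψ x ≠ 0 → ‖G (pt x y)‖ ≤ B) : ‖Sl ψ G y‖ ≤ (∫ x, |ψ x|) * B := by
  rw [← integral_mul_const]
  refine norm_integral_le_of_norm_le
    ((hψ.integrable_of_hasCompactSupport hc).abs.mul_const B) (Eventually.of_forall fun x => ?_)
  by_cases hx : ψ x = 0
  · simp [hx]
  · rw [norm_mul, norm_real]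
    exact mul_le_mul_of_nonneg_left (h x hx) (abs_nonneg _)

theorem Lat_le (hψ : ContDiff ℝ 1 ψ) (hc : HasCompactSupport ψ) {y v : Fin n → ℝ} {B : ℝ}
    (h : ∀ x, dv ψ v x ≠ 0 → ∀ s ∈ Icc (0 : ℝ) 1, ‖G (pt x (y + s • v))‖ ≤ B) :
    ‖Lat ψ G y v‖ ≤ (∫ x, |dv ψ v x|) * B := by
  have := intervalIntegral.norm_integral_le_of_norm_le_const (a := 0) (b := 1)
    (f := fun s : ℝ => Sl (dv ψ v) G (y + s • v)) fun s hs =>
      Sl_le (dv_cont hψ v) (dv_cs hc v) fun x hx => h x hx s (by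
        rw [uIoc_of_le zero_le_one] at hs
        exact Ioc_subset_Icc_self hs)
  simpa [Lat] using this

variable {σ : Fin n → ℤˣ}

theorem cone_cl {x y y' : Fin n → ℝ} (hx : x ∈ Ω) (hy : ∀ j, 0 < sv σ j * y j)
    (hy' : ∀ j, 0 < sv σ j * y' j) {s t : ℝ} (hs : 0 ≤ s) (ht : 0 ≤ t) :
    pt x (s • y + t • y') ∈ closure (Dsig Ω 0 σ) :=
  pt_mem_closure hx fun j => by
    simp only [Pi.add_apply, Pi.smul_apply, smul_eq_mul]
    nlinarith [mul_nonneg hs (hy j).le, mul_nonneg ht (hy' j).le]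

theorem cone_op {x y y' : Fin n → ℝ} (hx : x ∈ Ω) (hy : ∀ j, 0 < sv σ j * y j)
    (hy' : ∀ j, 0 < sv σ j * y' j) {s t : ℝ} (hs : 0 ≤ s) (ht : 0 < t) :
    pt x (s • y + t • y') ∈ Dsig Ω 0 σ :=
  ⟨by simpa using hx, fun j => by
    simp only [pt_im, Pi.add_apply, Pi.smul_apply, smul_eq_mul, Pi.zero_apply]
    change 0 < sv σ j * _
    nlinarith [mul_nonneg hs (hy j).le, mul_pos ht (hy' j)]⟩

theorem para (hψ : ContDiff ℝ 2 ψ) (hc : HasCompactSupport ψ) (hΩ : IsOpen Ω)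
    (hs : ∀ v, tsupport (dv ψ v) ⊆ Ω) (hG : DifferentiableOn ℂ G (Dsig Ω 0 σ))
    (hT : ContinuousOn G (closure (Dsig Ω 0 σ))) {y y' : Fin n → ℝ}
    (hy : ∀ j, 0 < sv σ j * y j) (hy' : ∀ j, 0 < sv σ j * y' j) :
    Lat ψ G y' y - Lat ψ G 0 y = Lat ψ G y y' - Lat ψ G 0 y' := by
  have h1 := hψ.of_le one_le_two
  have key : ∀ y y' : Fin n → ℝ, (∀ j, 0 < sv σ j * y j) → (∀ j, 0 < sv σ j * y' j) →
      Lat ψ G y' y - Lat ψ G 0 y = -I * ∫ s in (0 : ℝ)..1, ∫ t in (0 : ℝ)..1,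
        Sl (dv (dv ψ y) y') G (s • y + t • y') := fun y y' hy hy' => by
    rw [Lat, Lat, ← intervalIntegral.integral_sub
      (int_Lat (dv_cont h1 y) (dv_cs hc y) hΩ (hs y) hT fun x hx s h => by
        simpa using cone_cl hx hy' hy zero_le_one h.1)
      (int_Lat (dv_cont h1 y) (dv_cs hc y) hΩ (hs y) hT fun x hx s h => by
        simpa using cone_cl hx hy' hy le_rfl h.1), ← intervalIntegral.integral_const_mul]
    refine intervalIntegral.integral_congr fun s h => ?_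
    rw [uIcc_of_le zero_le_one] at h
    have := shift_eq (dv_cd hψ y) (dv_cs hc y) hΩ (hs y) (isOpen_Dsig hΩ 0 σ) hG hT (s • y) y'
      (fun x hx t ht => cone_cl hx hy hy' h.1 ht.1) fun x hx t ht => cone_op hx hy hy' h.1 ht.1
    simpa only [Lat, zero_add, add_comm y'] using this
  rw [key y y' hy hy', key y' y hy' hy, dv_dv hψ y' y, intervalIntegral_intervalIntegral_swap]
  · simp only [add_comm (_ • y')]
  · have := cont_Sl (dv_cont (dv_cd hψ y) y') (dv_cs (dv_cs hc y) y') hΩ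
      ((dv_supp _ y').trans (hs y)) hT (γ := fun p : ℝ × ℝ => p.1 • y + p.2 • y') (by fun_prop)
      (S := Icc 0 1 ×ˢ Icc 0 1) fun x hx p hp => cone_cl hx hy hy' hp.1.1 hp.2.1
    rw [uIoc_of_le zero_le_one]
    exact (this.integrableOn_compact (isCompact_Icc.prod isCompact_Icc)).mono_set
      (prod_mono Ioc_subset_Icc_self Ioc_subset_Icc_self)

end Pool.Agent.Lib.MP_b71113_an
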