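import Pool.Agent.Lib.MP_b71113_an.FH.Nu1
import Pool.Agent.Lib.MP_b71113_an.FH.Fill2

/-! The functionals that replace `∫ θ f_σ φ` over the hole. -/

namespace Pool.Agent.Lib.MP_b71113_an

open Set Filter Topology MeasureTheory Complex Function

variable {n : ℕ} {ψ θ β : (Fin n → ℝ) → ℝ} {Ω Ω₀ K : Set (Fin n → ℝ)} {c : Fin n → ℝ}
  {u F G H φ : (Fin n → ℂ) → ℂ} {T : Set (Fin n → ℂ)} {σ : Fin n → ℤˣ} {y y' : Fin n → ℝ}

/-- top integral and lateral integral -/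
noncomputable def NN (ψ : (Fin n → ℝ) → ℝ) (u F : (Fin n → ℂ) → ℂ) (y : Fin n → ℝ)
    (φ : (Fin n → ℂ) → ℂ) : ℂ :=
  Sl ψ (u * φ) y + I * Lat ψ (F * φ) 0 y

/-- the data over the hole -/
structure Dat (Ω Ω₀ : Set (Fin n → ℝ)) (c : Fin n → ℝ) (σ : Fin n → ℤˣ)
    (u F : (Fin n → ℂ) → ℂ) : Prop where
  o : IsOpen Ω
  o₀ : IsOpen Ω₀
  c0 : ∀ j, 0 ≤ c j
  ud : DifferentiableOn ℂ u (Dsig Ω₀ c σ)
  fd : DifferentiableOn ℂ F (Dsig Ω 0 σ)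
  fc : ContinuousOn F (closure (Dsig Ω 0 σ))
  e : EqOn u F (Dsig Ω c σ)

/-- cut-off functions that are locally constant near the hole -/
structure Cf (Ω Ω₀ : Set (Fin n → ℝ)) (ψ : (Fin n → ℝ) → ℝ) : Prop where
  cd : ContDiff ℝ 2 ψ
  cs : HasCompactSupport ψ
  s₀ : tsupport ψ ⊆ Ω₀
  s : ∀ v, tsupport (dv ψ v) ⊆ Ω

theorem top_mem {x : Fin n → ℝ} (hx : x ∈ Ω) (hy : ∀ j, c j < sv σ j * y j) :
    pt x y ∈ Dsig Ω c σ := ⟨by simpa using hx, fun j => by simpa [sv] using hy j⟩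

theorem top_add (hy : ∀ j, c j < sv σ j * y j) (hy' : ∀ j, 0 < sv σ j * y' j) {s : ℝ}
    (hs : 0 ≤ s) (j : Fin n) : c j < sv σ j * (y + s • y') j := by
  simp only [Pi.add_apply, Pi.smul_apply, smul_eq_mul]
  nlinarith [hy j, mul_nonneg hs (hy' j).le]

theorem ray_cl {x : Fin n → ℝ} (hx : x ∈ Ω) (hy : ∀ j, 0 < sv σ j * y j) {s : ℝ} (hs : 0 ≤ s) :
    pt x (0 + s • y) ∈ closure (Dsig Ω 0 σ) := by
  simpa using cone_cl hx hy hy le_rfl hs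

theorem Sl_congr (h : ∀ x ∈ tsupport ψ, G (pt x y) = H (pt x y)) : Sl ψ G y = Sl ψ H y := by
  unfold Sl
  congr 1
  funext x
  by_cases hx : x ∈ tsupport ψ
  · rw [h x hx]
  · simp [cz hx]

theorem Dat.mul (h : Dat Ω Ω₀ c σ u F) (hφ : Differentiable ℂ φ) :
    Dat Ω Ω₀ c σ (u * φ) (F * φ) :=
  ⟨h.o, h.o₀, h.c0, h.ud.mul hφ.differentiableOn, h.fd.mul hφ.differentiableOn,
    h.fc.mul hφ.continuous.continuousOn, fun z hz => by simp [h.e hz]⟩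

theorem Dat.pos (h : Dat Ω Ω₀ c σ u F) (hy : ∀ j, c j < sv σ j * y j) (j : Fin n) :
    0 < sv σ j * y j := (h.c0 j).trans_lt (hy j)

theorem Dat.up (h : Dat Ω Ω₀ c σ u F) (hψ : Cf Ω Ω₀ ψ) (hy : ∀ j, c j < sv σ j * y j)
    (hy' : ∀ j, 0 < sv σ j * y' j) : Sl ψ u y = Sl ψ u (y + y') + I * Lat ψ F y y' := by
  have hm : ∀ {A : Set (Fin n → ℝ)}, ∀ x ∈ A, ∀ s : ℝ, 0 ≤ s → pt x (y + s • y') ∈ Dsig A c σ :=
    fun x hx s hs => top_mem hx (top_add hy hy' hs)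
  have h1 := shift_eq (hψ.cd.of_le one_le_two) hψ.cs h.o₀ hψ.s₀ (isOpen_Dsig h.o₀ c σ) h.ud
    h.ud.continuousOn y y' (fun x hx s hs => hm x hx s hs.1) fun x hx s hs => hm x hx s hs.1.le
  have h2 : Lat ψ u y y' = Lat ψ F y y' := by
    refine intervalIntegral.integral_congr fun s hs => ?_
    rw [uIcc_of_le zero_le_one] at hs
    exact Sl_congr fun x hx => h.e (hm x (hψ.s _ hx) s hs.1)
  rw [h2] at h1
  linear_combination -h1

theorem Dat.indep (h : Dat Ω Ω₀ c σ u F) (hψ : Cf Ω Ω₀ ψ) (hy : ∀ j, c j < sv σ j * y j)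
    (hy' : ∀ j, c j < sv σ j * y' j) (hφ : Differentiable ℂ φ) :
    NN ψ u F y φ = NN ψ u F y' φ := by
  have h1 := h.mul hφ
  have := para hψ.cd hψ.cs h.o hψ.s h1.fd h1.fc (h.pos hy) (h.pos hy')
  rw [NN, NN, h1.up hψ hy (h.pos hy'), h1.up hψ hy' (h.pos hy), add_comm y' y]
  linear_combination -I * this

theorem Sl_add (hψ : Continuous ψ) (hc : HasCompactSupport ψ) (hG : ContinuousOn G T)
    (hH : ContinuousOn H T) (h : ∀ x ∈ tsupport ψ, pt x y ∈ T) :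
    Sl ψ (G + H) y = Sl ψ G y + Sl ψ H y := by
  rw [Sl, Sl, Sl, ← integral_add (int_Sl hψ hc hG h) (int_Sl hψ hc hH h)]
  simp only [Pi.add_apply, mul_add]

theorem Sl_smul (a : ℂ) : Sl ψ (a • G) y = a * Sl ψ G y := by
  rw [Sl, Sl, ← integral_const_mul]
  simp only [Pi.smul_apply, smul_eq_mul, mul_left_comm]

/-- the functional as a linear map -/
noncomputable def Dat.lin (h : Dat Ω Ω₀ c σ u F) (hψ : Cf Ω Ω₀ ψ) (hy : ∀ j, c j < sv σ j * y j) :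
    Ent n →ₗ[ℂ] ℂ where
  toFun φ := NN ψ u F y φ.1
  map_add' φ φ' := by
    have h1 := h.mul φ.2
    have h2 := h.mul φ'.2
    have hd := dv_cont (hψ.cd.of_le one_le_two) y
    have hr : ∀ x ∈ Ω, ∀ s ∈ Icc (0 : ℝ) 1, pt x (0 + s • y) ∈ closure (Dsig Ω 0 σ) :=
      fun x hx s hs => ray_cl hx (h.pos hy) hs.1
    have e : Lat ψ (F * φ.1 + F * φ'.1) 0 y = Lat ψ (F * φ.1) 0 y + Lat ψ (F * φ'.1) 0 y := by
      rw [Lat, Lat, Lat, ← intervalIntegral.integral_add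
        (int_Lat hd (dv_cs hψ.cs y) h.o (hψ.s y) h1.fc hr)
        (int_Lat hd (dv_cs hψ.cs y) h.o (hψ.s y) h2.fc hr)]
      refine intervalIntegral.integral_congr fun s hs => ?_
      rw [uIcc_of_le zero_le_one] at hs
      exact Sl_add hd (dv_cs hψ.cs y) h1.fc h2.fc fun x hx => hr x (hψ.s y hx) s hs
    simp only [NN, Submodule.coe_add, mul_add, e]
    rw [Sl_add hψ.cd.continuous hψ.cs h1.ud.continuousOn h2.ud.continuousOn
      fun x hx => top_mem (hψ.s₀ hx) hy]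
    ring
  map_smul' a φ := by
    simp only [NN, Lat, Submodule.coe_smul, mul_smul_comm, Sl_smul, RingHom.id_apply,
      intervalIntegral.integral_const_mul, smul_eq_mul]
    ring

theorem Dat.lat_le (h : Dat Ω Ω₀ c σ u F) (hψ : Cf Ω Ω₀ ψ) (hy : ∀ j, c j < sv σ j * y j) :
    ∃ C : ℝ, ∀ (φ : (Fin n → ℂ) → ℂ) (B : ℝ),
      (∀ x, dv ψ y x ≠ 0 → ∀ t ∈ Icc (0 : ℝ) 1, ‖φ (pt x (t • y))‖ ≤ B) →
      ‖Lat ψ (F * φ) 0 y‖ ≤ C * B := by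
  obtain ⟨A, hA⟩ := (isCompact_seg (dv_cs hψ.cs y) 0 y).exists_bound_of_continuousOn
    (h.fc.mono (by rintro _ ⟨p, hp, rfl⟩; exact ray_cl (hψ.s y hp.1) (h.pos hy) hp.2.1))
  refine ⟨(∫ x, |dv ψ y x|) * A, fun φ B hB => ?_⟩
  rw [mul_assoc]
  refine Lat_le (hψ.cd.of_le one_le_two) hψ.cs fun x hx s hs => ?_
  have h1 := hA _ ⟨(x, s), ⟨subset_tsupport _ hx, hs⟩, rfl⟩
  rw [Pi.mul_apply, norm_mul]
  exact mul_le_mul h1 (by simpa using hB x hx s hs) (norm_nonneg _) ((norm_nonneg _).trans h1)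

theorem Dat.le (h : Dat Ω Ω₀ c σ u F) (hψ : Cf Ω Ω₀ ψ) (hy : ∀ j, c j < sv σ j * y j) :
    ∃ C : ℝ, ∀ (φ : (Fin n → ℂ) → ℂ) (B : ℝ),
      (∀ x ∈ tsupport ψ, ∀ t ∈ Icc (0 : ℝ) 1, ‖φ (pt x (t • y))‖ ≤ B) →
      ‖NN ψ u F y φ‖ ≤ C * B := by
  obtain ⟨C, hC⟩ := h.lat_le hψ hy
  obtain ⟨A, hA⟩ := hψ.cs.isCompact.exists_bound_of_continuousOn
    (h.ud.continuousOn.comp (cont_ptl y).continuousOn fun x hx => top_mem (hψ.s₀ hx) hy)
  refine ⟨(∫ x, |ψ x|) * A + C, fun φ B hB => (norm_add_le _ _).trans ?_⟩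
  rw [add_mul, mul_assoc, norm_mul, norm_I, one_mul]
  refine add_le_add (Sl_le hψ.cd.continuous hψ.cs fun x hx => ?_)
    (hC φ B fun x hx => hB x (dv_supp ψ y (subset_tsupport _ hx)))
  have h1 := hA x (subset_tsupport _ hx)
  rw [Pi.mul_apply, norm_mul]
  exact mul_le_mul h1 (by simpa using hB x (subset_tsupport _ hx) 1 (by simp)) (norm_nonneg _)
    ((norm_nonneg _).trans h1)

theorem Sl_addl (hθ : Continuous θ) (hθc : HasCompactSupport θ) (hβ : Continuous β)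
    (hβc : HasCompactSupport β) (hG : ContinuousOn G T) (h : ∀ x ∈ tsupport θ, pt x y ∈ T)
    (h' : ∀ x ∈ tsupport β, pt x y ∈ T) : Sl (θ + β) G y = Sl θ G y + Sl β G y := by
  rw [Sl, Sl, Sl, ← integral_add (int_Sl hθ hθc hG h) (int_Sl hβ hβc hG h')]
  simp only [Pi.add_apply, ofReal_add, add_mul]

theorem dv_add (hθ : ContDiff ℝ 2 θ) (hβ : ContDiff ℝ 2 β) (v : Fin n → ℝ) :
    dv (θ + β) v = dv θ v + dv β v := by
  funext x
  simp [dv, fderiv_add (hθ.differentiable two_ne_zero x) (hβ.differentiable two_ne_zero x)]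

theorem Cf.add (hθ : Cf Ω Ω₀ θ) (hβ : Cf Ω Ω₀ β) : Cf Ω Ω₀ (θ + β) :=
  ⟨hθ.cd.add hβ.cd, hθ.cs.add hβ.cs, (tsupport_add θ β).trans (union_subset hθ.s₀ hβ.s₀),
    fun v => dv_add hθ.cd hβ.cd v ▸ (tsupport_add _ _).trans (union_subset (hθ.s v) (hβ.s v))⟩

theorem Dat.add (h : Dat Ω Ω₀ c σ u F) (hθ : Cf Ω Ω₀ θ) (hβ : Cf Ω Ω₀ β) (hs : tsupport β ⊆ Ω)
    (hy : ∀ j, c j < sv σ j * y j) (hφ : Differentiable ℂ φ) :
    NN (θ + β) u F y φ = NN θ u F y φ + Sl β (F * φ) 0 := by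
  have h1 := h.mul hφ
  have d1 := dv_cont (hθ.cd.of_le one_le_two) y
  have d2 := dv_cont (hβ.cd.of_le one_le_two) y
  have hr : ∀ x ∈ Ω, ∀ s ∈ Icc (0 : ℝ) 1, pt x (0 + s • y) ∈ closure (Dsig Ω 0 σ) :=
    fun x hx s hs => ray_cl hx (h.pos hy) hs.1
  have e : Lat (θ + β) (F * φ) 0 y = Lat θ (F * φ) 0 y + Lat β (F * φ) 0 y := by
    rw [Lat, Lat, Lat, ← intervalIntegral.integral_add
      (int_Lat d1 (dv_cs hθ.cs y) h.o (hθ.s y) h1.fc hr)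
      (int_Lat d2 (dv_cs hβ.cs y) h.o (hβ.s y) h1.fc hr), dv_add hθ.cd hβ.cd]
    refine intervalIntegral.integral_congr fun s hs => ?_
    rw [uIcc_of_le zero_le_one] at hs
    exact Sl_addl d1 (dv_cs hθ.cs y) d2 (dv_cs hβ.cs y) h1.fc (fun x hx => hr x (hθ.s y hx) s hs)
      fun x hx => hr x (hβ.s y hx) s hs
  have e2 := shift_eq (hβ.cd.of_le one_le_two) hβ.cs h.o hs (isOpen_Dsig h.o 0 σ) h1.fd h1.fc 0 y
    hr fun x hx s hs => by simpa using cone_op hx (h.pos hy) (h.pos hy) le_rfl hs.1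
  have e3 : Sl β (u * φ) y = Sl β (F * φ) y := Sl_congr fun x hx => h1.e (top_mem (hs hx) hy)
  rw [zero_add] at e2
  rw [NN, NN, e, Sl_addl hθ.cd.continuous hθ.cs hβ.cd.continuous hβ.cs h1.ud.continuousOn
    (fun x hx => top_mem (hθ.s₀ hx) hy) (fun x hx => top_mem (hβ.s₀ hx) hy), e3]
  linear_combination e2

end Pool.Agent.Lib.MP_b71113_an
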