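import Pool.Agent.Lib.MP_b71113_an.FH.Nu2

/-! The functional `φ ↦ ∫ β g φ`, corrected over the hole, is carried by the outer ends. -/

namespace Pool.Agent.Lib.MP_b71113_an

open Set Filter Topology MeasureTheory Complex Function

variable {n : ℕ} {χ θ β : (Fin n → ℝ) → ℝ} {Ω Ω₀ K : Set (Fin n → ℝ)} {c c' : Fin n → ℝ}

theorem corner (hcc : ∀ j, c j < c' j) (σ : Fin n → ℤˣ) (j : Fin n) :
    c j < sv σ j * (sv σ * c' : Fin n → ℝ) j := by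
  rw [Pi.mul_apply, ← mul_assoc, sv_sq, one_mul]
  exact hcc j

theorem corner_abs (hc' : ∀ j, 0 ≤ c' j) (σ : Fin n → ℤˣ) {t : ℝ} (ht : |t| ≤ 1) (j : Fin n) :
    |t * (sv σ j * c' j)| ≤ c' j := by
  rw [abs_mul, abs_mul, abs_sv, one_mul, abs_of_nonneg (hc' j)]
  exact mul_le_of_le_one_left (hc' j) ht

theorem bdd_top (hχ : ContDiff ℝ 1 χ) (hc : HasCompactSupport χ) (hΩ : IsOpen Ω)
    (hχΩ : tsupport χ ⊆ Ω) (hc0 : ∀ j, 0 ≤ c j) (hcc : ∀ j, c j < c' j)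
    {h : Fin n → (Fin n → ℤˣ) → (Fin n → ℂ) → ℂ}
    (hd : ∀ k σ, DifferentiableOn ℂ (h k σ) (Dksig Ω c k σ)) (hf : ∀ k σ, h k (flip k σ) = h k σ) :
    Bdd χ c' fun φ => ∑ σ, sgn σ * Sl χ ((∑ k, h k σ) * φ) (sv σ * c') := by
  have hc' : ∀ j, 0 ≤ c' j := fun j => (hc0 j).trans (hcc j).le
  set J : Fin n → (Fin n → ℤˣ) → ((Fin n → ℂ) → ℂ) → ℂ := fun k σ φ =>
    Sl χ (h k σ * φ) (sv σ * c') with hJ
  have h1 : ∀ k σ, Bdd χ c' fun φ => J k σ φ - J k (flip k σ) φ := by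
    intro k σ
    have hseg : ∀ s : ℝ, ∀ j, (sv (flip k σ) * c' + s • (sv σ * c' - sv (flip k σ) * c')) j =
        (if j = k then 2 * s - 1 else 1) * (sv σ j * c' j) := by
      intro s j
      by_cases hj : j = k
      · subst hj
        simp [sv, flip]
        ring
      · simp [sv, flip, hj]
    have := bdd_shift hχ hc (c' := c') (isOpen_Dksig hΩ c k σ) (hd k σ) (sv (flip k σ) * c')
      (sv σ * c' - sv (flip k σ) * c') ?_ ?_
    · simpa only [hJ, Sl, hf, Pi.mul_apply, add_sub_cancel] using this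
    · intro x hx s _
      refine ⟨by simpa using hχΩ hx, fun j hj => ?_⟩
      rw [pt_im, hseg, if_neg hj, one_mul]
      exact corner hcc σ j
    · intro s hs j
      rw [hseg]
      refine corner_abs hc' σ ?_ j
      split_ifs
      · exact abs_le.2 ⟨by linarith [hs.1], by linarith [hs.2]⟩
      · simp
  have h2 : ∀ k, Bdd χ c' fun φ => ∑ σ, sgn σ * J k σ φ := by
    intro k
    refine ((Bdd.sum Finset.univ fun σ => (h1 k σ).const_mul (sgn σ)).const_mul (1 / 2)).congr ?_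
    intro φ _ _ _
    exact sum_flip k fun σ => J k σ φ
  refine (Bdd.sum Finset.univ h2).congr ?_
  rintro φ O B ⟨hO, hφ, hsub, hB0, hB⟩
  rw [Finset.sum_comm]
  refine Finset.sum_congr rfl fun σ _ => ?_
  rw [← Finset.mul_sum]
  congr 1
  simp only [hJ, Sl]
  rw [← integral_finsetSum]
  · simp only [Pi.mul_apply, Finset.sum_apply, Finset.sum_mul, Finset.mul_sum]
  · intro k _
    refine int_Sl hχ.continuous hc (((hd k σ).continuousOn.mono inter_subset_left).mul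
      (hφ.continuousOn.mono inter_subset_right)) fun x hx => ⟨?_, hsub (pt_mem_tube hx fun j => ?_)⟩
    · have := top_mem (hχΩ hx) (corner hcc σ)
      exact ⟨this.1, fun j _ => this.2 j⟩
    · simpa using corner_abs hc' σ (t := 1) (by simp) j

theorem Dksig_update (Ω : Set (Fin n → ℝ)) (c : Fin n → ℝ) (k : Fin n) (σ : Fin n → ℤˣ) :
    Dksig Ω c k (update σ k 1) = Dksig Ω c k σ := by
  ext z
  refine and_congr_right fun _ => forall₂_congr fun j hj => ?_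
  rw [update_of_ne hj]

theorem exists_nu (hn : 1 < n) (hΩ : IsOpen Ω₀) (hK : IsCompact K) (hKΩ : K ⊆ Ω₀)
    (hpc : IsPreconnected (Ω₀ \ K)) (hc0 : ∀ j, 0 ≤ c j) {f : (Fin n → ℂ) → ℂ}
    {F : (Fin n → ℤˣ) → (Fin n → ℂ) → ℂ} (h : Admissible (Ω₀ \ K) c f F)
    (hθ : Cf (Ω₀ \ K) Ω₀ θ) (hβ : Cf (Ω₀ \ K) Ω₀ β) (hs : tsupport β ⊆ Ω₀ \ K) :
    ∃ ν : (Fin n → ℤˣ) → Ent n →ₗ[ℂ] ℂ,
      (∀ σ y, (∀ j, c j < sv σ j * y j) → ∃ C : ℝ, ∀ (φ : Ent n) (B : ℝ),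
        (∀ x ∈ tsupport θ, ∀ t ∈ Icc (0 : ℝ) 1, ‖φ.1 (pt x (t • y))‖ ≤ B) → ‖ν σ φ‖ ≤ C * B) ∧
      ∀ c' : Fin n → ℝ, (∀ j, c j < c' j) → ∃ C : ℝ, ∀ (φ : Ent n) (B : ℝ), 0 ≤ B →
        (∀ w ∈ tube {x | fderiv ℝ (θ + β) x ≠ 0} c', ‖φ.1 w‖ ≤ B) →
        ‖(∫ x, (β x * gfun F x) * φ.1 (ofR x)) + ∑ σ, sgn σ * ν σ φ‖ ≤ C * B := by
  obtain ⟨hf, hF, hk, hhk, hsum⟩ := h
  have hO := hΩ.sdiff hK.isClosed
  choose v hv hvu using fun k σ => fill hn hΩ hK hKΩ hpc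
    ((hhk k).mono (subset_iUnion (Dksig (Ω₀ \ K) c k) σ))
  let w : Fin n → (Fin n → ℤˣ) → (Fin n → ℂ) → ℂ := fun k σ => v k (update σ k 1)
  have hw : ∀ k σ, DifferentiableOn ℂ (w k σ) (Dksig Ω₀ c k σ) := fun k σ =>
    Dksig_update Ω₀ c k σ ▸ hv k _
  have hwu : ∀ k σ, EqOn (w k σ) (hk k) (Dksig (Ω₀ \ K) c k σ) := fun k σ =>
    Dksig_update (Ω₀ \ K) c k σ ▸ hvu k _
  have hD : ∀ σ, Dat (Ω₀ \ K) Ω₀ c σ (∑ k, w k σ) (F σ) := fun σ => by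
    refine ⟨hO, hΩ, hc0, DifferentiableOn.sum fun k _ => (hw k σ).mono fun z hz =>
      ⟨hz.1, fun j _ => hz.2 j⟩, (hf.mono (subset_iUnion (Dsig _ 0) σ)).congr (hF σ).2,
      (hF σ).1, fun z hz => ?_⟩
    rw [(hF σ).2 ⟨hz.1, fun j => (hc0 j).trans_lt (hz.2 j)⟩, hsum z (mem_iUnion.2 ⟨σ, hz⟩),
      Finset.sum_apply]
    exact Finset.sum_congr rfl fun k _ => hwu k σ ⟨hz.1, fun j _ => hz.2 j⟩
  have h1 : ∀ j, c j < (c + 1) j := fun j => lt_add_one _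
  refine ⟨fun σ => (hD σ).lin hθ (corner h1 σ), fun σ y hy => ?_, fun c' hcc => ?_⟩
  · obtain ⟨C, hC⟩ := (hD σ).le hθ hy
    exact ⟨C, fun φ B hB => ((hD σ).indep hθ hy (corner h1 σ) φ.2 ▸ hC φ.1 B hB :)⟩
  have hχ := hθ.add hβ
  have hc' : ∀ j, 0 ≤ c' j := fun j => (hc0 j).trans (hcc j).le
  obtain ⟨C, hC⟩ := bdd_top (hχ.cd.of_le one_le_two) hχ.cs hΩ hχ.s₀ hc0 hcc hw fun k σ => by
    simp only [w, flip, update_idem]
  choose D hD' using fun σ => (hD σ).lat_le hχ (corner hcc σ)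
  refine ⟨C + ∑ σ, ‖sgn σ‖ * D σ, fun φ B hB0 hB => ?_⟩
  have e1 : ∫ x, (β x * gfun F x) * φ.1 (ofR x) = ∑ σ, sgn σ * Sl β (F σ * φ.1) 0 := by
    simp only [Sl]
    simp_rw [← integral_const_mul]
    rw [← integral_finsetSum]
    · congr 1
      funext x
      simp only [gfun, Finset.sum_mul, Finset.mul_sum, sgn, pt_zero, Pi.mul_apply]
      exact Finset.sum_congr rfl fun σ _ => by ring
    · exact fun σ _ => (int_Sl hβ.cd.continuous hβ.cs ((hD σ).mul φ.2).fc fun x hx =>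
        pt_mem_closure (hs hx) fun j => by simp).const_mul _
  have e2 : (∫ x, (β x * gfun F x) * φ.1 (ofR x)) +
      ∑ σ, sgn σ * (hD σ).lin hθ (corner h1 σ) φ =
      ∑ σ, sgn σ * Sl (θ + β) ((∑ k, w k σ) * φ.1) (sv σ * c') +
        ∑ σ, sgn σ * (I * Lat (θ + β) (F σ * φ.1) 0 (sv σ * c')) := by
    rw [e1, ← Finset.sum_add_distrib, ← Finset.sum_add_distrib]
    refine Finset.sum_congr rfl fun σ _ => ?_
    have e3 := (hD σ).add hθ hβ hs (corner hcc σ) φ.2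
    rw [(hD σ).indep hθ (corner hcc σ) (corner h1 σ) φ.2, NN] at e3
    rw [← mul_add, ← mul_add, e3, add_comm]
    rfl
  rw [e2, add_mul, Finset.sum_mul]
  refine (norm_add_le _ _).trans (add_le_add (hC φ.1 univ B
    ⟨isOpen_univ, φ.2.differentiableOn, subset_univ _, hB0, hB⟩)
    ((norm_sum_le _ _).trans (Finset.sum_le_sum fun σ _ => ?_)))
  rw [norm_mul, norm_mul, norm_I, one_mul, mul_assoc]
  refine mul_le_mul_of_nonneg_left (hD' σ φ.1 B fun x hx t ht => hB _ (pt_mem_tube ?_ fun j => ?_))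
    (norm_nonneg _)
  · exact fun h0 => hx (by simp [dv, h0])
  · exact corner_abs hc' σ (abs_le.2 ⟨by linarith [ht.1], ht.2⟩) j

end Pool.Agent.Lib.MP_b71113_an
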