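import Pool.Agent.Lib.MP_b71113_an.FH.Ent

/-! Splitting a relation between functionals with a separating entire function; peak functions. -/

namespace Pool.Agent.Lib.MP_b71113_an

open Set Filter Topology MeasureTheory Complex Function Metric

variable {n : ℕ}

/-- a polynomial with attracting fixed points `0` and `1` -/
def Sm (w : ℂ) : ℂ := 3 * w ^ 2 - 2 * w ^ 3

theorem Sm_sub (M : ℕ) (w : ℂ) : Sm^[M] (1 - w) = 1 - Sm^[M] w := by
  induction M with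
  | zero => rfl
  | succ M ih =>
    rw [iterate_succ_apply', iterate_succ_apply', ih, Sm, Sm]
    ring

theorem Sm_le (M : ℕ) {w : ℂ} (hw : ‖w‖ ≤ 1 / 4) : ‖Sm^[M] w‖ ≤ (7 / 8) ^ M / 4 := by
  induction M with
  | zero => simpa using hw
  | succ M ih =>
    rw [iterate_succ_apply', pow_succ]
    set a := Sm^[M] w
    have h1 : ((7 : ℝ) / 8) ^ M ≤ 1 := pow_le_one₀ (by norm_num) (by norm_num)
    have h2 : Sm a = a * (a * (3 - 2 * a)) := by rw [Sm]; ring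
    have h3 := norm_sub_le 3 (2 * a)
    rw [norm_mul, Complex.norm_ofNat, Complex.norm_ofNat] at h3
    have h4 : ‖a‖ * ‖3 - 2 * a‖ ≤ 7 / 8 := by nlinarith [norm_nonneg a, norm_nonneg (3 - 2 * a)]
    rw [h2, norm_mul, norm_mul]
    nlinarith [norm_nonneg a]

theorem Sm_diff (M : ℕ) : Differentiable ℂ Sm^[M] :=
  Differentiable.iterate (by unfold Sm; fun_prop) M

/-- a continuous switch -/
noncomputable def sw (w : ℂ) : ℂ := (max 0 (min 1 (3 / 2 - 2 * ‖w‖)) : ℝ)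

theorem cont_sw : Continuous sw := by
  unfold sw
  fun_prop

theorem sw_one {w : ℂ} (h : ‖w‖ ≤ 1 / 4) : sw w = 1 := by
  rw [sw, min_eq_left (by linarith)]
  simp

theorem sw_zero {w : ℂ} (h : ‖1 - w‖ ≤ 1 / 4) : sw w = 0 := by
  have := norm_sub_norm_le 1 w
  rw [norm_one] at this
  rw [sw, max_eq_left (min_le_of_right_le (by linarith))]
  simp

theorem sep_core {m : (Fin n → ℝ) → ℂ} (hm : Continuous m) (hmc : HasCompactSupport m)
    {ν : (Fin n → ℤˣ) → Ent n →ₗ[ℂ] ℂ} {L S : Set (Fin n → ℂ)} (hL : IsCompact L)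
    (hS : IsCompact S) {P : (Fin n → ℂ) → ℂ} (hP : Differentiable ℂ P)
    (hν : ∀ σ, ∃ C : ℝ, ∀ (φ : Ent n) (B : ℝ), (∀ w ∈ L, ‖φ.1 w‖ ≤ B) → ‖ν σ φ‖ ≤ C * B)
    {C : ℝ} (hC : ∀ (φ : Ent n) (B : ℝ), 0 ≤ B → (∀ w ∈ S, ‖φ.1 w‖ ≤ B) →
      ‖(∫ x, m x * φ.1 (ofR x)) + ∑ σ, sgn σ * ν σ φ‖ ≤ C * B)
    (hPL : ∀ w ∈ L, ‖P w‖ ≤ 1 / 4) (hPS : ∀ w ∈ S, ‖1 - P w‖ ≤ 1 / 4)
    (hPm : ∀ x, m x ≠ 0 → ‖P (ofR x)‖ ≤ 1 / 4 ∨ ‖1 - P (ofR x)‖ ≤ 1 / 4) (φ : Ent n) :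
    (∫ x, (m x * sw (P (ofR x))) * φ.1 (ofR x)) + ∑ σ, sgn σ * ν σ φ = 0 := by
  choose D hD using hν
  have hφ : Differentiable ℂ φ.1 := φ.2
  obtain ⟨B, hB⟩ := (hL.union hS).exists_bound_of_continuousOn hφ.continuous.continuousOn
  have hB' : ∀ w ∈ L ∪ S, ‖φ.1 w‖ ≤ |B| := fun w hw => (hB w hw).trans (le_abs_self B)
  have hint : ∀ a : (Fin n → ℂ) → ℂ, Continuous a → Integrable fun x => m x * a (ofR x) :=
    fun a ha => (hm.mul (ha.comp continuous_ofR)).integrable_of_hasCompactSupport hmc.mul_right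
  have key : ∀ M : ℕ, ‖(∫ x, (m x * sw (P (ofR x))) * φ.1 (ofR x)) + ∑ σ, sgn σ * ν σ φ‖ ≤
      (C * |B| + (∫ x, ‖m x * φ.1 (ofR x)‖) + ∑ σ, ‖sgn σ‖ * (D σ * |B|)) *
        ((7 / 8) ^ M / 4) := fun M => by
    have hd : Differentiable ℂ fun z => Sm^[M] (P z) := (Sm_diff M).comp hP
    let a : Ent n := ⟨fun z => φ.1 z * Sm^[M] (P z), hφ.mul hd⟩
    have hb : ∀ w ∈ L ∪ S, ∀ v : ℂ, ‖v‖ ≤ 1 / 4 →
        ‖φ.1 w * Sm^[M] v‖ ≤ |B| * ((7 / 8) ^ M / 4) := fun w hw v hv => by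
      rw [norm_mul]
      exact mul_le_mul (hB' w hw) (Sm_le M hv) (norm_nonneg _) (abs_nonneg _)
    have h1 := hC (φ - a) (|B| * ((7 / 8) ^ M / 4)) (by positivity) fun w hw => by
      have := hb w (Or.inr hw) _ (hPS w hw)
      rwa [Sm_sub, mul_one_sub] at this
    have h2 : ‖∑ σ, sgn σ * ν σ a‖ ≤ (∑ σ, ‖sgn σ‖ * (D σ * |B|)) * ((7 / 8) ^ M / 4) := by
      rw [Finset.sum_mul]
      refine (norm_sum_le _ _).trans (Finset.sum_le_sum fun σ _ => ?_)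
      rw [norm_mul, mul_assoc, mul_assoc]
      exact mul_le_mul_of_nonneg_left (hD σ a _ fun w hw => hb w (Or.inl hw) _ (hPL w hw))
        (norm_nonneg _)
    have i1 := hint (fun z => sw (P z) * φ.1 z) ((cont_sw.comp hP.continuous).mul hφ.continuous)
    have i2 := hint _ (Differentiable.continuous (𝕜 := ℂ) (φ - a).2)
    have h3 : ‖∫ x, (m x * (sw (P (ofR x)) * φ.1 (ofR x)) - m x * (φ - a).1 (ofR x))‖ ≤
        (∫ x, ‖m x * φ.1 (ofR x)‖) * ((7 / 8) ^ M / 4) := by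
      rw [← integral_mul_const]
      refine norm_integral_le_of_norm_le ((hint _ hφ.continuous).norm.mul_const _)
        (Eventually.of_forall fun x => ?_)
      by_cases hx : m x = 0
      · simp [hx]
      have e : m x * (sw (P (ofR x)) * φ.1 (ofR x)) - m x * (φ - a).1 (ofR x) =
          m x * φ.1 (ofR x) * (sw (P (ofR x)) - (1 - Sm^[M] (P (ofR x)))) := by
        simp only [a, Submodule.coe_sub, Pi.sub_apply]
        ring
      rw [e, norm_mul]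
      refine mul_le_mul_of_nonneg_left ?_ (norm_nonneg _)
      rcases hPm x hx with h | h
      · rw [sw_one h, sub_sub_cancel]
        exact Sm_le M h
      · rw [sw_zero h, zero_sub, norm_neg, ← Sm_sub]
        exact Sm_le M h
    rw [integral_sub i1 i2] at h3
    have e : (∫ x, (m x * sw (P (ofR x))) * φ.1 (ofR x)) + ∑ σ, sgn σ * ν σ φ =
        ((∫ x, m x * (φ - a).1 (ofR x)) + ∑ σ, sgn σ * ν σ (φ - a)) +
        ((∫ x, m x * (sw (P (ofR x)) * φ.1 (ofR x))) - ∫ x, m x * (φ - a).1 (ofR x)) +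
        ∑ σ, sgn σ * ν σ a := by
      simp only [map_sub, mul_sub, Finset.sum_sub_distrib, mul_assoc]
      ring
    rw [e]
    refine (norm_add₃_le.trans (add_le_add (add_le_add h1 h3) h2)).trans_eq (by ring)
  have hlim := (((tendsto_pow_atTop_nhds_zero_of_lt_one (r := (7 / 8 : ℝ)) (by norm_num)
    (by norm_num)).div_const 4).const_mul
    (C * |B| + (∫ x, ‖m x * φ.1 (ofR x)‖) + ∑ σ, ‖sgn σ‖ * (D σ * |B|)))
  exact norm_le_zero_iff.1 (by simpa using ge_of_tendsto' hlim key)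

theorem peak {m : (Fin n → ℝ) → ℂ} (hm : Continuous m) (hmc : HasCompactSupport m)
    {S : Set (Fin n → ℝ)} (hS : IsCompact S) {c : Fin n → ℝ} (hc0 : ∀ j, 0 ≤ c j)
    (h : ∀ c' : Fin n → ℝ, (∀ j, c j < c' j) → ∃ C : ℝ, ∀ (φ : Ent n) (B : ℝ), 0 ≤ B →
      (∀ w ∈ tube S c', ‖φ.1 w‖ ≤ B) → ‖∫ x, m x * φ.1 (ofR x)‖ ≤ C * B)
    {φ : (Fin n → ℂ) → ℂ} (hφ : Differentiable ℂ φ) {M : ℝ} (hM0 : 0 ≤ M)
    (hM : ∀ w ∈ tube S c, ‖φ w‖ ≤ M) {x₀ : Fin n → ℝ} (hlt : M < ‖φ (ofR x₀)‖) : m x₀ = 0 := by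
  set a := φ (ofR x₀) with ha
  have ha0 : 0 < ‖a‖ := hM0.trans_lt hlt
  have ha0' : a ≠ 0 := norm_pos_iff.1 ha0
  obtain ⟨k, hk⟩ := exists_pow_lt_of_lt_one (show (0 : ℝ) < 1 / 4 by norm_num)
    ((div_lt_one ha0).2 hlt)
  set φ₂ : (Fin n → ℂ) → ℂ := fun z => (φ z / a) ^ k with hφ₂
  have hφ₂d : Differentiable ℂ φ₂ := by
    simp only [hφ₂, div_eq_mul_inv]
    exact (hφ.mul_const a⁻¹).pow k
  have hφ₂1 : φ₂ (ofR x₀) = 1 := by simp [hφ₂, ← ha, ha0']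
  obtain ⟨δ, hδ, h₂⟩ := tube_thick hS hc0 (isOpen_ball.preimage hφ₂d.continuous)
    (show tube S c ⊆ φ₂ ⁻¹' ball 0 (1 / 4) from fun w hw => by
      rw [mem_preimage, mem_ball_zero_iff, hφ₂, norm_pow, norm_div]
      refine lt_of_le_of_lt ?_ hk
      gcongr
      exact hM w hw)
  set c' : Fin n → ℝ := fun j => c j + δ with hc'
  have h₂' : ∀ w ∈ tube S c', ‖φ₂ w‖ ≤ 1 / 4 := fun w hw => (mem_ball_zero_iff.1 (h₂ hw)).le
  obtain ⟨C, hC⟩ := h c' fun j => by simp [hc', hδ]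
  set Φ : (Fin n → ℂ) → ℂ := fun z => (φ₂ z + star (φ₂ (star z))) / 2 with hΦ
  have hΦd : Differentiable ℂ Φ := by
    simp only [hΦ, div_eq_mul_inv]
    refine Differentiable.mul_const (hφ₂d.add fun z => ?_) _
    have := (hφ₂d (star z)).star_star
    rwa [star_star] at this
  have hΦr : ∀ x, Φ (ofR x) = ((φ₂ (ofR x)).re : ℂ) := by
    intro x
    simp only [hΦ, star_ofR]
    apply Complex.ext <;> simp
  set κ : ℝ := 2 * (∑ j, c' j ^ 2 + 1) with hκ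
  have hκ0 : 0 ≤ κ := by positivity
  set Ψ : (Fin n → ℂ) → ℂ := fun z =>
    exp (-(κ * (Φ z - 1) ^ 2) - ∑ j, (z j - x₀ j) ^ 2) with hΨ
  have hΨd : Differentiable ℂ Ψ := by fun_prop
  set p : (Fin n → ℝ) → ℝ := fun x =>
    Real.exp (-(κ * ((φ₂ (ofR x)).re - 1) ^ 2) - ∑ j, (x j - x₀ j) ^ 2) with hp
  have hΨp : ∀ x, Ψ (ofR x) = (p x : ℂ) := by
    intro x
    simp only [hΨ, hp, hΦr]
    push_cast
    simp [ofR]
  have hΨs : ∀ w ∈ tube S c', ‖Ψ w‖ ≤ Real.exp (-1) := by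
    intro w hw
    have e1 : ‖Φ w‖ ≤ 1 / 4 := by
      have h3 := h₂' w hw
      have h4 := h₂' _ (star_mem_tube hw)
      have h5 := norm_add_le (φ₂ w) (star (φ₂ (star w)))
      rw [norm_star] at h5
      simp only [hΦ, norm_div, Complex.norm_ofNat]
      linarith
    have e2 := re_sq_ge e1
    have e3 : -∑ j, c' j ^ 2 ≤ (∑ j, (w j - x₀ j) ^ 2).re := by
      rw [re_sum, ← Finset.sum_neg_distrib]
      refine Finset.sum_le_sum fun j _ => ?_
      have h3 := hw.2 j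
      have h4 : (w j).im ^ 2 ≤ c' j ^ 2 := sq_le_sq' (abs_le.1 h3).1 (abs_le.1 h3).2
      simp only [sq, mul_re, sub_re, ofReal_re, sub_im, ofReal_im, sub_zero] at h4 ⊢
      nlinarith [mul_self_nonneg ((w j).re - x₀ j)]
    rw [hΨ, norm_exp, Real.exp_le_exp, sub_re, neg_re, re_ofReal_mul]
    have e4 := mul_le_mul_of_nonneg_left e2 hκ0
    have e5 : κ * (1 / 2) = ∑ j, c' j ^ 2 + 1 := by rw [hκ]; ring
    linarith
  refine zero_of_peak (hmc.isCompact.union (isCompact_closedBall x₀ 1))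
    (mem_interior_iff_mem_nhds.2 (mem_of_superset (closedBall_mem_nhds x₀ one_pos)
      subset_union_right)) (p := p) (C := C) (θ := Real.exp (-1)) ?_
    (fun x _ => (Real.exp_pos _).le) ?_ ?_ hm.continuousOn (Real.exp_pos _).le
    (Real.exp_lt_one_iff.2 (by norm_num)) fun k => ?_
  · have h3 := continuous_re.comp (hφ₂d.continuous.comp continuous_ofR)
    exact (Real.continuous_exp.comp ((continuous_const.mul ((h3.sub continuous_const).pow 2)).neg.sub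
      (by fun_prop))).continuousOn
  · simp [hp, hφ₂1]
  · intro x _ hx
    rw [hp, Real.exp_lt_one_iff]
    obtain ⟨j, hj⟩ := Function.ne_iff.1 hx
    have h3 : 0 < ∑ j, (x j - x₀ j) ^ 2 :=
      Finset.sum_pos' (fun i _ => sq_nonneg _)
        ⟨j, Finset.mem_univ _, sq_pos_of_ne_zero (sub_ne_zero.2 hj)⟩
    have h4 : 0 ≤ κ * ((φ₂ (ofR x)).re - 1) ^ 2 := by positivity
    linarith
  · have h3 := hC ⟨fun z => Ψ z ^ k, hΨd.pow k⟩ (Real.exp (-1) ^ k) (by positivity) fun w hw => by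
      rw [norm_pow]
      exact pow_le_pow_left₀ (norm_nonneg _) (hΨs w hw) k
    rw [setIntegral_eq_integral_of_forall_compl_eq_zero fun x hx => by
      simp [image_eq_zero_of_notMem_tsupport fun h => hx (Or.inl h)]]
    refine le_of_eq_of_le ?_ h3
    congr 2
    funext x
    simp only [hΨp, real_smul]
    push_cast
    ring

end Pool.Agent.Lib.MP_b71113_an
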