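import Pool.Agent.Lib.MP_b71113_an.FH.Sep1
import Pool.Agent.Lib.MP_b71113_an.FH.Nu3
import Pool.Agent.Lib.MP_b71113_an.FH.Inner

/-! A hole that is separated from the outer boundary does not contribute. -/

namespace Pool.Agent.Lib.MP_b71113_an

open Set Filter Topology MeasureTheory Complex Function Metric

variable {n : ℕ} {Ω K K₀ : Set (Fin n → ℝ)} {c : Fin n → ℝ} {f P : (Fin n → ℂ) → ℂ}
  {F : (Fin n → ℤˣ) → (Fin n → ℂ) → ℂ}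

theorem fderiv_supp {ψ : (Fin n → ℝ) → ℝ} {A : Set (Fin n → ℝ)} (h : ∀ x ∈ A, ψ x = 1) :
    {x | fderiv ℝ ψ x ≠ 0} ⊆ tsupport ψ \ interior A := fun x hx => by
  refine ⟨support_fderiv_subset ℝ hx, fun hi => hx ?_⟩
  have : ψ =ᶠ[𝓝 x] fun _ => 1 := by
    filter_upwards [mem_interior_iff_mem_nhds.1 hi] with y hy using h y hy
  rw [this.fderiv_eq]
  simp

theorem exists_cf {A V : Set (Fin n → ℝ)} (hA : IsCompact A) (hKA : K ⊆ A)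
    (hV : IsOpen V) (hAV : A ⊆ V) (hVΩ : V ⊆ Ω) : ∃ (ψ : (Fin n → ℝ) → ℝ) (A' : Set (Fin n → ℝ)),
      Cf (Ω \ K) Ω ψ ∧ tsupport ψ ⊆ V ∧ A ⊆ interior A' ∧ ∀ x ∈ A', ψ x = 1 := by
  obtain ⟨A', h1, h2, h3⟩ := exists_compact_between hA hV hAV
  obtain ⟨ψ, h4, h5, h6, h7, -⟩ := exists_bump h1 hV h3
  refine ⟨ψ, A', ⟨contDiff_infty.1 h4 2, h5, h6.trans hVΩ, fun v => ?_⟩, h6, h2, h7⟩
  refine (closure_minimal (s := support (dv ψ v))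
    (fun x hx => fderiv_supp h7 fun h0 => hx (by simp [dv, h0])) ((isClosed_tsupport ψ).sdiff isOpen_interior)).trans fun x hx =>
      ⟨hVΩ (h6 hx.1), fun hk => hx.2 (h2 (hKA hk))⟩

theorem near_K (hK : IsCompact K) (hP : Continuous P)
    (h0 : ∀ w ∈ tube K c, ‖P w‖ ≤ 1 / 10) :
    ∃ V, IsOpen V ∧ K ⊆ V ∧ ∀ w ∈ tube V c, ‖P w‖ ≤ 1 / 9 := by
  obtain ⟨δ, hδ, h⟩ := (isCompact_tube hK c).exists_thickening_subset_open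
    (isOpen_ball.preimage hP) (show tube K c ⊆ P ⁻¹' ball 0 (1 / 9) from fun w hw =>
      mem_ball_zero_iff.2 ((h0 w hw).trans_lt (by norm_num)))
  refine ⟨thickening δ K, isOpen_thickening, self_subset_thickening hδ K, fun w hw => ?_⟩
  obtain ⟨k, hk, hd⟩ := mem_thickening_iff.1 hw.1
  refine (mem_ball_zero_iff.1 (h (mem_thickening_iff.2 ⟨pt k fun j => (w j).im,
    pt_mem_tube hk hw.2, ?_⟩))).le
  rw [dist_pi_lt_iff hδ] at hd ⊢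
  intro j
  have e : w j - pt k (fun j => (w j).im) j = (((w j).re - k j : ℝ) : ℂ) := by
    apply Complex.ext <;> simp
  rw [dist_eq_norm, e, norm_real]
  exact hd j

theorem dicho (hΩ : IsOpen Ω) (hK : IsCompact K) (hc0 : ∀ j, 0 ≤ c j)
    (h : Admissible (Ω \ K) c f F) (hP : Differentiable ℂ P) (hK₀ : IsCompact K₀) (hK₀Ω : K₀ ⊆ Ω)
    (h0 : ∀ w ∈ tube K c, ‖P w‖ ≤ 1 / 10) (h1 : ∀ w ∈ tube (Ω \ K₀) c, ‖P w - 1‖ ≤ 1 / 10)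
    {x : Fin n → ℝ} (hx : x ∈ Ω \ K) (hg : gfun F x ≠ 0) :
    ‖P (ofR x)‖ ≤ 1 / 4 ∨ ‖1 - P (ofR x)‖ ≤ 1 / 4 := by
  obtain ⟨V, hV, hKV, hPV⟩ := near_K hK hP.continuous h0
  have hn : ∀ a : ℂ, 1 ≤ ‖a‖ + ‖a - 1‖ ∧ ‖a‖ ≤ ‖a - 1‖ + 1 ∧ ‖a - 1‖ ≤ ‖a‖ + 1 := fun a =>
    ⟨by simpa using norm_sub_le a (a - 1), by simpa using norm_add_le (a - 1) 1,
      by simpa using norm_sub_le a 1⟩
  have key : ‖P (ofR x) * (P (ofR x) - 1)‖ ≤ 10 / 81 := by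
    by_contra hlt
    refine hg (vanish_of_sep (hΩ.sdiff hK.isClosed) hc0 h hx isOpen_univ (subset_univ _)
      (φ := fun z => P z * (P z - 1)) (hP.mul (hP.sub_const 1)).differentiableOn (hK₀.diff hV)
      (fun y hy => ⟨hK₀Ω hy.1, fun hk => hy.2 (hKV hk)⟩) (by norm_num) (fun w hw => ?_)
      (not_le.1 hlt))
    rw [norm_mul]
    have h2 := hn (P w)
    by_cases hv : reV w ∈ V
    · have := hPV w ⟨hv, hw.2⟩
      nlinarith [norm_nonneg (P w), norm_nonneg (P w - 1)]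
    · have := h1 w ⟨⟨hw.1.1.1, fun h3 => hw.1.2 ⟨h3, hv⟩⟩, hw.2⟩
      nlinarith [norm_nonneg (P w), norm_nonneg (P w - 1)]
  rw [norm_mul] at key
  rw [norm_sub_rev]
  by_contra hc
  rw [not_or, not_le, not_le] at hc
  nlinarith [(hn (P (ofR x))).1, mul_pos (sub_pos.2 hc.1) (sub_pos.2 hc.2)]

theorem setup (hn : 1 < n) (hΩ : IsOpen Ω) (hK : IsCompact K) (hKΩ : K ⊆ Ω)
    (hpc : IsPreconnected (Ω \ K)) (hc0 : ∀ j, 0 ≤ c j) (h : Admissible (Ω \ K) c f F)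
    (hP : Differentiable ℂ P) (hK₀ : IsCompact K₀) (hK₀Ω : K₀ ⊆ Ω)
    (h0 : ∀ w ∈ tube K c, ‖P w‖ ≤ 1 / 10) (h1 : ∀ w ∈ tube (Ω \ K₀) c, ‖P w - 1‖ ≤ 1 / 10)
    {x₀ : Fin n → ℝ} (hx₀ : x₀ ∈ Ω \ K) {K₂ : Set (Fin n → ℝ)} (hK₂ : IsCompact K₂)
    (hK₂Ω : K₂ ⊆ Ω) :
    ∃ (m : (Fin n → ℝ) → ℂ) (L S : Set (Fin n → ℝ)) (ν : (Fin n → ℤˣ) → Ent n →ₗ[ℂ] ℂ),
      Continuous m ∧ HasCompactSupport m ∧ m x₀ = gfun F x₀ ∧
      (∀ x, m x ≠ 0 → x ∈ Ω \ K ∧ ∃ b, m x = b * gfun F x) ∧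
      IsCompact L ∧ x₀ ∉ L ∧ IsCompact S ∧ S ⊆ Ω \ K₂ ∧
      (∀ σ y, (∀ j, c j < sv σ j * y j) → ∃ C : ℝ, ∀ (φ : Ent n) (B : ℝ),
        (∀ x ∈ L, ∀ t ∈ Icc (0 : ℝ) 1, ‖φ.1 (pt x (t • y))‖ ≤ B) → ‖ν σ φ‖ ≤ C * B) ∧
      (∀ c' : Fin n → ℝ, (∀ j, c j < c' j) → ∃ C : ℝ, ∀ (φ : Ent n) (B : ℝ), 0 ≤ B →
        (∀ w ∈ tube S c', ‖φ.1 w‖ ≤ B) →
        ‖(∫ x, m x * φ.1 (ofR x)) + ∑ σ, sgn σ * ν σ φ‖ ≤ C * B) ∧
      ∀ φ : Ent n, (∫ x, (m x * sw (P (ofR x))) * φ.1 (ofR x)) + ∑ σ, sgn σ * ν σ φ = 0 := by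
  have hO := hΩ.sdiff hK.isClosed
  obtain ⟨V, hV, hKV, hPV⟩ := near_K hK hP.continuous h0
  obtain ⟨θ, A, hθ, hθV, hKA, hθ1⟩ := exists_cf (Ω := Ω) hK Subset.rfl
    ((hV.inter hΩ).sdiff isClosed_singleton (t := {x₀}))
    (fun x hx => ⟨⟨hKV hx, hKΩ hx⟩, fun e => hx₀.2 (e ▸ hx)⟩) fun x hx => hx.1.2
  obtain ⟨χ, A', hχ, -, hA', hχ1⟩ := exists_cf (K := K)
    (((hK.union hK₀).union hK₂).insert x₀) (fun x hx => by simp [hx]) hΩ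
    (insert_subset hx₀.1 (union_subset (union_subset hKΩ hK₀Ω) hK₂Ω)) Subset.rfl
  have hs : tsupport (χ - θ) ⊆ Ω \ K := fun x hx => by
    refine ⟨(tsupport_sub χ θ hx).elim (fun h => hχ.s₀ h) fun h => hθ.s₀ h, fun hk => ?_⟩
    refine notMem_tsupport_iff_eventuallyEq.2 ?_ hx
    filter_upwards [mem_interior_iff_mem_nhds.1 (hKA hk),
      mem_interior_iff_mem_nhds.1 (hA' (show x ∈ _ by simp [hk]))] with y h2 h3
    simp [hθ1 y h2, hχ1 y h3]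
  have hβ : Cf (Ω \ K) Ω (χ - θ) := ⟨hχ.cd.sub hθ.cd, hχ.cs.sub hθ.cs, hs.trans sdiff_subset,
    fun v => (dv_supp _ v).trans hs⟩
  obtain ⟨ν, hν, hB⟩ := exists_nu hn hΩ hK hKΩ hpc hc0 h hθ hβ hs
  rw [add_sub_cancel] at hB
  have hx₀θ : x₀ ∉ tsupport θ := fun h => (hθV h).2 rfl
  have hSc : IsCompact (tsupport χ \ interior A') := IsCompact.diff hχ.cs isOpen_interior
  have hm : Continuous fun x => ((χ - θ) x : ℂ) * gfun F x := by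
    refine continuous_of_tsupport fun x hx => ?_
    have h2 : x ∈ tsupport (χ - θ) := by
      by_contra h0
      refine notMem_tsupport_iff_eventuallyEq.2 ?_ hx
      filter_upwards [notMem_tsupport_iff_eventuallyEq.1 h0] with y hy
      simp only [hy, Pi.zero_apply, ofReal_zero, zero_mul]
    exact (continuous_ofReal.comp hβ.cd.continuous).continuousAt.mul
      ((continuousOn_gfun h).continuousAt (hO.mem_nhds (hs h2)))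
  have hmc : HasCompactSupport fun x => ((χ - θ) x : ℂ) * gfun F x :=
    (hβ.cs.comp_left (g := fun t : ℝ => (t : ℂ)) ofReal_zero).mul_right
  have hm0 : ∀ x, ((χ - θ) x : ℂ) * gfun F x ≠ 0 → x ∈ Ω \ K := fun x hx =>
    hs (by_contra fun h0 => hx (by rw [cz h0, zero_mul]))
  have hB' : ∀ c' : Fin n → ℝ, (∀ j, c j < c' j) → ∃ C : ℝ, ∀ (φ : Ent n) (B : ℝ), 0 ≤ B →
      (∀ w ∈ tube (tsupport χ \ interior A') c', ‖φ.1 w‖ ≤ B) →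
      ‖(∫ x, ((χ - θ) x * gfun F x) * φ.1 (ofR x)) + ∑ σ, sgn σ * ν σ φ‖ ≤ C * B := fun c' hcc =>
    (hB c' hcc).imp fun C hC φ B hB0 hφ => hC φ B hB0 fun w hw =>
      hφ w (tube_mono (fderiv_supp hχ1) (fun _ => le_rfl) hw)
  refine ⟨_, tsupport θ, _, ν, hm, hmc, ?_, fun x hx => ⟨hm0 x hx, _, rfl⟩, hθ.cs, hx₀θ, hSc,
    fun x hx => ⟨hχ.s₀ hx.1, fun h2 => hx.2 (hA' (by simp [h2]))⟩, hν, hB', ?_⟩
  · simp [hχ1 x₀ (interior_subset (hA' (mem_insert _ _))), image_eq_zero_of_notMem_tsupport hx₀θ]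
  obtain ⟨δ₁, hδ₁, h₁⟩ := tube_thick hθ.cs hc0 (isOpen_ball.preimage hP.continuous)
    (show tube (tsupport θ) c ⊆ P ⁻¹' ball 0 (1 / 4) from fun w hw =>
      mem_ball_zero_iff.2 ((hPV w ⟨(hθV hw.1).1.1, hw.2⟩).trans_lt (by norm_num)))
  obtain ⟨δ₂, hδ₂, h₂⟩ := tube_thick hSc hc0 (isOpen_ball.preimage hP.continuous)
    (show tube _ c ⊆ P ⁻¹' ball 1 (1 / 4) from fun w hw => mem_ball_iff_norm.2 ((h1 w
      ⟨⟨hχ.s₀ hw.1.1, fun h2 => hw.1.2 (hA' (by simp [h2]))⟩, hw.2⟩).trans_lt (by norm_num)))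
  have hcc : ∀ j, c j < c j + min δ₁ δ₂ := fun j => by simp [hδ₁, hδ₂]
  obtain ⟨C, hC⟩ := hB' _ hcc
  refine sep_core hm hmc (isCompact_tube hθ.cs fun j => c j + min δ₁ δ₂) (isCompact_tube hSc _) hP
    (fun σ => (hν σ _ (corner hcc σ)).imp fun D hD φ B hφ => hD φ B fun x hx t ht => hφ _
      (pt_mem_tube hx fun j => corner_abs (fun j => (hc0 j).trans (hcc j).le) σ
        (abs_le.2 ⟨by linarith [ht.1], ht.2⟩) j)) hC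
    (fun w hw => (mem_ball_zero_iff.1 (h₁ (tube_mono Subset.rfl (fun j => by simp) hw))).le)
    (fun w hw => (mem_ball_iff_norm'.1 (h₂ (tube_mono Subset.rfl (fun j => by simp) hw))).le)
    fun x hx => dicho hΩ hK hc0 h hP hK₀ hK₀Ω h0 h1 (hm0 x hx) (right_ne_zero_of_mul hx)

theorem vanish_hole (hn : 1 < n) (hΩ : IsOpen Ω) (hK : IsCompact K) (hKΩ : K ⊆ Ω)
    (hpc : IsPreconnected (Ω \ K)) (hc0 : ∀ j, 0 ≤ c j) (h : Admissible (Ω \ K) c f F)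
    (hP : Differentiable ℂ P) (hK₀ : IsCompact K₀) (hK₀Ω : K₀ ⊆ Ω)
    (h0 : ∀ w ∈ tube K c, ‖P w‖ ≤ 1 / 10) (h1 : ∀ w ∈ tube (Ω \ K₀) c, ‖P w - 1‖ ≤ 1 / 10)
    {x₀ : Fin n → ℝ} (hx₀ : x₀ ∈ Ω \ K) {K₂ : Set (Fin n → ℝ)} (hK₂ : IsCompact K₂)
    (hK₂Ω : K₂ ⊆ Ω) {φ : (Fin n → ℂ) → ℂ} (hφ : Differentiable ℂ φ) {M : ℝ} (hM0 : 0 ≤ M)
    (hM : ∀ w ∈ tube (Ω \ K₂) c, ‖φ w‖ ≤ M) (hlt : M < ‖φ (ofR x₀)‖) : gfun F x₀ = 0 := by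
  have key : ∀ x ∈ Ω \ K, gfun F x * sw (P (ofR x)) = 0 := fun x hx => by
    obtain ⟨m, L, -, ν, h2, h3, h4, -, h5, h6, -, -, h7, -, h8⟩ :=
      setup hn hΩ hK hKΩ hpc hc0 h hP hK₀ hK₀Ω h0 h1 hx isCompact_empty (empty_subset _)
    rw [← h4]
    refine inner_zero h5 hc0 (-ν) (fun σ y hy => (h7 σ y hy).imp fun C hC φ B _ hB => ?_)
      (h2.mul (cont_sw.comp (hP.continuous.comp continuous_ofR))) h3.mul_right (fun φ => ?_) h6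
    · simpa using hC φ B hB
    · simpa [eq_neg_iff_add_eq_zero] using h8 φ
  obtain ⟨m, L, S, ν, h2, h3, h4, h5, -, -, h6, h7, -, h8, h9⟩ :=
    setup hn hΩ hK hKΩ hpc hc0 h hP hK₀ hK₀Ω h0 h1 hx₀ hK₂ hK₂Ω
  have e : ∀ x, m x * sw (P (ofR x)) = 0 := fun x => by
    by_cases hx : m x = 0
    · rw [hx, zero_mul]
    · obtain ⟨h10, b, hb⟩ := h5 x hx
      rw [hb, mul_assoc, key x h10, mul_zero]
  simp only [e, zero_mul, integral_zero, zero_add] at h9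
  simp only [h9, add_zero] at h8
  exact h4 ▸ peak h2 h3 h6 hc0 h8 hφ hM0 (fun w hw => hM w (tube_mono h7 (fun _ => le_rfl) hw)) hlt

end Pool.Agent.Lib.MP_b71113_an
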